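import Mathlib

set_option autoImplicit false
set_option linter.unusedSectionVars false
set_option linter.unusedVariables false

namespace Pool.Agent.Helper889.Si

open Equiv Equiv.Perm

section
variable {Ω : Type} [DecidableEq Ω]

/-- the three-cycle `a → b → c → a` -/
def c3 (a b c : Ω) : Perm Ω := swap a b * swap b c

theorem c3_1 {a b c : Ω} (h1 : a ≠ b) (h2 : a ≠ c) : c3 a b c a = b := by
  unfold c3
  rw [Perm.mul_apply, swap_apply_of_ne_of_ne h1 h2, swap_apply_left]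

theorem c3_2 {a b c : Ω} (h2 : a ≠ c) (h3 : b ≠ c) : c3 a b c b = c := by
  unfold c3
  rw [Perm.mul_apply, swap_apply_left, swap_apply_of_ne_of_ne h2.symm h3.symm]

theorem c3_3 {a b c : Ω} : c3 a b c c = a := by
  unfold c3
  rw [Perm.mul_apply, swap_apply_right, swap_apply_right]

theorem c3_fix {a b c x : Ω} (h1 : x ≠ a) (h2 : x ≠ b) (h3 : x ≠ c) : c3 a b c x = x := by
  unfold c3
  rw [Perm.mul_apply, swap_apply_of_ne_of_ne h2 h3, swap_apply_of_ne_of_ne h1 h2]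

theorem c3_rot {a b c : Ω} (h1 : a ≠ b) (h2 : a ≠ c) (h3 : b ≠ c) : c3 a b c = c3 b c a := by
  ext1 x
  by_cases hxa : x = a
  · subst hxa; rw [c3_1 h1 h2, c3_3]
  · by_cases hxb : x = b
    · subst hxb; rw [c3_2 h2 h3, c3_1 h3 h1.symm]
    · by_cases hxc : x = c
      · subst hxc; rw [c3_3, c3_2 h1.symm h2.symm]
      · rw [c3_fix hxa hxb hxc, c3_fix hxb hxc hxa]

theorem c3_conj (g : Perm Ω) (a b c : Ω) : g * c3 a b c * g⁻¹ = c3 (g a) (g b) (g c) := by
  unfold c3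
  have h : ∀ x y : Ω, g * swap x y * g⁻¹ = swap (g x) (g y) := fun x y => by
    rw [swap_apply_apply]
  rw [← h, ← h]
  group

variable [Fintype Ω]

theorem c3_mem {a b c : Ω} (h1 : a ≠ b) (h3 : b ≠ c) : c3 a b c ∈ alternatingGroup Ω := by
  unfold c3
  rw [mem_alternatingGroup, Perm.sign_mul, sign_swap h1, sign_swap h3]
  norm_num

theorem alt_le_of_c3 (Γ : Subgroup (Perm Ω)) (h : ∀ a b c : Ω, a ≠ b → a ≠ c → b ≠ c → c3 a b c ∈ Γ) :
    alternatingGroup Ω ≤ Γ := by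
  rw [← closure_three_cycles_eq_alternating, Subgroup.closure_le]
  intro g hg
  have hg' : g.IsThreeCycle := hg
  obtain ⟨a, ha⟩ : g.support.Nonempty := by
    rw [← Finset.card_pos, hg'.card_support]; norm_num
  have h1 := hg'.eq_swap_mul_swap_iff_mem_support.2 ha
  have h2 := hg'.nodup_iff_mem_support.2 ha
  simp only [List.nodup_cons, List.mem_cons, List.not_mem_nil, or_false, not_or, not_false_eq_true,
    List.nodup_nil, and_true] at h2
  have := h a (g a) (g (g a)) h2.1.1 h2.1.2 h2.2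
  unfold c3 at this
  rw [← h1] at this
  exact this

end

theorem altGen {Ω W : Type} [Fintype Ω] [DecidableEq Ω] [Fintype W] [DecidableEq W] (π : Ω → W)
    (hπ : Function.Surjective π) (hW : 9 ≤ Fintype.card W) (Γ : Subgroup (Perm Ω))
    (hR : ∀ a a' b c, π a ≠ π b → π a ≠ π c → π a' ≠ π b → π a' ≠ π c → ∃ γ ∈ Γ, γ a = a' ∧ γ b = b ∧ γ c = c)
    {p q r : Ω} (hpq : π p ≠ π q) (hpr : π p ≠ π r) (hqr : π q ≠ π r) (h3 : c3 p q r ∈ Γ) :
    alternatingGroup Ω ≤ Γ := by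
  have fresh : ∀ s : Finset W, s.card ≤ 8 → ∃ d, π d ∉ s := by
    intro s hs
    obtain ⟨w, hw⟩ : ∃ w, w ∉ s := by
      by_contra hcon
      push Not at hcon
      have := Finset.card_le_card (fun w _ => hcon w : (Finset.univ : Finset W) ⊆ s)
      rw [Finset.card_univ] at this
      omega
    obtain ⟨d, rfl⟩ := hπ w
    exact ⟨d, hw⟩
  have hne : ∀ {x y : Ω}, π x ≠ π y → x ≠ y := fun h hxy => h (by rw [hxy])
  have rot : ∀ {a b c : Ω}, a ≠ b → a ≠ c → b ≠ c → c3 a b c ∈ Γ → c3 b c a ∈ Γ := by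
    intro a b c h1 h2 h3 h
    rwa [← c3_rot h1 h2 h3]
  have conj : ∀ {g : Perm Ω}, g ∈ Γ → ∀ {a b c : Ω}, c3 a b c ∈ Γ → c3 (g a) (g b) (g c) ∈ Γ := by
    intro g hg a b c h
    rw [← c3_conj]
    exact mul_mem (mul_mem hg h) (inv_mem hg)
  have rep : ∀ {a b c a' : Ω}, π a ≠ π b → π a ≠ π c → π a' ≠ π b → π a' ≠ π c → c3 a b c ∈ Γ → c3 a' b c ∈ Γ := by
    intro a b c a' h1 h2 h3 h4 h
    obtain ⟨γ, hγ, e1, e2, e3⟩ := hR a a' b c h1 h2 h3 h4
    have := conj hγ h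
    rwa [e1, e2, e3] at this
  -- all transversal triples
  have trans : ∀ {a b c : Ω}, π a ≠ π b → π a ≠ π c → π b ≠ π c → c3 a b c ∈ Γ := by
    intro a b c hab hac hbc
    obtain ⟨d, hd⟩ := fresh {π p, π q, π r, π a, π b, π c} (Finset.card_le_six.trans (by norm_num))
    obtain ⟨e, he⟩ := fresh (insert (π d) {π p, π q, π r, π a, π b, π c})
      ((Finset.card_insert_le _ _).trans (by have := Finset.card_le_six (a := π p) (b := π q) (c := π r) (d := π a) (e := π b) (f := π c); omega))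
    obtain ⟨f, hf⟩ := fresh (insert (π e) (insert (π d) {π p, π q, π r, π a, π b, π c}))
      ((Finset.card_insert_le _ _).trans (by
        have h1 := Finset.card_le_six (a := π p) (b := π q) (c := π r) (d := π a) (e := π b) (f := π c)
        have h2 := Finset.card_insert_le (π d) {π p, π q, π r, π a, π b, π c}
        omega))
    simp only [Finset.mem_insert, Finset.mem_singleton, not_or] at hd he hf
    obtain ⟨d1, d2, d3, d4, d5, d6⟩ := hd
    obtain ⟨e0, e1, e2, e3, e4, e5, e6⟩ := he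
    obtain ⟨f00, f0, f1, f2, f3, f4, f5, f6⟩ := hf
    have s1 : c3 d q r ∈ Γ := rep hpq hpr d2 d3 h3
    have s2 : c3 q r d ∈ Γ := rot (hne d2) (hne d3) (hne hqr) s1
    have s3 : c3 e r d ∈ Γ := rep hqr (Ne.symm d2) e3 e0 s2
    have s4 : c3 r d e ∈ Γ := rot (hne e3) (hne e0) (hne (Ne.symm d3)) s3
    have s5 : c3 f d e ∈ Γ := rep (Ne.symm d3) (Ne.symm e3) f0 f00 s4
    have s6 : c3 a d e ∈ Γ := rep f0 f00 (Ne.symm d4) (Ne.symm e4) s5
    have s7 : c3 d e a ∈ Γ := rot (hne (Ne.symm d4)) (hne (Ne.symm e4)) (hne (Ne.symm e0)) s6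
    have s8 : c3 b e a ∈ Γ := rep (Ne.symm e0) d4 (Ne.symm e5) (Ne.symm hab) s7
    have s9 : c3 e a b ∈ Γ := rot (hne (Ne.symm e5)) (hne (Ne.symm hab)) (hne e4) s8
    have s10 : c3 c a b ∈ Γ := rep e4 e5 (Ne.symm hac) (Ne.symm hbc) s9
    exact rot (hne (Ne.symm hac)) (hne (Ne.symm hbc)) (hne hab) s10
  -- two points in a fibre
  have two : ∀ {a b d : Ω}, a ≠ b → π a ≠ π d → π b ≠ π d → c3 a b d ∈ Γ := by
    intro a b d hab had hbd
    by_cases hpab : π a = π b
    · obtain ⟨e, he⟩ := fresh {π a, π d} (Finset.card_le_two.trans (by norm_num))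
      obtain ⟨f, hf⟩ := fresh {π a, π d, π e} (Finset.card_le_three.trans (by norm_num))
      simp only [Finset.mem_insert, Finset.mem_singleton, not_or] at he hf
      have g1 : c3 e b f ∈ Γ := trans (by rw [← hpab]; exact he.1) (Ne.symm hf.2.2) (by rw [← hpab]; exact Ne.symm hf.1)
      have g2 : c3 a e d ∈ Γ := trans (Ne.symm he.1) had he.2
      have g3 := conj g1 g2
      rw [c3_fix (hne (Ne.symm he.1)) hab (hne (Ne.symm hf.1)), c3_1 (hne (by rw [← hpab]; exact he.1)) (hne (Ne.symm hf.2.2)),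
        c3_fix (hne (Ne.symm he.2)) (hne (Ne.symm hbd)) (hne (Ne.symm hf.2.1))] at g3
      exact g3
    · exact trans hpab had hbd
  apply alt_le_of_c3
  intro a b c hab hac hbc
  obtain ⟨d, hd⟩ := fresh {π a, π b, π c} (Finset.card_le_three.trans (by norm_num))
  obtain ⟨f, hf⟩ := fresh {π a, π b, π c, π d} (Finset.card_le_four.trans (by norm_num))
  simp only [Finset.mem_insert, Finset.mem_singleton, not_or] at hd hf
  have g1 : c3 d c f ∈ Γ := trans hd.2.2 (Ne.symm hf.2.2.2) (Ne.symm hf.2.2.1)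
  have g2 : c3 a b d ∈ Γ := two hab (Ne.symm hd.1) (Ne.symm hd.2.1)
  have g3 := conj g1 g2
  rw [c3_fix (hne (Ne.symm hd.1)) hac (hne (Ne.symm hf.1)), c3_fix (hne (Ne.symm hd.2.1)) hbc (hne (Ne.symm hf.2.1)),
    c3_1 (hne hd.2.2) (hne (Ne.symm hf.2.2.2))] at g3
  exact g3

end Pool.Agent.Helper889.Si
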