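import Mathlib

set_option autoImplicit false
set_option linter.unusedSectionVars false

namespace Pool.Agent.Helper889.Si

/-- the data of a directed group -/
structure Sys where
  X : ℕ → Type
  fin : ∀ i, Fintype (X i)
  dec : ∀ i, DecidableEq (X i)
  o : ∀ i, X i
  H : Type
  grp : Group H
  ρ : ∀ k, H →* Equiv.Perm (X k × X (k+1))
  ρo : ∀ k h y, ρ k h (o k, y) = (o k, y)

attribute [instance] Sys.fin Sys.dec Sys.grp

variable (S : Sys)

/-- the Cantor set -/
abbrev Sys.Bd : Type := (i : ℕ) → S.X i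

/-- words of length `n` -/
abbrev Sys.V (n : ℕ) : Type := (i : Fin n) → S.X i

/-- the first non-`o` letter at a place `≥ n` is at place `k` -/
def Sys.Sg (n k : ℕ) (x : S.Bd) : Prop := n ≤ k ∧ x k ≠ S.o k ∧ ∀ j, n ≤ j → j < k → x j = S.o j

open Classical in
/-- directed action -/
noncomputable def Sys.dirPt (n : ℕ) (h : S.H) (x : S.Bd) : S.Bd
  | 0 => if S.Sg n 0 x then (S.ρ 0 h (x 0, x 1)).1 else x 0
  | (j+1) => if S.Sg n (j+1) x then (S.ρ (j+1) h (x (j+1), x (j+2))).1
      else if S.Sg n j x then (S.ρ j h (x j, x (j+1))).2 else x (j+1)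

variable {S}

theorem Sg_unique {n k k' : ℕ} {x : S.Bd} (h : S.Sg n k x) (h' : S.Sg n k' x) : k = k' := by
  rcases lt_trichotomy k k' with hlt | rfl | hlt
  · exact absurd (h'.2.2 k h.1 hlt) h.2.1
  · rfl
  · exact absurd (h.2.2 k' h'.1 hlt) h'.2.1

theorem ρ_ne {k : ℕ} (h : S.H) {x : S.X k} (hx : x ≠ S.o k) (y : S.X (k+1)) : (S.ρ k h (x, y)).1 ≠ S.o k := by
  intro hc
  have h1 : S.ρ k h (x, y) = S.ρ k h (S.o k, (S.ρ k h (x, y)).2) := by
    rw [S.ρo]; exact Prod.ext hc rfl
  have h2 := (S.ρ k h).injective h1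
  exact hx (congrArg Prod.fst h2)

theorem dirPt_fst {n k : ℕ} (h : S.H) {x : S.Bd} (hs : S.Sg n k x) :
    S.dirPt n h x k = (S.ρ k h (x k, x (k+1))).1 := by
  cases k with
  | zero => simp only [Sys.dirPt, if_pos hs]
  | succ j => simp only [Sys.dirPt, if_pos hs]

theorem dirPt_snd {n k : ℕ} (h : S.H) {x : S.Bd} (hs : S.Sg n k x) :
    S.dirPt n h x (k+1) = (S.ρ k h (x k, x (k+1))).2 := by
  have h1 : ¬ S.Sg n (k+1) x := fun hc => by have := Sg_unique hs hc; omega
  simp only [Sys.dirPt, if_neg h1, if_pos hs]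

theorem dirPt_oth {n i : ℕ} (h : S.H) {x : S.Bd} (hs : ∀ k, S.Sg n k x → i ≠ k ∧ i ≠ k + 1) :
    S.dirPt n h x i = x i := by
  cases i with
  | zero =>
    have h1 : ¬ S.Sg n 0 x := fun hc => (hs 0 hc).1 rfl
    simp only [Sys.dirPt, if_neg h1]
  | succ j =>
    have h1 : ¬ S.Sg n (j+1) x := fun hc => (hs _ hc).1 rfl
    have h2 : ¬ S.Sg n j x := fun hc => (hs _ hc).2 rfl
    simp only [Sys.dirPt, if_neg h1, if_neg h2]

theorem dirPt_other {n k i : ℕ} (h : S.H) {x : S.Bd} (hs : S.Sg n k x) (h1 : i ≠ k) (h2 : i ≠ k + 1) :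
    S.dirPt n h x i = x i :=
  dirPt_oth h fun k' hs' => by rw [← Sg_unique hs hs']; exact ⟨h1, h2⟩

theorem dirPt_none {n : ℕ} (h : S.H) {x : S.Bd} (hs : ∀ k, ¬ S.Sg n k x) : S.dirPt n h x = x := by
  funext i
  exact dirPt_oth h fun k hk => absurd hk (hs k)

theorem dirPt_lt {n : ℕ} (h : S.H) (x : S.Bd) {i : ℕ} (hi : i < n) : S.dirPt n h x i = x i :=
  dirPt_oth h fun k hk => by have := hk.1; omega

theorem dirPt_one (n : ℕ) (x : S.Bd) : S.dirPt n 1 x = x := by
  by_cases he : ∃ k, S.Sg n k x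
  · obtain ⟨k, hk⟩ := he
    funext i
    by_cases h1 : i = k
    · subst h1; rw [dirPt_fst _ hk, map_one]; rfl
    · by_cases h2 : i = k + 1
      · subst h2; rw [dirPt_snd _ hk, map_one]; rfl
      · exact dirPt_other _ hk h1 h2
  · push Not at he
    exact dirPt_none _ he

theorem Sg_congr {n k : ℕ} {x y : S.Bd} (h : ∀ j, n ≤ j → j ≤ k → x j = y j) : S.Sg n k x ↔ S.Sg n k y := by
  constructor
  · rintro ⟨h1, h2, h3⟩
    exact ⟨h1, by rw [← h k h1 le_rfl]; exact h2, fun j hj hk => by rw [← h j hj hk.le]; exact h3 j hj hk⟩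
  · rintro ⟨h1, h2, h3⟩
    exact ⟨h1, by rw [h k h1 le_rfl]; exact h2, fun j hj hk => by rw [h j hj hk.le]; exact h3 j hj hk⟩

theorem Sg_dirPt {n k : ℕ} (h : S.H) (x : S.Bd) : S.Sg n k (S.dirPt n h x) ↔ S.Sg n k x := by
  have key : ∀ k, S.Sg n k x → S.Sg n k (S.dirPt n h x) := fun k hs =>
    ⟨hs.1, by rw [dirPt_fst h hs]; exact ρ_ne h hs.2.1 _, fun j h1 h2 => by
      rw [dirPt_other h hs (by omega) (by omega)]; exact hs.2.2 j h1 h2⟩
  constructor
  · intro hs
    by_cases he : ∃ k', S.Sg n k' x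
    · obtain ⟨k', hk'⟩ := he
      rw [Sg_unique hs (key k' hk')]
      exact hk'
    · push Not at he
      rwa [dirPt_none h he] at hs
  · exact key k

theorem dirPt_mul (n : ℕ) (h h' : S.H) (x : S.Bd) : S.dirPt n h (S.dirPt n h' x) = S.dirPt n (h * h') x := by
  by_cases he : ∃ k, S.Sg n k x
  · obtain ⟨k, hk⟩ := he
    have hk' := (Sg_dirPt h' x).2 hk
    have e : (S.dirPt n h' x k, S.dirPt n h' x (k+1)) = S.ρ k h' (x k, x (k+1)) := by
      rw [dirPt_fst h' hk, dirPt_snd h' hk]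
    funext i
    by_cases h1 : i = k
    · subst h1; rw [dirPt_fst _ hk', e, dirPt_fst _ hk, map_mul]; rfl
    · by_cases h2 : i = k + 1
      · subst h2; rw [dirPt_snd _ hk', e, dirPt_snd _ hk, map_mul]; rfl
      · rw [dirPt_other _ hk' h1 h2, dirPt_other _ hk h1 h2, dirPt_other _ hk h1 h2]
  · push Not at he
    rw [dirPt_none h' he, dirPt_none h he, dirPt_none _ he]

/-- the coordinates `≥ n` of `dirPt n h x` depend only on the coordinates `≥ n` of `x` -/
theorem dirPt_congr {n : ℕ} (h : S.H) {x y : S.Bd} (hxy : ∀ j, n ≤ j → x j = y j) {i : ℕ} (hi : n ≤ i) :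
    S.dirPt n h x i = S.dirPt n h y i := by
  have hS : ∀ k, S.Sg n k x ↔ S.Sg n k y := fun k => Sg_congr fun j h1 _ => hxy j h1
  by_cases he : ∃ k, S.Sg n k x
  · obtain ⟨k, hk⟩ := he
    have hk' := (hS k).1 hk
    by_cases h1 : i = k
    · subst h1; rw [dirPt_fst _ hk, dirPt_fst _ hk', hxy _ hk.1, hxy _ (by omega)]
    · by_cases h2 : i = k + 1
      · subst h2; rw [dirPt_snd _ hk, dirPt_snd _ hk', hxy _ hk.1, hxy _ (by omega)]
      · rw [dirPt_other _ hk h1 h2, dirPt_other _ hk' h1 h2, hxy i hi]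
  · push Not at he
    rw [dirPt_none h he, dirPt_none h (fun k hk => he k ((hS k).2 hk)), hxy i hi]

/-- prefixes -/
def pre (n : ℕ) (x : S.Bd) : S.V n := fun i => x i

theorem pre_eq_iff {n : ℕ} {x y : S.Bd} : pre n x = pre n y ↔ ∀ i < n, x i = y i := by
  constructor
  · intro h i hi
    exact congrFun h ⟨i, hi⟩
  · intro h; funext i; exact h i i.2

theorem pre_mono {n m : ℕ} (hnm : n ≤ m) {x y : S.Bd} (h : pre m x = pre m y) : pre n x = pre n y := by
  rw [pre_eq_iff] at h ⊢
  exact fun i hi => h i (by omega)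

theorem pre_dirPt (n : ℕ) (h : S.H) (x : S.Bd) : pre n (S.dirPt n h x) = pre n x := by
  funext i
  exact dirPt_lt h x i.2

/-- extension of a word by `o` -/
def up (n : ℕ) (v : S.V n) : S.Bd := fun i => if hi : i < n then v ⟨i, hi⟩ else S.o i

theorem pre_up (n : ℕ) (v : S.V n) : pre n (up n v) = v := by
  funext i; simp [pre, up]

theorem up_ge {n : ℕ} (v : S.V n) {i : ℕ} (hi : n ≤ i) : up n v i = S.o i := by
  unfold up; rw [dif_neg (by omega)]

theorem up_lt {n : ℕ} (v : S.V n) {i : ℕ} (hi : i < n) : up n v i = v ⟨i, hi⟩ := by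
  unfold up; rw [dif_pos hi]

/-- the word `o^n` -/
def ow (n : ℕ) : S.V n := fun i => S.o i

/-- base point -/
def oo : S.Bd := fun i => S.o i

theorem pre_oo (n : ℕ) : pre n (oo (S := S)) = ow n := rfl

/-- elements of the base group of level `n` -/
noncomputable def DD (n : ℕ) : (S.V n → S.H) →* Equiv.Perm S.Bd where
  toFun := fun φ =>
    { toFun := fun x => S.dirPt n (φ (pre n x)) x
      invFun := fun x => S.dirPt n (φ (pre n x))⁻¹ x
      left_inv := fun x => by
        show S.dirPt n (φ (pre n (S.dirPt n (φ (pre n x)) x)))⁻¹ (S.dirPt n (φ (pre n x)) x) = x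
        rw [pre_dirPt, dirPt_mul, inv_mul_cancel, dirPt_one]
      right_inv := fun x => by
        show S.dirPt n (φ (pre n (S.dirPt n (φ (pre n x))⁻¹ x))) (S.dirPt n (φ (pre n x))⁻¹ x) = x
        rw [pre_dirPt, dirPt_mul, mul_inv_cancel, dirPt_one] }
  map_one' := by
    ext x : 1
    show S.dirPt n 1 x = x
    rw [dirPt_one]
  map_mul' := fun φ ψ => by
    ext x : 1
    show S.dirPt n (φ (pre n x) * ψ (pre n x)) x = S.dirPt n (φ (pre n (S.dirPt n (ψ (pre n x)) x))) (S.dirPt n (ψ (pre n x)) x)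
    rw [pre_dirPt, dirPt_mul]

theorem DD_apply (n : ℕ) (φ : S.V n → S.H) (x : S.Bd) : DD n φ x = S.dirPt n (φ (pre n x)) x := rfl

theorem DD_triv {n : ℕ} {φ : S.V n → S.H} {x : S.Bd} (h : φ (pre n x) = 1) : DD n φ x = x := by
  rw [DD_apply, h, dirPt_one]

theorem pre_DD (n : ℕ) (φ : S.V n → S.H) (x : S.Bd) : pre n (DD n φ x) = pre n x := by
  rw [DD_apply, pre_dirPt]

/-- permutations of the first `n` letters -/
noncomputable def ext (n : ℕ) : Equiv.Perm (S.V n) →* Equiv.Perm S.Bd where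
  toFun := fun f =>
    { toFun := fun x i => if hi : i < n then f (pre n x) ⟨i, hi⟩ else x i
      invFun := fun x i => if hi : i < n then f.symm (pre n x) ⟨i, hi⟩ else x i
      left_inv := fun x => by
        funext i
        have h1 : pre n (fun i => if hi : i < n then f (pre n x) ⟨i, hi⟩ else x i : S.Bd) = f (pre n x) := by
          funext j
          simp [pre]
        by_cases hi : i < n
        · simp only [hi, dif_pos, h1, Equiv.symm_apply_apply]; rfl
        · simp only [hi, dif_neg, not_false_eq_true]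
      right_inv := fun x => by
        funext i
        have h1 : pre n (fun i => if hi : i < n then f.symm (pre n x) ⟨i, hi⟩ else x i : S.Bd) = f.symm (pre n x) := by
          funext j
          simp [pre]
        by_cases hi : i < n
        · simp only [hi, dif_pos, h1, Equiv.apply_symm_apply]; rfl
        · simp only [hi, dif_neg, not_false_eq_true] }
  map_one' := by
    ext x : 1
    funext i
    show (if hi : i < n then (1 : Equiv.Perm (S.V n)) (pre n x) ⟨i, hi⟩ else x i) = x i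
    split_ifs <;> rfl
  map_mul' := fun f g => by
    ext x : 1
    have h1 : pre n (fun i => if hi : i < n then g (pre n x) ⟨i, hi⟩ else x i : S.Bd) = g (pre n x) := by
      funext j
      simp [pre]
    funext i
    show (if hi : i < n then (f * g) (pre n x) ⟨i, hi⟩ else x i)
      = if hi : i < n then f (pre n (fun i => if hi : i < n then g (pre n x) ⟨i, hi⟩ else x i : S.Bd)) ⟨i, hi⟩
          else (if hi : i < n then g (pre n x) ⟨i, hi⟩ else x i)
    rw [h1]
    by_cases hi : i < n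
    · rw [dif_pos hi, dif_pos hi]; rfl
    · rw [dif_neg hi, dif_neg hi, dif_neg hi]

theorem ext_lt {n : ℕ} (f : Equiv.Perm (S.V n)) (x : S.Bd) {i : ℕ} (hi : i < n) :
    ext n f x i = f (pre n x) ⟨i, hi⟩ := dif_pos hi

theorem ext_ge {n : ℕ} (f : Equiv.Perm (S.V n)) (x : S.Bd) {i : ℕ} (hi : n ≤ i) :
    ext n f x i = x i := dif_neg (by omega)

theorem pre_ext (n : ℕ) (f : Equiv.Perm (S.V n)) (x : S.Bd) : pre n (ext n f x) = f (pre n x) := by
  funext i
  exact ext_lt f x i.2

theorem ext_inj (n : ℕ) : Function.Injective (ext (S := S) n) := by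
  intro f g h
  ext1 v
  rw [← pre_up n v, ← pre_ext, ← pre_ext, h]

theorem eq_of_pre_of_ge {n : ℕ} {x y : S.Bd} (h1 : pre n x = pre n y) (h2 : ∀ i, n ≤ i → x i = y i) : x = y := by
  funext i
  by_cases hi : i < n
  · exact pre_eq_iff.1 h1 i hi
  · exact h2 i (by omega)

/-- characterisation of the elements `ext n f` -/
theorem exists_ext (n : ℕ) (g : Equiv.Perm S.Bd) (h1 : ∀ x i, n ≤ i → g x i = x i)
    (h2 : ∀ x y, pre n x = pre n y → pre n (g x) = pre n (g y)) : ∃ f, g = ext n f := by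
  have hinj : Function.Injective (fun v : S.V n => pre n (g (up n v))) := by
    intro v v' h
    have : g (up n v) = g (up n v') := eq_of_pre_of_ge h fun i hi => by
      rw [h1 _ i hi, h1 _ i hi, up_ge v hi, up_ge v' hi]
    rw [← pre_up n v, g.injective this, pre_up]
  refine ⟨Equiv.ofBijective _ (Finite.injective_iff_bijective.1 hinj), ?_⟩
  ext x : 1
  refine eq_of_pre_of_ge (n := n) ?_ fun i hi => ?_
  · rw [pre_ext]
    exact h2 _ _ (pre_up n _).symm
  · rw [h1 x i hi, ext_ge _ _ hi]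

theorem ext_le {n m : ℕ} (hnm : n ≤ m) (f : Equiv.Perm (S.V n)) : ∃ g : Equiv.Perm (S.V m), ext n f = ext m g := by
  refine exists_ext m _ (fun x i hi => ext_ge _ _ (by omega)) fun x y h => ?_
  have h' := pre_mono hnm h
  rw [pre_eq_iff] at h ⊢
  intro i hi
  by_cases hin : i < n
  · rw [ext_lt _ _ hin, ext_lt _ _ hin, h']
  · rw [ext_ge _ _ (by omega), ext_ge _ _ (by omega), h i hi]

/-- `ext n f` normalises the base group -/
theorem ext_DD (n : ℕ) (f : Equiv.Perm (S.V n)) (φ : S.V n → S.H) :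
    ext n f * DD n φ = DD n (φ ∘ f.symm) * ext n f := by
  ext x : 1
  rw [Equiv.Perm.mul_apply, Equiv.Perm.mul_apply]
  refine eq_of_pre_of_ge (n := n) ?_ fun i hi => ?_
  · rw [pre_ext, pre_DD, pre_DD, pre_ext]
  · rw [ext_ge _ _ hi, DD_apply, DD_apply, pre_ext]
    simp only [Function.comp, Equiv.symm_apply_apply]
    exact dirPt_congr _ (fun j hj => (ext_ge _ _ hj).symm) hi

theorem dirPt_shift {n : ℕ} (h : S.H) {z : S.Bd} (hz : z n = S.o n) : S.dirPt n h z = S.dirPt (n+1) h z := by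
  have hS : ∀ k, S.Sg n k z ↔ S.Sg (n+1) k z := by
    intro k
    constructor
    · rintro ⟨h1, h2, h3⟩
      refine ⟨?_, h2, fun j hj hk => h3 j (by omega) hk⟩
      by_contra hcon
      have : k = n := by omega
      subst this
      exact h2 hz
    · rintro ⟨h1, h2, h3⟩
      refine ⟨by omega, h2, fun j hj hk => ?_⟩
      by_cases hjn : j = n
      · subst hjn; exact hz
      · exact h3 j (by omega) hk
  by_cases he : ∃ k, S.Sg n k z
  · obtain ⟨k, hk⟩ := he
    have hk' := (hS k).1 hk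
    funext i
    by_cases h1 : i = k
    · subst h1; rw [dirPt_fst _ hk, dirPt_fst _ hk']
    · by_cases h2 : i = k + 1
      · subst h2; rw [dirPt_snd _ hk, dirPt_snd _ hk']
      · rw [dirPt_other _ hk h1 h2, dirPt_other _ hk' h1 h2]
  · push Not at he
    rw [dirPt_none h he, dirPt_none h (fun k hk => he k ((hS k).2 hk))]

theorem dirPt_zero_of_pre {n : ℕ} {x : S.Bd} (hx : pre n x = ow n) (h : S.H) : S.dirPt 0 h x = S.dirPt n h x := by
  induction n with
  | zero => rfl
  | succ n ih =>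
    have h1 : pre n x = ow n := by funext i; exact congrFun hx ⟨i, by omega⟩
    have h2 : x n = S.o n := congrFun hx ⟨n, by omega⟩
    rw [ih h1, dirPt_shift h h2]

/-- the letter of place `n` stays different from `o` -/
theorem dirPt_ne_iff (n : ℕ) (h : S.H) (x : S.Bd) : S.dirPt n h x n ≠ S.o n ↔ x n ≠ S.o n := by
  have hS : S.Sg n n x ↔ x n ≠ S.o n := ⟨fun hs => hs.2.1, fun hx => ⟨le_rfl, hx, fun j h1 h2 => by omega⟩⟩
  have hS' : S.Sg n n (S.dirPt n h x) ↔ S.dirPt n h x n ≠ S.o n :=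
    ⟨fun hs => hs.2.1, fun hx => ⟨le_rfl, hx, fun j h1 h2 => by omega⟩⟩
  rw [← hS, ← hS', Sg_dirPt]

/-- the part of `DD n φ` of finite depth -/
noncomputable def rr (n : ℕ) : (S.V n → S.H) →* Equiv.Perm S.Bd where
  toFun := fun φ =>
    { toFun := fun x => if x n ≠ S.o n then S.dirPt n (φ (pre n x)) x else x
      invFun := fun x => if x n ≠ S.o n then S.dirPt n (φ (pre n x))⁻¹ x else x
      left_inv := fun x => by
        by_cases hx : x n ≠ S.o n
        · simp only [if_pos hx, if_pos ((dirPt_ne_iff n _ x).2 hx)]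
          rw [pre_dirPt, dirPt_mul, inv_mul_cancel, dirPt_one]
        · simp only [if_neg hx]
      right_inv := fun x => by
        by_cases hx : x n ≠ S.o n
        · simp only [if_pos hx, if_pos ((dirPt_ne_iff n _ x).2 hx)]
          rw [pre_dirPt, dirPt_mul, mul_inv_cancel, dirPt_one]
        · simp only [if_neg hx] }
  map_one' := by
    ext x : 1
    show (if x n ≠ S.o n then S.dirPt n 1 x else x) = x
    rw [dirPt_one]; simp
  map_mul' := fun φ ψ => by
    ext x : 1
    show (if x n ≠ S.o n then S.dirPt n (φ (pre n x) * ψ (pre n x)) x else x)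
      = if (if x n ≠ S.o n then S.dirPt n (ψ (pre n x)) x else x) n ≠ S.o n
          then S.dirPt n (φ (pre n (if x n ≠ S.o n then S.dirPt n (ψ (pre n x)) x else x)))
            (if x n ≠ S.o n then S.dirPt n (ψ (pre n x)) x else x)
          else (if x n ≠ S.o n then S.dirPt n (ψ (pre n x)) x else x)
    by_cases hx : x n ≠ S.o n
    · simp only [if_pos hx, if_pos ((dirPt_ne_iff n _ x).2 hx)]
      rw [pre_dirPt, dirPt_mul]
    · simp only [if_neg hx]

theorem rr_apply (n : ℕ) (φ : S.V n → S.H) (x : S.Bd) :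
    rr n φ x = if x n ≠ S.o n then S.dirPt n (φ (pre n x)) x else x := rfl

theorem rr_pos {n : ℕ} (φ : S.V n → S.H) {x : S.Bd} (hx : x n ≠ S.o n) : rr n φ x = S.dirPt n (φ (pre n x)) x := by
  rw [rr_apply, if_pos hx]

theorem rr_neg {n : ℕ} (φ : S.V n → S.H) {x : S.Bd} (hx : x n = S.o n) : rr n φ x = x := by
  rw [rr_apply, if_neg (by simpa using hx)]

theorem rr_triv {n : ℕ} {φ : S.V n → S.H} {x : S.Bd} (h : φ (pre n x) = 1) : rr n φ x = x := by
  rw [rr_apply, h, dirPt_one]; simp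

theorem pre_rr (n : ℕ) (φ : S.V n → S.H) (x : S.Bd) : pre n (rr n φ x) = pre n x := by
  rw [rr_apply]
  split_ifs
  · rw [pre_dirPt]
  · rfl

theorem rr_ne_iff (n : ℕ) (φ : S.V n → S.H) (x : S.Bd) : rr n φ x n ≠ S.o n ↔ x n ≠ S.o n := by
  rw [rr_apply]
  by_cases hx : x n ≠ S.o n
  · rw [if_pos hx, dirPt_ne_iff]
  · rw [if_neg hx]

/-- `rr n φ` has depth `n + 2` -/
theorem rr_ext (n : ℕ) (φ : S.V n → S.H) : ∃ f : Equiv.Perm (S.V (n+2)), rr n φ = ext (n+2) f := by
  have hS : ∀ x : S.Bd, x n ≠ S.o n → S.Sg n n x := fun x hx => ⟨le_rfl, hx, fun j h1 h2 => by omega⟩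
  refine exists_ext (n+2) _ (fun x i hi => ?_) fun x y h => ?_
  · by_cases hx : x n ≠ S.o n
    · rw [rr_pos φ hx, dirPt_other _ (hS x hx) (by omega) (by omega)]
    · rw [rr_neg φ (by simpa using hx)]
  · have hn : x n = y n := pre_eq_iff.1 h n (by omega)
    have hn1 : x (n+1) = y (n+1) := pre_eq_iff.1 h (n+1) (by omega)
    have hp : pre n x = pre n y := pre_mono (by omega) h
    by_cases hx : x n ≠ S.o n
    · have hy : y n ≠ S.o n := by rw [← hn]; exact hx
      rw [rr_pos φ hx, rr_pos φ hy, pre_eq_iff, hp]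
      intro i hi
      by_cases h1 : i = n
      · subst h1; rw [dirPt_fst _ (hS x hx), dirPt_fst _ (hS y hy), hn, hn1]
      · by_cases h2 : i = n + 1
        · subst h2; rw [dirPt_snd _ (hS x hx), dirPt_snd _ (hS y hy), hn, hn1]
        · rw [dirPt_other _ (hS x hx) h1 h2, dirPt_other _ (hS y hy) h1 h2]
          exact pre_eq_iff.1 h i hi
    · rw [rr_neg φ (by simpa using hx), rr_neg φ (by rw [← hn]; simpa using hx), h]

/-- restriction of words -/
def res (n : ℕ) (w : S.V (n+1)) : S.V n := fun i => w i.castSucc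

theorem res_pre (n : ℕ) (x : S.Bd) : res n (pre (n+1) x) = pre n x := rfl

/-- lifting functions to the next level -/
def lf (n : ℕ) : (S.V n → S.H) →* (S.V (n+1) → S.H) where
  toFun := fun φ w => if w (Fin.last n) = S.o n then φ (res n w) else 1
  map_one' := by funext w; simp
  map_mul' := fun φ ψ => by
    funext w
    simp only [Pi.mul_apply]
    split_ifs <;> simp

theorem lf_apply (n : ℕ) (φ : S.V n → S.H) (w : S.V (n+1)) :
    lf n φ w = if w (Fin.last n) = S.o n then φ (res n w) else 1 := rfl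

theorem lf_pre_pos {n : ℕ} (φ : S.V n → S.H) {x : S.Bd} (hx : x n = S.o n) : lf n φ (pre (n+1) x) = φ (pre n x) := by
  rw [lf_apply, if_pos (show pre (n+1) x (Fin.last n) = S.o n from hx), res_pre]

theorem lf_pre_neg {n : ℕ} (φ : S.V n → S.H) {x : S.Bd} (hx : x n ≠ S.o n) : lf n φ (pre (n+1) x) = 1 := by
  rw [lf_apply, if_neg (show ¬ pre (n+1) x (Fin.last n) = S.o n from hx)]

/-- splitting off the part of finite depth -/
theorem DD_split (n : ℕ) (φ : S.V n → S.H) : DD n φ = rr n φ * DD (n+1) (lf n φ) := by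
  ext x : 1
  rw [Equiv.Perm.mul_apply]
  by_cases hx : x n = S.o n
  · have h1 : (DD (n+1) (lf n φ) x) n = S.o n := by
      rw [DD_apply, dirPt_lt _ _ (by omega), hx]
    rw [rr_neg φ h1, DD_apply, DD_apply, lf_pre_pos φ hx, dirPt_shift _ hx]
  · rw [DD_triv (lf_pre_neg φ hx), rr_pos φ hx, DD_apply]

end Pool.Agent.Helper889.Si
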