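import Mathlib
import Pool.Agent.Helper889.Si.Mean

set_option autoImplicit false
set_option linter.unusedSectionVars false
set_option linter.unusedVariables false

namespace Pool.Agent.Helper889.Si

variable {S : Sys}

/-- the directed elements -/
noncomputable def Dz : S.H →* Equiv.Perm S.Bd where
  toFun := fun h => DD 0 (fun _ => h)
  map_one' := (DD (S := S) 0).map_one
  map_mul' := fun h h' => (DD (S := S) 0).map_mul (fun _ => h) (fun _ => h')

theorem Dz_apply (h : S.H) (x : S.Bd) : Dz h x = S.dirPt 0 h x := rfl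

open Classical in
/-- truncated directed elements -/
noncomputable def Tn (m : ℕ) : S.H →* Equiv.Perm S.Bd where
  toFun := fun h =>
    { toFun := fun x => if ∃ k, k < m ∧ S.Sg 0 k x then S.dirPt 0 h x else x
      invFun := fun x => if ∃ k, k < m ∧ S.Sg 0 k x then S.dirPt 0 h⁻¹ x else x
      left_inv := fun x => by
        by_cases hx : ∃ k, k < m ∧ S.Sg 0 k x
        · have hx' : ∃ k, k < m ∧ S.Sg 0 k (S.dirPt 0 h x) := by simpa only [Sg_dirPt] using hx
          simp only [if_pos hx, if_pos hx']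
          rw [dirPt_mul, inv_mul_cancel, dirPt_one]
        · simp only [if_neg hx]
      right_inv := fun x => by
        by_cases hx : ∃ k, k < m ∧ S.Sg 0 k x
        · have hx' : ∃ k, k < m ∧ S.Sg 0 k (S.dirPt 0 h⁻¹ x) := by simpa only [Sg_dirPt] using hx
          simp only [if_pos hx, if_pos hx']
          rw [dirPt_mul, mul_inv_cancel, dirPt_one]
        · simp only [if_neg hx] }
  map_one' := by
    ext x : 1
    show (if ∃ k, k < m ∧ S.Sg 0 k x then S.dirPt 0 1 x else x) = x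
    rw [dirPt_one]; simp
  map_mul' := fun h h' => by
    ext x : 1
    show (if ∃ k, k < m ∧ S.Sg 0 k x then S.dirPt 0 (h * h') x else x)
      = if ∃ k, k < m ∧ S.Sg 0 k (if ∃ k, k < m ∧ S.Sg 0 k x then S.dirPt 0 h' x else x)
        then S.dirPt 0 h (if ∃ k, k < m ∧ S.Sg 0 k x then S.dirPt 0 h' x else x)
        else (if ∃ k, k < m ∧ S.Sg 0 k x then S.dirPt 0 h' x else x)
    by_cases hx : ∃ k, k < m ∧ S.Sg 0 k x
    · have hx' : ∃ k, k < m ∧ S.Sg 0 k (S.dirPt 0 h' x) := by simpa only [Sg_dirPt] using hx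
      simp only [if_pos hx, if_pos hx']
      rw [dirPt_mul]
    · simp only [if_neg hx]

theorem Tn_pos {m k : ℕ} (h : S.H) {x : S.Bd} (hk : k < m) (hs : S.Sg 0 k x) : Tn m h x = S.dirPt 0 h x := by
  classical
  show (if ∃ k, k < m ∧ S.Sg 0 k x then S.dirPt 0 h x else x) = _
  rw [if_pos ⟨k, hk, hs⟩]

theorem Tn_neg {m : ℕ} (h : S.H) {x : S.Bd} (hs : ∀ k, k < m → ¬ S.Sg 0 k x) : Tn m h x = x := by
  classical
  show (if ∃ k, k < m ∧ S.Sg 0 k x then S.dirPt 0 h x else x) = _
  rw [if_neg]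
  rintro ⟨k, hk, hs'⟩
  exact hs k hk hs'

theorem Tn_ext (m : ℕ) (h : S.H) : ∃ f : Equiv.Perm (S.V (m+1)), Tn m h = ext (m+1) f := by
  refine exists_ext (m+1) _ (fun x i hi => ?_) fun x y hxy => ?_
  · by_cases he : ∃ k, k < m ∧ S.Sg 0 k x
    · obtain ⟨k, hk, hs⟩ := he
      rw [Tn_pos h hk hs, dirPt_other h hs (by omega) (by omega)]
    · push Not at he
      rw [Tn_neg h he]
  · have hS : ∀ k, k < m → (S.Sg 0 k x ↔ S.Sg 0 k y) := fun k hk =>
      Sg_congr fun j _ hj => pre_eq_iff.1 hxy j (by omega)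
    by_cases he : ∃ k, k < m ∧ S.Sg 0 k x
    · obtain ⟨k, hk, hs⟩ := he
      have hs' := (hS k hk).1 hs
      rw [Tn_pos h hk hs, Tn_pos h hk hs', pre_eq_iff]
      have e1 : x k = y k := pre_eq_iff.1 hxy k (by omega)
      have e2 : x (k+1) = y (k+1) := pre_eq_iff.1 hxy (k+1) (by omega)
      intro i hi
      by_cases h1 : i = k
      · subst h1; rw [dirPt_fst _ hs, dirPt_fst _ hs', e1, e2]
      · by_cases h2 : i = k + 1
        · subst h2; rw [dirPt_snd _ hs, dirPt_snd _ hs', e1, e2]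
        · rw [dirPt_other _ hs h1 h2, dirPt_other _ hs' h1 h2]
          exact pre_eq_iff.1 hxy i hi
    · push Not at he
      rw [Tn_neg h he, Tn_neg h (fun k hk hs => he k hk ((hS k hk).2 hs)), hxy]

theorem exists_Sg_of_pre {n : ℕ} {x : S.Bd} (hx : pre n x ≠ ow n) : ∃ k, k < n ∧ S.Sg 0 k x := by
  classical
  have : ∃ k, k < n ∧ x k ≠ S.o k := by
    by_contra hcon
    push Not at hcon
    exact hx (funext fun i => hcon i i.2)
  obtain ⟨h1, h2⟩ := Nat.find_spec this
  refine ⟨Nat.find this, h1, Nat.zero_le _, h2, fun j _ hj => ?_⟩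
  have := Nat.find_min this hj
  push Not at this
  exact this (by omega)

theorem not_Sg_of_pre {n k : ℕ} {x : S.Bd} (hx : pre n x = ow n) (hk : k < n) : ¬ S.Sg 0 k x :=
  fun hs => hs.2.1 (congrFun hx ⟨k, hk⟩)

theorem Dz_split (n : ℕ) (h : S.H) : Dz h = Tn n h * DD n (Pi.mulSingle (ow n) h) := by
  ext x : 1
  rw [Equiv.Perm.mul_apply, Dz_apply]
  by_cases hx : pre n x = ow n
  · have e : (Pi.mulSingle (ow n) h : S.V n → S.H) (pre n x) = h := by rw [hx, Pi.mulSingle_eq_same]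
    rw [DD_apply, e, Tn_neg, dirPt_zero_of_pre hx]
    intro k hk
    exact not_Sg_of_pre (by rw [pre_dirPt]; exact hx) hk
  · rw [DD_triv (Pi.mulSingle_eq_of_ne hx h)]
    obtain ⟨k, hk, hs⟩ := exists_Sg_of_pre hx
    rw [Tn_pos h hk hs]

theorem Tn_succ (n : ℕ) (h : S.H) : Tn (n+1) h = Tn n h * rr n (Pi.mulSingle (ow n) h) := by
  ext x : 1
  rw [Equiv.Perm.mul_apply]
  by_cases hx : pre n x = ow n
  · have e : (Pi.mulSingle (ow n) h : S.V n → S.H) (pre n x) = h := by rw [hx, Pi.mulSingle_eq_same]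
    by_cases hxn : x n = S.o n
    · rw [rr_neg _ hxn, Tn_neg h, Tn_neg h]
      · intro k hk; exact not_Sg_of_pre hx hk
      · intro k hk hs
        rcases (Nat.lt_succ_iff.1 hk).lt_or_eq with hlt | heq
        · exact not_Sg_of_pre hx hlt hs
        · subst heq; exact hs.2.1 hxn
    · have hs : S.Sg 0 n x := ⟨Nat.zero_le _, hxn, fun j _ hj => congrFun hx ⟨j, hj⟩⟩
      rw [rr_pos _ hxn, e, Tn_pos h (Nat.lt_succ_self n) hs, dirPt_zero_of_pre hx, Tn_neg]
      intro k hk
      exact not_Sg_of_pre (by rw [pre_dirPt]; exact hx) hk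
  · rw [rr_triv (Pi.mulSingle_eq_of_ne hx h)]
    obtain ⟨k, hk, hs⟩ := exists_Sg_of_pre hx
    rw [Tn_pos h hk hs, Tn_pos h (by omega) hs]

/-- elements of disjoint support commute -/
theorem comm_rr_DD (m : ℕ) (ψ : S.V m → S.H) (φ : S.V (m+1) → S.H)
    (h : ∀ w : S.V (m+1), w (Fin.last m) ≠ S.o m → ψ (res m w) ≠ 1 → φ w = 1) :
    rr m ψ * DD (m+1) φ = DD (m+1) φ * rr m ψ := by
  ext x : 1
  rw [Equiv.Perm.mul_apply, Equiv.Perm.mul_apply]
  by_cases hx : x m ≠ S.o m ∧ ψ (pre m x) ≠ 1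
  · have h1 : φ (pre (m+1) x) = 1 := h _ hx.1 hx.2
    have h2 : φ (pre (m+1) (rr m ψ x)) = 1 := h _ ((rr_ne_iff m ψ x).2 hx.1) (by
      rw [res_pre, pre_rr]; exact hx.2)
    rw [DD_triv h1, DD_triv h2]
  · have e1 : ∀ y : S.Bd, pre (m+1) y = pre (m+1) x → rr m ψ y = y := by
      intro y hy
      have hym : y m = x m := pre_eq_iff.1 hy m (by omega)
      have hyp : pre m y = pre m x := pre_mono (by omega) hy
      by_cases hxm : x m = S.o m
      · exact rr_neg _ (by rw [hym, hxm])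
      · have : ψ (pre m x) = 1 := by
          by_contra hcon
          exact hx ⟨hxm, hcon⟩
        exact rr_triv (by rw [hyp, this])
    rw [e1 x rfl, e1 _ (pre_DD _ _ _)]

theorem GP_Dz (m : ℕ) (h : S.H) : ∃ σ τ, GP (m+1) (Dz h) h σ τ ∧ ext (m+1) σ = Tn m h := by
  obtain ⟨σ, hσ⟩ := Tn_ext (S := S) m h
  obtain ⟨f, hf⟩ := rr_ext (S := S) m (Pi.mulSingle (ow m) h)
  -- the depth of the second factor is `m + 2`
  obtain ⟨σ', hσ'⟩ := ext_le (show m + 1 ≤ m + 2 by omega) σ
  refine ⟨σ, σ' * f, fun φ hφ => ?_, hσ.symm⟩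
  have e1 : Dz h = Tn m h * (rr m (Pi.mulSingle (ow m) h) * DD (m+1) (Pi.mulSingle (ow (m+1)) h)) := by
    rw [Dz_split (m+1) h, Tn_succ, mul_assoc]
  have e2 : rr m (Pi.mulSingle (ow m) h) * DD (m+1) (Pi.mulSingle (ow (m+1)) h * φ)
      = DD (m+1) (Pi.mulSingle (ow (m+1)) h * φ) * rr m (Pi.mulSingle (ow m) h) := by
    refine comm_rr_DD m _ _ fun w hw _ => ?_
    have h1 : w ≠ ow (m+1) := fun hc => hw (by rw [hc]; rfl)
    rw [Pi.mul_apply, Pi.mulSingle_eq_of_ne h1, one_mul]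
    exact hφ w (lev_last w hw)
  have hσo : σ (ow (m+1)) = ow (m+1) := by
    have : pre (m+1) (ext (m+1) σ (oo (S := S))) = σ (ow (m+1)) := by rw [pre_ext, pre_oo]
    rw [← this, ← hσ, Tn_neg, pre_oo]
    intro k _ hs
    exact hs.2.1 rfl
  have e3 : (Pi.mulSingle (ow (m+1)) h * φ) ∘ σ.symm = TT (m+1) h σ φ := by
    funext v
    simp only [Function.comp, Pi.mul_apply, TT]
    congr 1
    by_cases hv : v = ow (m+1)
    · have : σ.symm v = ow (m+1) := by rw [hv, Equiv.symm_apply_eq, hσo]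
      rw [this, Pi.mulSingle_eq_same, if_pos hv]
    · have : σ.symm v ≠ ow (m+1) := fun hc => hv (by rw [Equiv.symm_apply_eq, hσo] at hc; exact hc)
      rw [Pi.mulSingle_eq_of_ne this, if_neg hv]
  calc Dz h * DD (m+1) φ
      = Tn m h * (rr m (Pi.mulSingle (ow m) h) * DD (m+1) (Pi.mulSingle (ow (m+1)) h * φ)) := by
        rw [e1, mul_assoc, mul_assoc, ← map_mul]
    _ = (ext (m+1) σ * DD (m+1) (Pi.mulSingle (ow (m+1)) h * φ)) * ext (m+2) f := by
        rw [e2, hσ, hf, mul_assoc]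
    _ = DD (m+1) (TT (m+1) h σ φ) * (ext (m+1) σ * ext (m+2) f) := by
        rw [ext_DD, e3, mul_assoc]
    _ = DD (m+1) (TT (m+1) h σ φ) * ext (m+1+1) (σ' * f) := by
        rw [hσ', ← map_mul]

theorem GP_ext {M n : ℕ} (hMn : M ≤ n) (f : Equiv.Perm (S.V M)) :
    ∃ σ τ, GP n (ext M f) 1 σ τ ∧ ext n σ = ext M f := by
  obtain ⟨σ, hσ⟩ := ext_le hMn f
  obtain ⟨τ, hτ⟩ := ext_le (show n ≤ n + 1 by omega) σ
  refine ⟨σ, τ, fun φ _ => ?_, hσ.symm⟩
  have e : φ ∘ σ.symm = TT n 1 σ φ := by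
    funext v
    simp [TT]
  rw [hσ, ext_DD, e, hτ]

/-! ### counting -/

theorem lev_close {n : ℕ} (v w : S.V n) (k : ℕ) (h : ∀ i : Fin n, (i : ℕ) ≠ k → (i : ℕ) ≠ k + 1 → v i = w i)
    (h' : ∀ i : Fin n, (i : ℕ) = k → w i ≠ S.o i) : lev v ≤ lev w + 1 := by
  rw [lev_le_iff]
  intro i hi
  have hw := (lev_le_iff w (lev w)).1 le_rfl
  by_cases hij : (i : ℕ) = k
  · exfalso
    exact h' i hij (hw i (by omega))
  · by_cases hij1 : (i : ℕ) = k + 1
    · exfalso
      have hk : k < n := by have := i.2; omega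
      exact h' ⟨k, hk⟩ rfl (hw ⟨k, hk⟩ (by simp only; omega))
    · rw [h i hij hij1]
      exact hw i (by omega)

theorem lev_ne {n : ℕ} (v w : S.V n) (k : ℕ) (hkn : k + 1 < n)
    (h : ∀ i : Fin n, (i : ℕ) ≠ k → (i : ℕ) ≠ k + 1 → v i = w i)
    (hv' : ∀ i : Fin n, (i : ℕ) = k → v i ≠ S.o i) (hw' : ∀ i : Fin n, (i : ℕ) = k → w i ≠ S.o i) (hl : lev v ≠ lev w) :
    (∀ i : Fin n, k + 1 < i → v i = S.o i) ∧ (v ⟨k+1, hkn⟩ = S.o _ ∨ w ⟨k+1, hkn⟩ = S.o _) := by
  have hv := (lev_le_iff v (lev v)).1 le_rfl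
  have hw := (lev_le_iff w (lev w)).1 le_rfl
  have hk : k < n := by omega
  constructor
  · intro i hi
    by_contra hne
    apply hl
    have h1 : ¬ lev v ≤ i := fun hc => hne (hv i hc)
    have h2 : ¬ lev w ≤ i := fun hc => hne (by rw [h i (by omega) (by omega)]; exact hw i hc)
    refine le_antisymm ((lev_le_iff _ _).2 fun i' hi' => ?_) ((lev_le_iff _ _).2 fun i' hi' => ?_)
    · rw [h i' (by omega) (by omega)]; exact hw i' hi'
    · rw [← h i' (by omega) (by omega)]; exact hv i' hi'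
  · by_contra hcon
    push Not at hcon
    apply hl
    have h1 : ¬ lev v ≤ k + 1 := fun hc => hcon.1 (hv ⟨k+1, hkn⟩ hc)
    have h2 : ¬ lev w ≤ k + 1 := fun hc => hcon.2 (hw ⟨k+1, hkn⟩ hc)
    refine le_antisymm ((lev_le_iff _ _).2 fun i' hi' => ?_) ((lev_le_iff _ _).2 fun i' hi' => ?_)
    · rw [h i' (by omega) (by omega)]; exact hw i' hi'
    · rw [← h i' (by omega) (by omega)]; exact hv i' hi'

theorem count_Tn (T : ∀ k, Finset (S.X k)) {b : ℕ} (hT : ∀ k, (T k).card ≤ b)
    (hρ : ∀ k h x y, x ∉ T k → S.ρ k h (x, y) = (x, y)) (m : ℕ) (h : S.H) (σ : Equiv.Perm (S.V (m+1)))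
    (hσ : ext (m+1) σ = Tn m h) :
    ∑ v, ((lev (σ.symm v) : ℝ) - lev v) ^ 2 ≤ 2 * b * ((m+1 : ℕ) : ℝ) := by
  classical
  have hsymm : ∀ v, σ.symm v = pre (m+1) (Tn m h⁻¹ (up (m+1) v)) := by
    intro v
    rw [map_inv, ← hσ, ← map_inv, pre_ext, pre_up]
    rfl
  -- description of the changes
  have key : ∀ v : S.V (m+1), σ.symm v = v ∨ ∃ k, ∃ hk : k + 1 < m + 1,
      (∀ i : Fin (m+1), (i : ℕ) ≠ k → (i : ℕ) ≠ k + 1 → σ.symm v i = v i) ∧
      (∀ i : Fin (m+1), (i : ℕ) = k → v i ≠ S.o i) ∧ (∀ i : Fin (m+1), (i : ℕ) = k → σ.symm v i ≠ S.o i) ∧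
      (∀ i : Fin (m+1), (i : ℕ) < k → v i = S.o i) ∧
      v ⟨k, by omega⟩ ∈ T k ∧ σ.symm v ⟨k, by omega⟩ ∈ T k := by
    intro v
    by_cases he : ∃ k, k < m ∧ S.Sg 0 k (up (m+1) v)
    · obtain ⟨k, hk, hs⟩ := he
      have e1 : ∀ i : Fin (m+1), σ.symm v i = S.dirPt 0 h⁻¹ (up (m+1) v) i := by
        intro i
        rw [hsymm, Tn_pos _ hk hs]; rfl
      have e2 : ∀ i : Fin (m+1), up (m+1) v i = v i := fun i => congrFun (pre_up (m+1) v) i
      have hs' : S.Sg 0 k (S.dirPt 0 h⁻¹ (up (m+1) v)) := (Sg_dirPt _ _).2 hs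
      by_cases hTk : up (m+1) v k ∈ T k
      · have hTk' : S.dirPt 0 h⁻¹ (up (m+1) v) k ∈ T k := by
          by_contra hcon
          have h1 := hρ k h _ (S.dirPt 0 h⁻¹ (up (m+1) v) (k+1)) hcon
          have h2 : S.ρ k h (S.dirPt 0 h⁻¹ (up (m+1) v) k, S.dirPt 0 h⁻¹ (up (m+1) v) (k+1))
              = (up (m+1) v k, up (m+1) v (k+1)) := by
            have e3 : (S.dirPt 0 h⁻¹ (up (m+1) v) k, S.dirPt 0 h⁻¹ (up (m+1) v) (k+1))
                = S.ρ k h⁻¹ (up (m+1) v k, up (m+1) v (k+1)) := by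
              rw [dirPt_fst _ hs, dirPt_snd _ hs]
            rw [e3, map_inv]
            exact (S.ρ k h).apply_symm_apply _
          rw [h2] at h1
          have h7 : up (m+1) v k = S.dirPt 0 h⁻¹ (up (m+1) v) k := congrArg Prod.fst h1
          rw [← h7] at hcon
          exact hcon hTk
        right
        refine ⟨k, by omega, fun i h1 h2 => ?_, ?_, ?_, ?_, ?_, ?_⟩
        · rw [e1, dirPt_other _ hs h1 h2, e2]
        · intro i hi
          obtain ⟨i, hi'⟩ := i
          simp only at hi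
          subst hi
          rw [← e2]
          exact hs.2.1
        · intro i hi
          obtain ⟨i, hi'⟩ := i
          simp only at hi
          subst hi
          rw [e1]
          exact hs'.2.1
        · intro i hi
          rw [← e2]
          exact hs.2.2 i (Nat.zero_le _) hi
        · rw [← e2]; exact hTk
        · rw [e1]; exact hTk'
      · left
        funext i
        rw [e1, ← e2]
        by_cases h1 : (i : ℕ) = k
        · obtain ⟨i, hi'⟩ := i
          simp only at h1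
          subst h1
          show S.dirPt 0 h⁻¹ (up (m+1) v) i = up (m+1) v i
          rw [dirPt_fst _ hs, hρ _ _ _ _ hTk]
        · by_cases h2 : (i : ℕ) = k + 1
          · obtain ⟨i, hi'⟩ := i
            simp only at h2
            subst h2
            show S.dirPt 0 h⁻¹ (up (m+1) v) (k+1) = up (m+1) v (k+1)
            rw [dirPt_snd _ hs, hρ _ _ _ _ hTk]
          · exact dirPt_other _ hs h1 h2
    · left
      push Not at he
      rw [hsymm, Tn_neg _ he, pre_up]
  -- exceptional words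
  set P : Finset (S.V (m+1)) := (Finset.range (m+1)).biUnion fun k =>
    (T k).image fun x => pre (m+1) (Function.update (oo (S := S)) k x) with hP
  have hPc : P.card ≤ (m+1) * b := by
    refine Finset.card_biUnion_le.trans ?_
    calc ∑ k ∈ Finset.range (m+1), ((T k).image fun x => pre (m+1) (Function.update (oo (S := S)) k x)).card
        ≤ ∑ k ∈ Finset.range (m+1), b := Finset.sum_le_sum fun k _ => Finset.card_image_le.trans (hT k)
      _ = (m+1) * b := by simp
  have hmem : ∀ w : S.V (m+1), ∀ k, ∀ hk : k + 1 < m + 1, w ⟨k, by omega⟩ ∈ T k →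
      (∀ i : Fin (m+1), (i : ℕ) ≠ k → w i = S.o i) → w ∈ P := by
    intro w k hk hwk hw
    rw [hP, Finset.mem_biUnion]
    refine ⟨k, Finset.mem_range.2 (by omega), Finset.mem_image.2 ⟨_, hwk, ?_⟩⟩
    funext i
    obtain ⟨i, hi⟩ := i
    show Function.update (oo (S := S)) k (w ⟨k, by omega⟩) i = w ⟨i, hi⟩
    by_cases hik : i = k
    · subst hik; rw [Function.update_self]
    · rw [Function.update_of_ne hik, hw ⟨i, hi⟩ hik]; rfl
  have hb : ∀ v, ((lev (σ.symm v) : ℝ) - lev v) ^ 2 ≤ if v ∈ P ∪ P.image σ then (1:ℝ) else 0 := by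
    intro v
    by_cases hv : lev (σ.symm v) = lev v
    · rw [hv, sub_self]
      split_ifs <;> norm_num
    · rcases key v with h1 | ⟨k, hk, h1, h2, h3, h4, h5, h6⟩
      · rw [h1] at hv; exact absurd rfl hv
      · have hmem' : v ∈ P ∪ P.image σ := by
          obtain ⟨g1, g2⟩ := lev_ne v (σ.symm v) k hk (fun i a b => (h1 i a b).symm) h2 h3 (Ne.symm hv)
          rcases g2 with g2 | g2
          · refine Finset.mem_union_left _ (hmem v k hk h5 fun i hi => ?_)
            by_cases hi1 : (i : ℕ) < k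
            · exact h4 i hi1
            · by_cases hi2 : (i : ℕ) = k + 1
              · obtain ⟨i, hi'⟩ := i
                simp only at hi2
                subst hi2
                exact g2
              · exact g1 i (by omega)
          · refine Finset.mem_union_right _ (Finset.mem_image.2 ⟨σ.symm v, hmem _ k hk h6 fun i hi => ?_, σ.apply_symm_apply v⟩)
            by_cases hi2 : (i : ℕ) = k + 1
            · obtain ⟨i, hi'⟩ := i
              simp only at hi2
              subst hi2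
              exact g2
            · rw [h1 i hi hi2]
              by_cases hi1 : (i : ℕ) < k
              · exact h4 i hi1
              · exact g1 i (by omega)
        rw [if_pos hmem']
        have a' : (lev (σ.symm v) : ℝ) ≤ lev v + 1 := by exact_mod_cast lev_close _ _ k h1 h2
        have b' : (lev v : ℝ) ≤ lev (σ.symm v) + 1 := by
          exact_mod_cast lev_close _ _ k (fun i a b => (h1 i a b).symm) h3
        rw [sq_le_one_iff_abs_le_one, abs_le]
        constructor <;> linarith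
  calc ∑ v, ((lev (σ.symm v) : ℝ) - lev v) ^ 2 ≤ ∑ v, if v ∈ P ∪ P.image σ then (1:ℝ) else 0 :=
        Finset.sum_le_sum fun v _ => hb v
    _ = ((P ∪ P.image σ).card : ℝ) := by
        rw [← Finset.sum_filter, Finset.filter_mem_eq_inter, Finset.univ_inter, Finset.sum_const, nsmul_eq_mul, mul_one]
    _ ≤ (((m+1) * b + (m+1) * b : ℕ) : ℝ) := by
        have := Finset.card_union_le P (P.image σ)
        have h3 : (P.image σ).card ≤ P.card := Finset.card_image_le
        exact_mod_cast (by omega : (P ∪ P.image σ).card ≤ (m+1) * b + (m+1) * b)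
    _ = 2 * b * ((m+1 : ℕ) : ℝ) := by push_cast; ring

theorem count_ext {M n : ℕ} (hMn : M ≤ n) (f : Equiv.Perm (S.V M)) (σ : Equiv.Perm (S.V n))
    (hσ : ext n σ = ext M f) :
    ∑ v, ((lev (σ.symm v) : ℝ) - lev v) ^ 2 ≤ (Fintype.card (S.V M) : ℝ) * M ^ 2 := by
  classical
  have hsymm : ∀ v, σ.symm v = pre n (ext M f⁻¹ (up n v)) := by
    intro v
    rw [map_inv, ← hσ, ← map_inv, pre_ext, pre_up]
    rfl
  have hge : ∀ v : S.V n, ∀ i : Fin n, M ≤ i → σ.symm v i = v i := by
    intro v i hi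
    rw [hsymm]
    show ext M f⁻¹ (up n v) i = v i
    rw [ext_ge _ _ hi]
    exact congrFun (pre_up n v) i
  have hlev : ∀ v w : S.V n, (∀ i : Fin n, M ≤ i → v i = w i) → lev v ≤ max M (lev w) := by
    intro v w hvw
    rw [lev_le_iff]
    intro i hi
    rw [hvw i (by omega)]
    exact (lev_le_iff w _).1 le_rfl i (by omega)
  have hb : ∀ v : S.V n, ((lev (σ.symm v) : ℝ) - lev v) ^ 2 ≤ if lev v ≤ M then (M:ℝ)^2 else 0 := by
    intro v
    have h1 := hlev (σ.symm v) v (hge v)
    have h2 := hlev v (σ.symm v) (fun i hi => (hge v i hi).symm)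
    by_cases hv : lev v ≤ M
    · rw [if_pos hv]
      have h3 : lev (σ.symm v) ≤ M := by omega
      have a1 : (lev v : ℝ) ≤ M := by exact_mod_cast hv
      have a2 : (lev (σ.symm v) : ℝ) ≤ M := by exact_mod_cast h3
      have a3 : (0:ℝ) ≤ lev v := Nat.cast_nonneg _
      have a4 : (0:ℝ) ≤ lev (σ.symm v) := Nat.cast_nonneg _
      apply sq_le_sq'
      · linarith
      · linarith
    · rw [if_neg hv]
      have : lev (σ.symm v) = lev v := by omega
      rw [this]; simp
  calc ∑ v, ((lev (σ.symm v) : ℝ) - lev v) ^ 2 ≤ ∑ v : S.V n, if lev v ≤ M then (M:ℝ)^2 else 0 :=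
        Finset.sum_le_sum fun v _ => hb v
    _ = ((Finset.univ.filter fun v : S.V n => lev v ≤ M).card : ℝ) * M ^ 2 := by
        rw [← Finset.sum_filter, Finset.sum_const, nsmul_eq_mul]
    _ ≤ _ := by
        refine mul_le_mul_of_nonneg_right ?_ (by positivity)
        have : (Finset.univ.filter fun v : S.V n => lev v ≤ M).card ≤ (Finset.univ : Finset (S.V M)).card := by
          refine Finset.card_le_card_of_injOn (fun v => pre M (up n v)) (fun _ _ => Finset.mem_coe.2 (Finset.mem_univ _)) ?_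
          intro v hv w hw hvw
          rw [Finset.mem_coe, Finset.mem_filter] at hv hw
          have hv' := (lev_le_iff v M).1 hv.2
          have hw' := (lev_le_iff w M).1 hw.2
          funext i
          by_cases hi : (i : ℕ) < M
          · have := pre_eq_iff.1 hvw i hi
            rw [up_lt v i.2, up_lt w i.2] at this
            exact this
          · rw [hv' i (by omega), hw' i (by omega)]
        rw [Finset.card_univ] at this
        exact_mod_cast this

end Pool.Agent.Helper889.Si
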