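import Mathlib
import Pool.Agent.Helper889.Br.Amen
import Pool.Agent.Helper889.Si.Gp

set_option autoImplicit false
set_option linter.unusedSectionVars false

namespace Pool.Agent.Helper889.Si

open Filter Topology

variable {S : Sys}

theorem exists_mean (TT : ∀ k, Finset (S.X k)) {b : ℕ} (hT : ∀ k, (TT k).card ≤ b)
    (hρ : ∀ k h x y, x ∉ TT k → S.ρ k h (x, y) = (x, y)) (T : Set S.H) (hF : Br.Fol S.H T) :
    ∃ m : Set (Equiv.Perm S.Bd) → ℝ, (∀ B, 0 ≤ m B) ∧ m Set.univ = 1 ∧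
      (∀ A B, Disjoint A B → m (A ∪ B) = m A + m B) ∧
      (∀ c ∈ T, ∀ B, m ((fun p => Dz c * p) ⁻¹' B) = m B) ∧
      (∀ M, ∀ f : Equiv.Perm (S.V M), ∀ B, m ((fun p => ext M f * p) ⁻¹' B) = m B) := by
  classical
  have hF' : ∀ n : ℕ, ∃ E : Finset S.H, E.Nonempty ∧ (1 : S.H) ∉ E ∧
      ∀ c ∈ T, (1 - 1 / ((n:ℝ) + 1)) * E.card ≤ ({k : S.H | k ∈ E ∧ c⁻¹ * k ∈ E}.ncard : ℝ) :=
    fun n => hF _ (by positivity)
  choose E hE hE1 hEF using hF'
  have hcard : ∀ n c, ({k : S.H | k ∈ E n ∧ c⁻¹ * k ∈ E n}.ncard : ℝ) = (((E n).filter fun k => c⁻¹ * k ∈ E n).card : ℝ) := by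
    intro n c
    have : {k : S.H | k ∈ E n ∧ c⁻¹ * k ∈ E n} = (((E n).filter fun k => c⁻¹ * k ∈ E n : Finset S.H) : Set S.H) := by
      ext k; simp
    rw [this, Set.ncard_coe_finset]
  have hlim : ∀ B : Set (Equiv.Perm S.Bd), ∃ x : ℝ, 
      Tendsto (fun n : ℕ => mn (n+1) (E n) B) (hyperfilter ℕ : Filter ℕ) (𝓝 x) := by
    intro B
    have hc : IsCompact (Set.Icc (0:ℝ) 1) := isCompact_Icc
    have h1 : (((hyperfilter ℕ).map (fun n : ℕ => mn (n+1) (E n) B) : Ultrafilter ℝ) : Filter ℝ) ≤ 𝓟 (Set.Icc (0:ℝ) 1) := by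
      rw [le_principal_iff]
      rw [Ultrafilter.mem_coe, Ultrafilter.mem_map]
      refine Filter.univ_mem' fun n => ?_
      have := mn_basic (S := S) (n+1) (hE1 n) (hE n)
      exact ⟨this.1 B, this.2.1 B⟩
    obtain ⟨x, _, hx⟩ := hc.ultrafilter_le_nhds _ h1
    exact ⟨x, hx⟩
  choose m hm using hlim
  have hle : (hyperfilter ℕ : Filter ℕ) ≤ atTop := by
    rw [← Nat.cofinite_eq_atTop]; exact hyperfilter_le_cofinite
  have hinv : ∀ (g : Equiv.Perm S.Bd) (C : ℝ), (∀ᶠ n : ℕ in atTop, ∀ B, |mn (n+1) (E n) ((fun p => g * p) ⁻¹' B) - mn (n+1) (E n) B|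
      ≤ 2 * Real.sqrt (2 * (1 / ((n:ℝ) + 1) + Real.pi ^ 2 * C / (8 * (((n+1 : ℕ)) : ℝ))))) →
      ∀ B, m ((fun p => g * p) ⁻¹' B) = m B := by
    intro g C hg B
    have h1 : Tendsto (fun n : ℕ => 2 * Real.sqrt (2 * (1 / ((n:ℝ) + 1) + Real.pi ^ 2 * C / (8 * (((n+1 : ℕ)) : ℝ))))) atTop (𝓝 0) := by
      have h2 : Tendsto (fun n : ℕ => 1 / ((n:ℝ) + 1)) atTop (𝓝 0) := tendsto_one_div_add_atTop_nhds_zero_nat
      have h3 : Tendsto (fun n : ℕ => 2 * Real.sqrt (2 * (1 / ((n:ℝ) + 1) + Real.pi ^ 2 * C / 8 * (1 / ((n:ℝ) + 1))))) atTop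
          (𝓝 (2 * Real.sqrt (2 * (0 + Real.pi ^ 2 * C / 8 * 0)))) := by
        refine Tendsto.const_mul _ (Tendsto.sqrt (Tendsto.const_mul _ (h2.add (h2.const_mul _))))
      rw [mul_zero, add_zero, mul_zero, Real.sqrt_zero, mul_zero] at h3
      refine h3.congr fun n => ?_
      congr 3
      push_cast
      congr 1
      field_simp
    have h4 : Tendsto (fun n : ℕ => mn (n+1) (E n) ((fun p => g * p) ⁻¹' B) - mn (n+1) (E n) B) (hyperfilter ℕ : Filter ℕ) (𝓝 0) :=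
      squeeze_zero_norm' ((hg.mono fun n hn => hn B).filter_mono hle) (h1.mono_left hle)
    have h5 := (hm ((fun p => g * p) ⁻¹' B)).sub (hm B)
    have := tendsto_nhds_unique h5 h4
    linarith
  refine ⟨m, ?_, ?_, ?_, ?_, ?_⟩
  · intro B
    refine ge_of_tendsto' (hm B) fun n => (mn_basic (S := S) (n+1) (hE1 n) (hE n)).1 B
  · refine tendsto_nhds_unique (hm _) ?_
    refine tendsto_const_nhds.congr fun n => ?_
    exact ((mn_basic (S := S) (n+1) (hE1 n) (hE n)).2.2.1).symm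
  · intro A B h
    refine tendsto_nhds_unique (hm _) (((hm A).add (hm B)).congr fun n => ?_)
    exact ((mn_basic (S := S) (n+1) (hE1 n) (hE n)).2.2.2 A B h).symm
  · intro c hc
    refine hinv _ (2 * b) (Eventually.of_forall fun n B => ?_)
    obtain ⟨σ, τ, hGP, hσ⟩ := GP_Dz (S := S) n c
    have hσo : σ.symm (ow (n+1)) = ow (n+1) := by
      rw [Equiv.symm_apply_eq]
      have : pre (n+1) (ext (n+1) σ (oo (S := S))) = σ (ow (n+1)) := by rw [pre_ext, pre_oo]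
      rw [← this, hσ, Tn_neg, pre_oo]
      intro k _ hs
      exact hs.2.1 rfl
    refine mn_inv (n+1) (by omega) (hE1 n) (hE n) (Dz c) c σ τ hGP (Or.inr hσo) ?_ (by positivity) ?_ B
    · exact count_Tn TT hT hρ n c σ hσ
    · rw [← hcard]
      exact hEF n c hc
  · intro M f
    refine hinv _ ((Fintype.card (S.V M) : ℝ) * M ^ 2) ((eventually_ge_atTop M).mono fun n hn B => ?_)
    obtain ⟨σ, τ, hGP, hσ⟩ := GP_ext (S := S) (show M ≤ n + 1 by omega) f
    refine mn_inv (n+1) (by omega) (hE1 n) (hE n) (ext M f) 1 σ τ hGP (Or.inl rfl) ?_ (by positivity) ?_ B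
    · refine (count_ext (show M ≤ n + 1 by omega) f σ hσ).trans ?_
      have h1 : (0:ℝ) ≤ (Fintype.card (S.V M) : ℝ) * M ^ 2 := by positivity
      have h2 : (1:ℝ) ≤ ((n+1 : ℕ) : ℝ) := by exact_mod_cast (by omega : 1 ≤ n + 1)
      exact le_mul_of_one_le_right h1 h2
    · have : ((E n).filter fun k => (1 : S.H)⁻¹ * k ∈ E n) = E n := by
        ext k; simp
      rw [this]
      have h1 : 0 ≤ 1 / ((n:ℝ) + 1) := by positivity
      have h2 : (0:ℝ) ≤ (E n).card := by positivity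
      nlinarith

/-- the full group -/
def FF (S : Sys) : Subgroup (Equiv.Perm S.Bd) :=
  Subgroup.closure (Set.range (Dz (S := S)) ∪ ⋃ M, Set.range (ext (S := S) M))

theorem Dz_mem (h : S.H) : Dz h ∈ FF S := Subgroup.subset_closure (Or.inl ⟨h, rfl⟩)

theorem ext_mem (M : ℕ) (f : Equiv.Perm (S.V M)) : ext M f ∈ FF S :=
  Subgroup.subset_closure (Or.inr (Set.mem_iUnion.2 ⟨M, f, rfl⟩))

theorem amenable_sub (TT : ∀ k, Finset (S.X k)) {b : ℕ} (hTT : ∀ k, (TT k).card ≤ b)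
    (hρ : ∀ k h x y, x ∉ TT k → S.ρ k h (x, y) = (x, y)) (T : Set S.H) (hF : Br.Fol S.H T)
    (hT : Subgroup.closure T = ⊤) (G : Subgroup (Equiv.Perm S.Bd)) (hG : G ≤ FF S) : Br.Amenable G := by
  obtain ⟨m, m0, m1, m2, m3, m4⟩ := exists_mean (S := S) TT hTT hρ T hF
  refine Br.amenable_of_mean _ m m0 m1 m2 ?_
  let K : Subgroup (Equiv.Perm S.Bd) :=
    { carrier := {g | ∀ B, m ((fun p => g * p) ⁻¹' B) = m B}
      mul_mem' := by
        intro a b ha hb B
        have : (fun p => a * b * p) ⁻¹' B = (fun p => b * p) ⁻¹' ((fun p => a * p) ⁻¹' B) := by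
          ext p; simp [mul_assoc]
        rw [this, hb, ha]
      one_mem' := by
        intro B
        simp
      inv_mem' := by
        intro a ha B
        rw [← ha ((fun p => a⁻¹ * p) ⁻¹' B)]
        congr 1
        ext p; simp }
  have hK : FF S ≤ K := by
    unfold FF
    rw [Subgroup.closure_le]
    rintro g (⟨h, rfl⟩ | hg)
    · have h1 : (⊤ : Subgroup S.H) ≤ K.comap Dz := by
        rw [← hT, Subgroup.closure_le]
        intro c hc
        exact m3 c hc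
      exact h1 (Subgroup.mem_top h)
    · obtain ⟨M, f, rfl⟩ := Set.mem_iUnion.1 hg
      exact m4 M f
  exact fun g hg => hK (hG hg)

end Pool.Agent.Helper889.Si
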