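import Mathlib
import Pool.Agent.Helper889.Si.Base
import Pool.Agent.Helper889.Si.AltGen

set_option autoImplicit false
set_option linter.unusedSectionVars false
set_option linter.unusedVariables false

namespace Pool.Agent.Helper889.Si

open Equiv Equiv.Perm

variable {S : Sys}

/-- two-point functions -/
def ps {n : ℕ} (v v' : S.V n) (h : S.H) : S.V n → S.H := fun w => if w = v then h else if w = v' then h⁻¹ else 1

/-- two-point elements -/
noncomputable def pp (n : ℕ) (v v' : S.V n) (h : S.H) : Perm S.Bd := DD n (ps v v' h)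

theorem ps_comp {n : ℕ} (v v' : S.V n) (h : S.H) (f : Perm (S.V n)) : ps v v' h ∘ f.symm = ps (f v) (f v') h := by
  funext w
  simp only [ps, Function.comp, Equiv.symm_apply_eq]

theorem pp_conj (n : ℕ) (v v' : S.V n) (h : S.H) (f : Perm (S.V n)) :
    ext n f * pp n v v' h * (ext n f)⁻¹ = pp n (f v) (f v') h := by
  unfold pp
  rw [ext_DD, ps_comp, mul_assoc, mul_inv_cancel, mul_one]

theorem ps_inv {n : ℕ} {v v' : S.V n} (hv : v ≠ v') (h : S.H) : (ps v v' h)⁻¹ = ps v v' h⁻¹ := by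
  funext w
  simp only [ps, Pi.inv_apply]
  split_ifs <;> simp

theorem pp_inv {n : ℕ} {v v' : S.V n} (hv : v ≠ v') (h : S.H) : (pp n v v' h)⁻¹ = pp n v v' h⁻¹ := by
  unfold pp
  rw [← map_inv, ps_inv hv]

theorem ps_mul {n : ℕ} {v v' v'' : S.V n} (h1 : v ≠ v') (h2 : v ≠ v'') (h3 : v' ≠ v'') (h k : S.H) :
    ps v v' (h * k) = ps v'' v' k * ps v v' h * ps v v'' k := by
  funext w
  simp only [ps, Pi.mul_apply]
  by_cases hwv : w = v
  · subst hwv
    rw [if_pos rfl, if_neg h2, if_neg h1, if_pos rfl, if_pos rfl, one_mul]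
  · by_cases hwv' : w = v'
    · subst hwv'
      rw [if_neg hwv, if_pos rfl, if_neg h3, if_pos rfl, if_neg hwv, if_pos rfl, if_neg hwv, if_neg h3, mul_one, mul_inv_rev]
    · by_cases hwv'' : w = v''
      · subst hwv''
        rw [if_neg hwv, if_neg hwv', if_pos rfl, if_neg hwv, if_neg hwv', if_neg hwv, if_pos rfl, mul_one, mul_inv_cancel]
      · simp [hwv, hwv', hwv'']

theorem fresh {α : Type} [Fintype α] [DecidableEq α] (s : Finset α) (h : s.card < Fintype.card α) : ∃ z, z ∉ s := by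
  by_contra hcon
  push Not at hcon
  have := Finset.card_le_card (fun w _ => hcon w : (Finset.univ : Finset α) ⊆ s)
  rw [Finset.card_univ] at this
  omega

section
variable {G : Subgroup (Perm S.Bd)}

theorem spread {n : ℕ} (hA : ∀ f ∈ alternatingGroup (S.V n), ext n f ∈ G) (hc : 9 ≤ Fintype.card (S.V n)) (s : S.H)
    {v0 v0' : S.V n} (h0 : v0 ≠ v0') (h : pp n v0 v0' s ∈ G) : ∀ v v', v ≠ v' → pp n v v' s ∈ G := by
  have cj : ∀ f ∈ alternatingGroup (S.V n), ∀ v v', pp n v v' s ∈ G → pp n (f v) (f v') s ∈ G := by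
    intro f hf v v' hv
    rw [← pp_conj]
    exact mul_mem (mul_mem (hA f hf) hv) (inv_mem (hA f hf))
  have st1 : ∀ v v' w, v ≠ v' → w ≠ v' → pp n v v' s ∈ G → pp n w v' s ∈ G := by
    intro v v' w h1 h2 h3
    by_cases hvw : v = w
    · rwa [← hvw]
    · obtain ⟨z, hz⟩ := fresh {v, w, v'} (lt_of_le_of_lt Finset.card_le_three (by omega))
      simp only [Finset.mem_insert, Finset.mem_singleton, not_or] at hz
      have := cj (c3 v w z) (c3_mem hvw (Ne.symm hz.2.1)) v v' h3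
      rwa [c3_1 hvw (Ne.symm hz.1), c3_fix (Ne.symm h1) (Ne.symm h2) (Ne.symm hz.2.2)] at this
  have st2 : ∀ v v' w, v ≠ v' → w ≠ v → pp n v v' s ∈ G → pp n v w s ∈ G := by
    intro v v' w h1 h2 h3
    by_cases hvw : v' = w
    · rwa [← hvw]
    · obtain ⟨z, hz⟩ := fresh {v', w, v} (lt_of_le_of_lt Finset.card_le_three (by omega))
      simp only [Finset.mem_insert, Finset.mem_singleton, not_or] at hz
      have := cj (c3 v' w z) (c3_mem hvw (Ne.symm hz.2.1)) v v' h3
      rwa [c3_1 hvw (Ne.symm hz.1), c3_fix h1 (Ne.symm h2) (Ne.symm hz.2.2)] at this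
  intro v v' hv
  obtain ⟨z, hz⟩ := fresh {v0', v'} (lt_of_le_of_lt Finset.card_le_two (by omega))
  simp only [Finset.mem_insert, Finset.mem_singleton, not_or] at hz
  exact st1 z v' v hz.2 hv (st2 z v0' v' hz.1 (Ne.symm hz.2) (st1 v0 v0' z h0 hz.1 h))

theorem gen_H {n : ℕ} (hc : 9 ≤ Fintype.card (S.V n)) (T : Set S.H) (hT : Subgroup.closure T = ⊤)
    (h : ∀ s ∈ T, ∀ v v', v ≠ v' → pp n v v' s ∈ G) (k : S.H) : ∀ v v', v ≠ v' → pp n v v' k ∈ G := by
  have hk : k ∈ Subgroup.closure T := by rw [hT]; exact Subgroup.mem_top k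
  induction hk using Subgroup.closure_induction with
  | mem x hx => exact h x hx
  | one =>
    intro v v' _
    have : ps v v' (1 : S.H) = 1 := by
      funext w; simp [ps]
    unfold pp
    rw [this, map_one]
    exact one_mem G
  | mul a b _ _ iha ihb =>
    intro v v' hv
    obtain ⟨z, hz⟩ := fresh {v, v'} (lt_of_le_of_lt Finset.card_le_two (by omega))
    simp only [Finset.mem_insert, Finset.mem_singleton, not_or] at hz
    unfold pp
    rw [ps_mul hv (Ne.symm hz.1) (Ne.symm hz.2), map_mul, map_mul]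
    exact mul_mem (mul_mem (ihb z v' hz.2) (iha v v' hv)) (ihb v z (Ne.symm hz.1))
  | inv a _ iha =>
    intro v v' hv
    rw [← pp_inv hv]
    exact inv_mem (iha v v' hv)

end

/-- adding a letter -/
def sn {n : ℕ} (w : S.V n) (y : S.X n) : S.V (n+1) := pre (n+1) (Function.update (up n w) n y)

theorem sn_res {n : ℕ} (w : S.V n) (y : S.X n) : res n (sn w y) = w := by
  funext i
  show Function.update (up n w) n y i = w i
  rw [Function.update_of_ne (by have := i.2; omega), up_lt w i.2]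

theorem sn_last {n : ℕ} (w : S.V n) (y : S.X n) : sn w y (Fin.last n) = y := Function.update_self _ _ _

theorem sn_eta {n : ℕ} (t : S.V (n+1)) : sn (res n t) (t (Fin.last n)) = t := by
  funext i
  obtain ⟨i, hi⟩ := i
  show Function.update (up n (res n t)) n (t (Fin.last n)) i = t ⟨i, hi⟩
  by_cases hin : i = n
  · subst hin; rw [Function.update_self]; rfl
  · rw [Function.update_of_ne hin, up_lt _ (show i < n by omega)]; rfl

theorem sn_pre {n : ℕ} (x : S.Bd) : sn (pre n x) (x n) = pre (n+1) x := by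
  have := sn_eta (pre (n+1) x)
  exact this

theorem sn_inj {n : ℕ} {w w' : S.V n} {y y' : S.X n} (h : sn w y = sn w' y') : w = w' ∧ y = y' := by
  constructor
  · rw [← sn_res w y, h, sn_res]
  · rw [← sn_last w y, h, sn_last]

theorem lf_ps {n : ℕ} (v v' : S.V n) (h : S.H) : lf n (ps v v' h) = ps (sn v (S.o n)) (sn v' (S.o n)) h := by
  funext t
  rw [lf_apply]
  have e : ∀ w, t = sn w (S.o n) ↔ res n t = w ∧ t (Fin.last n) = S.o n := by
    intro w
    constructor
    · rintro rfl; exact ⟨sn_res _ _, sn_last _ _⟩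
    · rintro ⟨h1, h2⟩; rw [← sn_eta t, h1, h2]
  simp only [ps, e]
  by_cases ht : t (Fin.last n) = S.o n
  · simp [ht]
  · simp [ht]

theorem comm_ext_rr {n : ℕ} (τ : Perm (S.V (n+1))) (φ : S.V n → S.H)
    (hτ : ∀ t : S.V (n+1), t (Fin.last n) ≠ S.o n → φ (res n t) ≠ 1 → τ t = t) :
    ext (n+1) τ * rr n φ = rr n φ * ext (n+1) τ := by
  have hfix : ∀ x : S.Bd, τ (pre (n+1) x) = pre (n+1) x → ext (n+1) τ x = x := fun x hx =>
    eq_of_pre_of_ge (n := n+1) (by rw [pre_ext, hx]) fun i hi => ext_ge _ _ hi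
  ext x : 1
  rw [Perm.mul_apply, Perm.mul_apply]
  by_cases hx : x n ≠ S.o n ∧ φ (pre n x) ≠ 1
  · rw [hfix x (hτ _ hx.1 hx.2), hfix _ (hτ _ ((rr_ne_iff n φ x).2 hx.1) (by rw [res_pre, pre_rr]; exact hx.2))]
  · have triv : ∀ z : S.Bd, ¬ (z n ≠ S.o n ∧ φ (pre n z) ≠ 1) → rr n φ z = z := by
      intro z hz
      by_cases hzn : z n = S.o n
      · exact rr_neg _ hzn
      · have : φ (pre n z) = 1 := by
          by_contra hcon
          exact hz ⟨hzn, hcon⟩
        exact rr_triv this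
    rw [triv x hx, triv]
    rintro ⟨h1, h2⟩
    apply hx
    have h3 : τ (pre (n+1) (ext (n+1) τ x)) = pre (n+1) (ext (n+1) τ x) := hτ _ h1 h2
    have h4 : pre (n+1) (ext (n+1) τ x) = pre (n+1) x := by
      apply τ.injective
      rw [h3, pre_ext]
    have h5 : (ext (n+1) τ x) n = x n := pre_eq_iff.1 h4 n (by omega)
    have h6 : pre n (ext (n+1) τ x) = pre n x := pre_mono (by omega) h4
    rw [h5] at h1
    rw [h6] at h2
    exact ⟨h1, h2⟩

section
variable {G : Subgroup (Perm S.Bd)}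

theorem step_B {n : ℕ} (hcn : 9 ≤ Fintype.card (S.V n)) (hcn1 : 9 ≤ Fintype.card (S.V (n+1)))
    (hX : 9 ≤ Fintype.card (S.X n)) (hA : ∀ f ∈ alternatingGroup (S.V (n+1)), ext (n+1) f ∈ G)
    (hB : ∀ h, ∀ v v' : S.V n, v ≠ v' → pp n v v' h ∈ G) (h : S.H) :
    ∀ v v' : S.V (n+1), v ≠ v' → pp (n+1) v v' h ∈ G := by
  obtain ⟨v, _⟩ := fresh (∅ : Finset (S.V n)) (by rw [Finset.card_empty]; omega)
  obtain ⟨v', hv'⟩ := fresh {v} (by rw [Finset.card_singleton]; omega)
  obtain ⟨v'', hv''⟩ := fresh {v, v'} (lt_of_le_of_lt Finset.card_le_two (by omega))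
  obtain ⟨y1, _⟩ := fresh (∅ : Finset (S.X n)) (by rw [Finset.card_empty]; omega)
  obtain ⟨y2, hy2⟩ := fresh {y1} (by rw [Finset.card_singleton]; omega)
  simp only [Finset.mem_insert, Finset.mem_singleton, not_or] at hv' hv'' hy2
  have k1 : sn v' (S.o n) ≠ sn v'' y1 := fun hc => hv''.2 (sn_inj hc).1.symm
  have k2 : sn v' (S.o n) ≠ sn v'' y2 := fun hc => hv''.2 (sn_inj hc).1.symm
  have k3 : sn v'' y1 ≠ sn v'' y2 := fun hc => hy2 (sn_inj hc).2.symm
  have k4 : sn v (S.o n) ≠ sn v' (S.o n) := fun hc => hv' (sn_inj hc).1.symm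
  have k5 : sn v (S.o n) ≠ sn v'' y1 := fun hc => hv''.1 (sn_inj hc).1.symm
  have k6 : sn v (S.o n) ≠ sn v'' y2 := fun hc => hv''.1 (sn_inj hc).1.symm
  set τ : Perm (S.V (n+1)) := c3 (sn v' (S.o n)) (sn v'' y1) (sn v'' y2) with hτ
  have hτA : τ ∈ alternatingGroup (S.V (n+1)) := c3_mem k1 k3
  have hcomm : ext (n+1) τ * rr n (ps v v' h) = rr n (ps v v' h) * ext (n+1) τ := by
    refine comm_ext_rr τ _ fun t ht1 ht2 => ?_
    have hres : res n t = v ∨ res n t = v' := by
      by_contra hcon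
      push Not at hcon
      apply ht2
      simp [ps, hcon.1, hcon.2]
    refine c3_fix ?_ ?_ ?_
    · rintro rfl; exact ht1 (sn_last _ _)
    · rintro rfl
      rw [sn_res] at hres
      rcases hres with h1 | h1
      · exact hv''.1 h1
      · exact hv''.2 h1
    · rintro rfl
      rw [sn_res] at hres
      rcases hres with h1 | h1
      · exact hv''.1 h1
      · exact hv''.2 h1
  have key : (pp n v v' h)⁻¹ * (ext (n+1) τ * pp n v v' h * (ext (n+1) τ)⁻¹) = pp (n+1) (sn v' (S.o n)) (sn v'' y1) h := by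
    have e1 : ext (n+1) τ * pp n v v' h * (ext (n+1) τ)⁻¹
        = rr n (ps v v' h) * pp (n+1) (sn v (S.o n)) (sn v'' y1) h := by
      have : pp n v v' h = rr n (ps v v' h) * pp (n+1) (sn v (S.o n)) (sn v' (S.o n)) h := by
        unfold pp
        rw [DD_split, lf_ps]
      rw [this, ← mul_assoc, hcomm, mul_assoc, mul_assoc, ← mul_assoc (ext (n+1) τ), pp_conj]
      congr 2
      · exact c3_fix k4 k5 k6
      · exact c3_1 k1 k2
    have e2 : pp n v v' h = rr n (ps v v' h) * pp (n+1) (sn v (S.o n)) (sn v' (S.o n)) h := by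
      unfold pp
      rw [DD_split, lf_ps]
    rw [e1, e2, mul_inv_rev, mul_assoc, inv_mul_cancel_left]
    unfold pp
    rw [← map_inv, ← map_mul]
    congr 1
    funext w
    simp only [ps, Pi.mul_apply, Pi.inv_apply]
    by_cases h1 : w = sn v (S.o n)
    · subst h1
      rw [if_pos rfl, if_pos rfl, if_neg k4, if_neg k5, inv_mul_cancel]
    · by_cases h2 : w = sn v' (S.o n)
      · subst h2
        rw [if_neg h1, if_pos rfl, if_neg h1, if_neg k1, if_pos rfl, inv_inv, mul_one]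
      · simp [h1, h2]
  have hmem : pp (n+1) (sn v' (S.o n)) (sn v'' y1) h ∈ G := by
    rw [← key]
    exact mul_mem (inv_mem (hB h v v' (Ne.symm hv'))) (mul_mem (mul_mem (hA τ hτA) (hB h v v' (Ne.symm hv'))) (inv_mem (hA τ hτA)))
  exact spread hA hcn1 h k1 hmem

end

/-- the action of `ext n f` on longer words -/
theorem hat_sn {n : ℕ} (f : Perm (S.V n)) (g : Perm (S.V (n+1))) (h : ext n f = ext (n+1) g) (w : S.V n) (y : S.X n) :
    g (sn w y) = sn (f w) y := by
  have h1 : g (sn w y) = pre (n+1) (ext n f (Function.update (up n w) n y)) := by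
    rw [h, pre_ext]; rfl
  have hw : pre n (Function.update (up n w) n y) = w := sn_res w y
  rw [h1, ← sn_pre, pre_ext, hw, ext_ge _ _ le_rfl, Function.update_self]

/-- the action of `rr m φ` on words -/
theorem rr_sn (m : ℕ) (φ : S.V m → S.H) (R : Perm (S.V (m+2))) (hR : rr m φ = ext (m+2) R) (w : S.V m) (a : S.X m)
    (b : S.X (m+1)) : R (sn (sn w a) b) = sn (sn w (S.ρ m (φ w) (a, b)).1) (S.ρ m (φ w) (a, b)).2 := by
  set x : S.Bd := Function.update (Function.update (up m w) m a) (m+1) b with hx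
  have x1 : x m = a := by
    rw [hx, Function.update_of_ne (by omega), Function.update_self]
  have x2 : x (m+1) = b := by rw [hx, Function.update_self]
  have x3 : pre m x = w := by
    funext i
    show x i = w i
    rw [hx, Function.update_of_ne (by have := i.2; omega), Function.update_of_ne (by have := i.2; omega), up_lt w i.2]
  have e0 : sn (sn w a) b = pre (m+2) x := by
    rw [← sn_pre (n := m+1) x, ← sn_pre (n := m) x, x1, x2, x3]
  rw [e0, ← pre_ext, ← hR]
  by_cases ha : a = S.o m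
  · have : rr m φ x = x := rr_neg _ (by rw [x1, ha])
    rw [this, ha, S.ρo, ← e0, ha]
  · have hxm : x m ≠ S.o m := by rw [x1]; exact ha
    have hs : S.Sg m m x := ⟨le_rfl, hxm, fun j h1 h2 => by omega⟩
    rw [rr_pos φ hxm, x3, ← sn_pre (n := m+1), ← sn_pre (n := m), dirPt_fst _ hs, dirPt_snd _ hs, pre_dirPt, x1, x2, x3]

section
variable {G : Subgroup (Perm S.Bd)} (t0 t1 : ∀ k, S.X k) (ht01 : ∀ k, t0 k ≠ t1 k)
  (hC1 : ∀ k (y y' : S.X (k+1)), ∃ h, ∃ π : Perm (S.X (k+1)), π y = y' ∧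
    ∀ x z, S.ρ k h (x, z) = if x = t0 k ∨ x = t1 k then (x, π z) else (x, z))
  (hC2 : ∀ k, ∃ h, ∃ a : S.X (k+1), S.ρ k h = swap (t0 k, a) (t1 k, a))

include ht01 hC1 hC2 in
theorem step_A {m : ℕ} (hcm : 9 ≤ Fintype.card (S.V m)) (hcm1 : 9 ≤ Fintype.card (S.V (m+1)))
    (hX : 9 ≤ Fintype.card (S.X (m+1))) (hA : ∀ f ∈ alternatingGroup (S.V (m+1)), ext (m+1) f ∈ G)
    (hB : ∀ h, ∀ v v' : S.V m, v ≠ v' → pp m v v' h ∈ G)
    (hB' : ∀ h, ∀ v v' : S.V (m+1), v ≠ v' → pp (m+1) v v' h ∈ G) :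
    ∀ f ∈ alternatingGroup (S.V (m+2)), ext (m+2) f ∈ G := by
  -- elements of finite depth
  have hrr : ∀ h, ∀ u u' : S.V m, u ≠ u' → rr m (ps u u' h) ∈ G := by
    intro h u u' huu
    have : rr m (ps u u' h) = pp m u u' h * (pp (m+1) (sn u (S.o m)) (sn u' (S.o m)) h)⁻¹ := by
      have e : pp m u u' h = rr m (ps u u' h) * pp (m+1) (sn u (S.o m)) (sn u' (S.o m)) h := by
        unfold pp
        rw [DD_split, lf_ps]
      rw [e, mul_assoc, mul_inv_cancel, mul_one]
    rw [this]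
    exact mul_mem (hB h u u' huu) (inv_mem (hB' h _ _ fun hc => huu (sn_inj hc).1))
  have hhat : ∀ f ∈ alternatingGroup (S.V (m+1)), ∃ g ∈ G.comap (ext (m+2)), ∀ w y, g (sn w y) = sn (f w) y := by
    intro f hf
    obtain ⟨g, hg⟩ := ext_le (show m + 1 ≤ m + 2 by omega) f
    refine ⟨g, ?_, hat_sn f g hg⟩
    rw [Subgroup.mem_comap, ← hg]
    exact hA f hf
  have hRR : ∀ h, ∀ u u' : S.V m, u ≠ u' → ∃ R ∈ G.comap (ext (m+2)), ∀ w a b,
      R (sn (sn w a) b) = sn (sn w (S.ρ m (ps u u' h w) (a, b)).1) (S.ρ m (ps u u' h w) (a, b)).2 := by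
    intro h u u' huu
    obtain ⟨R, hR⟩ := rr_ext (S := S) m (ps u u' h)
    refine ⟨R, ?_, rr_sn m _ R hR⟩
    rw [Subgroup.mem_comap, ← hR]
    exact hrr h u u' huu
  have eta : ∀ t : S.V (m+2), t = sn (sn (res m (res (m+1) t)) ((res (m+1) t) (Fin.last m))) (t (Fin.last (m+1))) := by
    intro t
    rw [sn_eta (res (m+1) t), sn_eta t]
  have key : alternatingGroup (S.V (m+2)) ≤ G.comap (ext (m+2)) := by
    -- a transversal three-cycle
    obtain ⟨h0, a0, hh0⟩ := hC2 m
    obtain ⟨u, _⟩ := fresh (∅ : Finset (S.V m)) (by rw [Finset.card_empty]; omega)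
    obtain ⟨u', hu'⟩ := fresh {u} (by rw [Finset.card_singleton]; omega)
    simp only [Finset.mem_singleton] at hu'
    obtain ⟨R, hRG, hR⟩ := hRR h0 u u' (Ne.symm hu')
    have Finj : ∀ w : S.V m, Function.Injective (fun p : S.X m × S.X (m+1) => sn (sn w p.1) p.2) := by
      rintro w ⟨a, b⟩ ⟨a', b'⟩ h
      obtain ⟨h1, h2⟩ := sn_inj h
      obtain ⟨_, h3⟩ := sn_inj h1
      simp only at h2 h3
      rw [h2, h3]
    set F : S.V m → S.X m × S.X (m+1) → S.V (m+2) := fun w p => sn (sn w p.1) p.2 with hF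
    have Fne : ∀ {w w'} {p p'}, w ≠ w' → F w p ≠ F w' p' := fun hw hc => hw (sn_inj (sn_inj hc).1).1
    have hRsw : R = swap (F u (t0 m, a0)) (F u (t1 m, a0)) * swap (F u' (t0 m, a0)) (F u' (t1 m, a0)) := by
      ext1 t
      rw [eta t]
      set w := res m (res (m+1) t)
      set p : S.X m × S.X (m+1) := ((res (m+1) t) (Fin.last m), t (Fin.last (m+1))) with hp
      have e1 : R (F w p) = F w (S.ρ m (ps u u' h0 w) p) := hR w p.1 p.2
      show R (F w p) = (swap (F u (t0 m, a0)) (F u (t1 m, a0)) * swap (F u' (t0 m, a0)) (F u' (t1 m, a0))) (F w p)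
      rw [e1, Perm.mul_apply]
      by_cases hwu : w = u
      · have h1 : ps u u' h0 w = h0 := by simp [ps, hwu]
        rw [h1, hwu, swap_apply_of_ne_of_ne (Fne (Ne.symm hu')) (Fne (Ne.symm hu')), hh0]
        exact ((Finj u).swap_apply _ _ _).symm
      · by_cases hwu' : w = u'
        · have h1 : ps u u' h0 w = h0⁻¹ := by simp only [ps]; rw [if_neg hwu, if_pos hwu']
          rw [h1, hwu', map_inv, hh0, swap_inv]
          have h2 : swap (F u' (t0 m, a0)) (F u' (t1 m, a0)) (F u' p) = F u' (swap (t0 m, a0) (t1 m, a0) p) :=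
            (Finj u').swap_apply _ _ _
          rw [h2, swap_apply_of_ne_of_ne (Fne hu') (Fne hu')]
        · have h1 : ps u u' h0 w = 1 := by simp only [ps]; rw [if_neg hwu, if_neg hwu']
          rw [h1, map_one, swap_apply_of_ne_of_ne (Fne hwu') (Fne hwu'), swap_apply_of_ne_of_ne (Fne hwu) (Fne hwu)]
          rfl
    obtain ⟨w1, hw1⟩ := fresh {sn u (t0 m), sn u (t1 m), sn u' (t0 m), sn u' (t1 m)} (lt_of_le_of_lt Finset.card_le_four (by omega))
    obtain ⟨w2, hw2⟩ := fresh {w1, sn u (t0 m), sn u (t1 m), sn u' (t0 m), sn u' (t1 m)} (lt_of_le_of_lt Finset.card_le_five (by omega))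
    simp only [Finset.mem_insert, Finset.mem_singleton, not_or] at hw1 hw2
    obtain ⟨a1, a2, a3, a4⟩ := hw1
    obtain ⟨b0, b1, b2, b3, b4⟩ := hw2
    obtain ⟨γ, hγG, hγ⟩ := hhat (c3 (sn u (t1 m)) w1 w2) (c3_mem (Ne.symm a2) (Ne.symm b0))
    have c1 : sn u (t0 m) ≠ sn u (t1 m) := fun hc => ht01 m (sn_inj hc).2
    have c2 : ∀ e e', sn u' e ≠ sn u e' := fun e e' hc => hu' (sn_inj hc).1
    have g1 : γ (F u (t0 m, a0)) = F u (t0 m, a0) := by
      show γ (sn (sn u (t0 m)) a0) = sn (sn u (t0 m)) a0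
      rw [hγ, c3_fix c1 (Ne.symm a1) (Ne.symm b1)]
    have g2 : γ (F u (t1 m, a0)) = sn w1 a0 := by
      show γ (sn (sn u (t1 m)) a0) = _
      rw [hγ, c3_1 (Ne.symm a2) (Ne.symm b2)]
    have g3 : ∀ e, e = t0 m ∨ e = t1 m → γ (F u' (e, a0)) = F u' (e, a0) := by
      intro e he
      show γ (sn (sn u' e) a0) = sn (sn u' e) a0
      rw [hγ, c3_fix (c2 _ _)]
      · rcases he with rfl | rfl
        · exact Ne.symm a3
        · exact Ne.symm a4
      · rcases he with rfl | rfl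
        · exact Ne.symm b3
        · exact Ne.symm b4
    have cyc : R * (γ * R * γ⁻¹) = c3 (F u (t1 m, a0)) (F u (t0 m, a0)) (sn w1 a0) := by
      have h1 : γ * R * γ⁻¹ = swap (F u (t0 m, a0)) (sn w1 a0) * swap (F u' (t0 m, a0)) (F u' (t1 m, a0)) := by
        have h2 : γ * R * γ⁻¹ = (γ * swap (F u (t0 m, a0)) (F u (t1 m, a0)) * γ⁻¹) *
            (γ * swap (F u' (t0 m, a0)) (F u' (t1 m, a0)) * γ⁻¹) := by
          rw [hRsw]; group
        rw [h2, ← swap_apply_apply, ← swap_apply_apply, g1, g2, g3 _ (Or.inl rfl), g3 _ (Or.inr rfl)]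
      have hd : swap (F u' (t0 m, a0)) (F u' (t1 m, a0)) * swap (F u (t0 m, a0)) (sn w1 a0)
          = swap (F u (t0 m, a0)) (sn w1 a0) * swap (F u' (t0 m, a0)) (F u' (t1 m, a0)) := by
        have d : Perm.Disjoint (swap (F u' (t0 m, a0)) (F u' (t1 m, a0))) (swap (F u (t0 m, a0)) (sn w1 a0)) := by
          intro z
          by_cases hz1 : z = F u' (t0 m, a0)
          · right
            subst hz1
            exact swap_apply_of_ne_of_ne (Fne hu') (fun hc => a3 (sn_inj hc).1.symm)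
          · by_cases hz2 : z = F u' (t1 m, a0)
            · right
              subst hz2
              exact swap_apply_of_ne_of_ne (Fne hu') (fun hc => a4 (sn_inj hc).1.symm)
            · left
              exact swap_apply_of_ne_of_ne hz1 hz2
        exact d.commute
      rw [h1, hRsw]
      unfold c3
      rw [swap_comm (F u (t1 m, a0)) (F u (t0 m, a0))]
      calc swap (F u (t0 m, a0)) (F u (t1 m, a0)) * swap (F u' (t0 m, a0)) (F u' (t1 m, a0)) *
            (swap (F u (t0 m, a0)) (sn w1 a0) * swap (F u' (t0 m, a0)) (F u' (t1 m, a0)))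
          = swap (F u (t0 m, a0)) (F u (t1 m, a0)) * (swap (F u' (t0 m, a0)) (F u' (t1 m, a0)) *
            swap (F u (t0 m, a0)) (sn w1 a0)) * swap (F u' (t0 m, a0)) (F u' (t1 m, a0)) := by
            simp only [mul_assoc]
        _ = swap (F u (t0 m, a0)) (F u (t1 m, a0)) * swap (F u (t0 m, a0)) (sn w1 a0) *
            (swap (F u' (t0 m, a0)) (F u' (t1 m, a0)) * swap (F u' (t0 m, a0)) (F u' (t1 m, a0))) := by
            rw [hd]; simp only [mul_assoc]
        _ = swap (F u (t0 m, a0)) (F u (t1 m, a0)) * swap (F u (t0 m, a0)) (sn w1 a0) := by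
            rw [swap_mul_self, mul_one]
    have hcycG : c3 (F u (t1 m, a0)) (F u (t0 m, a0)) (sn w1 a0) ∈ G.comap (ext (m+2)) := by
      rw [← cyc]
      exact mul_mem hRG (mul_mem (mul_mem hγG hRG) (inv_mem hγG))
    refine altGen (res (m+1)) (fun w => ⟨sn w a0, sn_res w a0⟩) hcm1 _ ?_ ?_ ?_ ?_ hcycG
    · -- moving points
      intro a a' b c hab hac hab' hac'
      obtain ⟨z, hz⟩ := fresh {res (m+1) a, res (m+1) a', res (m+1) b, res (m+1) c} (lt_of_le_of_lt Finset.card_le_four (by omega))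
      simp only [Finset.mem_insert, Finset.mem_singleton, not_or] at hz
      -- first step
      obtain ⟨γ1, hγ1, p1, p2, p3⟩ : ∃ γ1 ∈ G.comap (ext (m+2)), γ1 a = sn (res (m+1) a') (a (Fin.last (m+1))) ∧
          γ1 b = b ∧ γ1 c = c := by
        by_cases haa : res (m+1) a = res (m+1) a'
        · exact ⟨1, one_mem _, by rw [← haa, sn_eta]; rfl, rfl, rfl⟩
        · obtain ⟨g, hg, hg'⟩ := hhat (c3 (res (m+1) a) (res (m+1) a') z) (c3_mem haa (Ne.symm hz.2.1))
          refine ⟨g, hg, ?_, ?_, ?_⟩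
          · conv_lhs => rw [← sn_eta a]
            rw [hg', c3_1 haa (Ne.symm hz.1)]
          · conv_lhs => rw [← sn_eta b]
            rw [hg', c3_fix (Ne.symm hab) (Ne.symm hab') (Ne.symm hz.2.2.1), sn_eta]
          · conv_lhs => rw [← sn_eta c]
            rw [hg', c3_fix (Ne.symm hac) (Ne.symm hac') (Ne.symm hz.2.2.2), sn_eta]
      -- second step
      obtain ⟨v, hv⟩ := fresh {res m (res (m+1) a'), res m (res (m+1) b), res m (res (m+1) c)}
        (lt_of_le_of_lt Finset.card_le_three (by omega))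
      obtain ⟨v', hv'⟩ := fresh {v, res m (res (m+1) a'), res m (res (m+1) b), res m (res (m+1) c)}
        (lt_of_le_of_lt Finset.card_le_four (by omega))
      simp only [Finset.mem_insert, Finset.mem_singleton, not_or] at hv hv'
      obtain ⟨h, π, hπ, hρ⟩ := hC1 m (a (Fin.last (m+1))) (a' (Fin.last (m+1)))
      obtain ⟨R1, hR1G, hR1⟩ := hRR h v v' (Ne.symm hv'.1)
      set q := sn v (t0 m) with hq
      obtain ⟨z2, hz2⟩ := fresh {q, res (m+1) a', res (m+1) b, res (m+1) c} (lt_of_le_of_lt Finset.card_le_four (by omega))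
      simp only [Finset.mem_insert, Finset.mem_singleton, not_or] at hz2
      have hqa : q ≠ res (m+1) a' := fun hc => hv.1 (by rw [← hc, hq, sn_res])
      have hqb : q ≠ res (m+1) b := fun hc => hv.2.1 (by rw [← hc, hq, sn_res])
      have hqc : q ≠ res (m+1) c := fun hc => hv.2.2 (by rw [← hc, hq, sn_res])
      obtain ⟨g, hg, hg'⟩ := hhat (c3 q (res (m+1) a') z2) (c3_mem hqa (Ne.symm hz2.2.1))
      have hfixb : ∀ d : S.V (m+2), res (m+1) d ≠ q → res (m+1) d ≠ res (m+1) a' → res (m+1) d ≠ z2 → g⁻¹ d = d := by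
        intro d d1 d2 d3
        have : g d = d := by
          conv_lhs => rw [← sn_eta d]
          rw [hg', c3_fix d1 d2 d3, sn_eta]
        conv_lhs => rw [← this]
        exact g.symm_apply_apply d
      have hR1fix : ∀ d : S.V (m+2), res m (res (m+1) d) ≠ v → res m (res (m+1) d) ≠ v' → R1 d = d := by
        intro d d1 d2
        conv_lhs => rw [eta d]
        rw [hR1]
        have : ps v v' h (res m (res (m+1) d)) = 1 := by simp only [ps]; rw [if_neg d1, if_neg d2]
        rw [this, map_one]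
        exact (eta d).symm
      have hgfix : ∀ d : S.V (m+2), res (m+1) d ≠ q → res (m+1) d ≠ res (m+1) a' → res (m+1) d ≠ z2 → g d = d := by
        intro d d1 d2 d3
        conv_lhs => rw [← sn_eta d]
        rw [hg', c3_fix d1 d2 d3, sn_eta]
      refine ⟨g * R1 * g⁻¹ * γ1, mul_mem (mul_mem (mul_mem hg hR1G) (inv_mem hg)) hγ1, ?_, ?_, ?_⟩
      · rw [Perm.mul_apply, p1, Perm.mul_apply, Perm.mul_apply]
        have e1 : g (sn q (a (Fin.last (m+1)))) = sn (res (m+1) a') (a (Fin.last (m+1))) := by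
          rw [hg', c3_1 hqa (Ne.symm hz2.1)]
        have e2 : g⁻¹ (sn (res (m+1) a') (a (Fin.last (m+1)))) = sn q (a (Fin.last (m+1))) := by
          rw [← e1]; exact g.symm_apply_apply _
        rw [e2, hq, hR1]
        have e3 : ps v v' h v = h := by simp [ps]
        rw [e3, hρ, if_pos (Or.inl rfl)]
        simp only
        rw [hπ, ← hq, hg', c3_1 hqa (Ne.symm hz2.1), sn_eta]
      · rw [Perm.mul_apply, p2, Perm.mul_apply, Perm.mul_apply, hfixb b (Ne.symm hqb) (Ne.symm hab') (Ne.symm hz2.2.2.1),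
          hR1fix b (Ne.symm hv.2.1) (Ne.symm hv'.2.2.1), hgfix b (Ne.symm hqb) (Ne.symm hab') (Ne.symm hz2.2.2.1)]
      · rw [Perm.mul_apply, p3, Perm.mul_apply, Perm.mul_apply, hfixb c (Ne.symm hqc) (Ne.symm hac') (Ne.symm hz2.2.2.2),
          hR1fix c (Ne.symm hv.2.2) (Ne.symm hv'.2.2.2), hgfix c (Ne.symm hqc) (Ne.symm hac') (Ne.symm hz2.2.2.2)]
    · show res (m+1) (sn (sn u (t1 m)) a0) ≠ res (m+1) (sn (sn u (t0 m)) a0)
      rw [sn_res, sn_res]; exact Ne.symm c1
    · show res (m+1) (sn (sn u (t1 m)) a0) ≠ res (m+1) (sn w1 a0)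
      rw [sn_res, sn_res]; exact Ne.symm a2
    · show res (m+1) (sn (sn u (t0 m)) a0) ≠ res (m+1) (sn w1 a0)
      rw [sn_res, sn_res]; exact Ne.symm a1
  exact fun f hf => key hf

include ht01 hC1 hC2 in
/-- everything is generated by the first levels -/
theorem gen_all (hX : ∀ k, 9 ≤ Fintype.card (S.X k)) (hV : ∀ n, 9 ≤ Fintype.card (S.V (n+1)))
    (T : Set S.H) (hT : Subgroup.closure T = ⊤) {u u' : S.V 1} (huu : u ≠ u')
    (h1 : ∀ f ∈ alternatingGroup (S.V 1), ext 1 f ∈ G)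
    (h2 : ∀ f ∈ alternatingGroup (S.V 2), ext 2 f ∈ G) (h3 : ∀ s ∈ T, pp 1 u u' s ∈ G) (n : ℕ) :
    (∀ f ∈ alternatingGroup (S.V (n+2)), ext (n+2) f ∈ G) ∧ (∀ h, ∀ v v' : S.V (n+1), v ≠ v' → pp (n+1) v v' h ∈ G) := by
  induction n with
  | zero =>
    refine ⟨h2, gen_H (hV 0) T hT fun s hs => spread h1 (hV 0) s huu (h3 s hs)⟩
  | succ n ih =>
    obtain ⟨ihA, ihB⟩ := ih
    have hB' : ∀ h, ∀ v v' : S.V (n+2), v ≠ v' → pp (n+2) v v' h ∈ G :=
      fun h => step_B (hV n) (hV (n+1)) (hX _) ihA ihB h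
    exact ⟨step_A t0 t1 ht01 hC1 hC2 (hV n) (hV (n+1)) (hX _) ihA ihB hB', hB'⟩

end

end Pool.Agent.Helper889.Si
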