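import Mathlib
import Pool.Agent.Helper889.Si.Amen
import Pool.Agent.Helper889.Si.Gen

set_option autoImplicit false
set_option linter.unusedSectionVars false
set_option linter.unusedVariables false

namespace Pool.Agent.Helper889.Si

open Equiv Equiv.Perm

variable {S : Sys}

/-- even permutations stay even on longer words -/
theorem alt_le {n m : ℕ} (hnm : n ≤ m) {f : Perm (S.V n)} (hf : f ∈ alternatingGroup (S.V n)) :
    ∃ g ∈ alternatingGroup (S.V m), ext n f = ext m g := by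
  rw [← closure_three_cycles_eq_alternating] at hf
  induction hf using Subgroup.closure_induction with
  | mem f hf =>
    have hf' : f.IsThreeCycle := hf
    obtain ⟨g, hg⟩ := ext_le hnm (f * f)
    refine ⟨g * g, ?_, ?_⟩
    · rw [mem_alternatingGroup, Perm.sign_mul]
      exact Int.units_mul_self _
    · have h3 : f ^ 3 = 1 := by rw [← hf'.orderOf]; exact pow_orderOf_eq_one f
      have h4 : f = (f * f) * (f * f) := by
        calc f = f ^ 3 * f := by rw [h3, one_mul]
          _ = (f * f) * (f * f) := by simp only [pow_succ, pow_zero, one_mul, mul_assoc]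
      rw [map_mul, ← hg, ← map_mul, ← h4]
  | one => exact ⟨1, one_mem _, by rw [map_one, map_one]⟩
  | mul a b _ _ iha ihb =>
    obtain ⟨g, hg, hg'⟩ := iha
    obtain ⟨g2, hg2, hg2'⟩ := ihb
    exact ⟨g * g2, mul_mem hg hg2, by rw [map_mul, map_mul, hg', hg2']⟩
  | inv a _ iha =>
    obtain ⟨g, hg, hg'⟩ := iha
    exact ⟨g⁻¹, inv_mem hg, by rw [map_inv, map_inv, hg']⟩

/-- continuity -/
def Cont (g : Perm S.Bd) : Prop := ∀ x : S.Bd, ∀ i, ∃ m, ∀ z : S.Bd, pre m z = pre m x → g z i = g x i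

theorem Cont_pre {g : Perm S.Bd} (hg : Cont g) (x : S.Bd) (n : ℕ) : ∃ m, ∀ z : S.Bd, pre m z = pre m x → pre n (g z) = pre n (g x) := by
  induction n with
  | zero => exact ⟨0, fun z _ => funext fun i => i.elim0⟩
  | succ n ih =>
    obtain ⟨m, hm⟩ := ih
    obtain ⟨m', hm'⟩ := hg x n
    refine ⟨max m m', fun z hz => ?_⟩
    rw [← sn_pre, ← sn_pre, hm z (pre_mono (le_max_left _ _) hz), hm' z (pre_mono (le_max_right _ _) hz)]

theorem Cont_FF {g : Perm S.Bd} (hg : g ∈ FF S) : Cont g ∧ Cont g⁻¹ := by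
  unfold FF at hg
  have hD : ∀ h, Cont (Dz (S := S) h) := by
    intro h x i
    refine ⟨i + 2, fun z hz => ?_⟩
    have hz' := pre_eq_iff.1 hz
    rw [Dz_apply, Dz_apply]
    by_cases he : ∃ k, k ≤ i ∧ S.Sg 0 k x
    · obtain ⟨k, hk, hs⟩ := he
      have hs' : S.Sg 0 k z := (Sg_congr fun j _ hj => hz' j (by omega)).2 hs
      by_cases h1 : i = k
      · subst h1; rw [dirPt_fst _ hs, dirPt_fst _ hs', hz' _ (by omega), hz' _ (by omega)]
      · by_cases h2 : i = k + 1
        · subst h2; rw [dirPt_snd _ hs, dirPt_snd _ hs', hz' _ (by omega), hz' _ (by omega)]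
        · rw [dirPt_other _ hs h1 h2, dirPt_other _ hs' h1 h2, hz' _ (by omega)]
    · push Not at he
      rw [dirPt_oth, dirPt_oth, hz' _ (by omega)]
      · intro k hs
        have : ¬ k ≤ i := fun hk => he k hk hs
        omega
      · intro k hs
        have : ¬ k ≤ i := fun hk => he k hk ((Sg_congr fun j _ hj => hz' j (by omega)).1 hs)
        omega
  have hE : ∀ M, ∀ f : Perm (S.V M), Cont (ext M f) := by
    intro M f x i
    refine ⟨max M (i+1), fun z hz => ?_⟩
    by_cases hi : i < M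
    · rw [ext_lt _ _ hi, ext_lt _ _ hi, pre_mono (le_max_left _ _) hz]
    · rw [ext_ge _ _ (by omega), ext_ge _ _ (by omega)]
      exact pre_eq_iff.1 hz i (by omega)
  induction hg using Subgroup.closure_induction with
  | mem g hg =>
    rcases hg with ⟨h, rfl⟩ | hg
    · exact ⟨hD h, by rw [← map_inv]; exact hD h⁻¹⟩
    · obtain ⟨M, f, rfl⟩ := Set.mem_iUnion.1 hg
      exact ⟨hE M f, by rw [← map_inv]; exact hE M f⁻¹⟩
  | one =>
    rw [inv_one]
    have : Cont (1 : Perm S.Bd) := fun x i => ⟨i+1, fun z hz => pre_eq_iff.1 hz i (by omega)⟩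
    exact ⟨this, this⟩
  | mul a b _ _ iha ihb =>
    have key : ∀ {a b : Perm S.Bd}, Cont a → Cont b → Cont (a * b) := by
      intro a b ha hb x i
      obtain ⟨m, hm⟩ := ha (b x) i
      obtain ⟨m', hm'⟩ := Cont_pre hb x m
      exact ⟨m', fun z hz => hm (b z) (hm' z hz)⟩
    rw [mul_inv_rev]
    exact ⟨key iha.1 ihb.1, key ihb.2 iha.2⟩
  | inv a _ iha =>
    rw [inv_inv]
    exact iha.symm

/-- infinitely many letters are different from `o` -/
def Gen (x : S.Bd) : Prop := ∀ n, ∃ k, n ≤ k ∧ x k ≠ S.o k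

/-- local description at generic points -/
def LT (g : Perm S.Bd) (x : S.Bd) (n : ℕ) : Prop :=
  ∀ z : S.Bd, pre n z = pre n x → pre n (g z) = pre n (g x) ∧ ∀ i, n ≤ i → g z i = z i

theorem LT_mono {g : Perm S.Bd} {x : S.Bd} {n m : ℕ} (h : LT g x n) (hnm : n ≤ m) : LT g x m := by
  intro z hz
  obtain ⟨h1, h2⟩ := h z (pre_mono hnm hz)
  refine ⟨?_, fun i hi => h2 i (by omega)⟩
  rw [pre_eq_iff] at hz h1 ⊢
  intro i hi
  by_cases hin : i < n
  · exact h1 i hin
  · rw [h2 i (by omega), hz i hi, (h x rfl).2 i (by omega)]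

theorem LT_gen {g : Perm S.Bd} {x : S.Bd} {n : ℕ} (h : LT g x n) (hx : Gen x) : Gen (g x) := by
  intro m
  obtain ⟨k, hk, hk'⟩ := hx (max n m)
  refine ⟨k, by omega, ?_⟩
  rw [(h x rfl).2 k (by omega)]
  exact hk'

theorem LT_mul {a b : Perm S.Bd} {x : S.Bd} {n m : ℕ} (hb : LT b x n) (ha : LT a (b x) m) : LT (a * b) x (max n m) := by
  intro z hz
  obtain ⟨h1, h2⟩ := LT_mono hb (le_max_left n m) z hz
  obtain ⟨h3, h4⟩ := LT_mono ha (le_max_right n m) (b z) h1
  exact ⟨h3, fun i hi => by rw [Perm.mul_apply, h4 i hi, h2 i hi]⟩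

theorem LT_FF {g : Perm S.Bd} (hg : g ∈ FF S) : ∀ x : S.Bd, Gen x → (∃ n, LT g x n) ∧ (∃ n, LT g⁻¹ x n) := by
  classical
  unfold FF at hg
  have hD : ∀ h (x : S.Bd), Gen x → ∃ n, LT (Dz (S := S) h) x n := by
    intro h x hx
    have hex : ∃ k, x k ≠ S.o k := by
      obtain ⟨k, _, hk⟩ := hx 0
      exact ⟨k, hk⟩
    set k := Nat.find hex
    have hs : S.Sg 0 k x := ⟨Nat.zero_le _, Nat.find_spec hex, fun j _ hj => by
      have := Nat.find_min hex hj
      push Not at this
      exact this⟩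
    refine ⟨k + 2, fun z hz => ?_⟩
    have hz' := pre_eq_iff.1 hz
    have hs' : S.Sg 0 k z := (Sg_congr fun j _ hj => hz' j (by omega)).2 hs
    rw [Dz_apply, Dz_apply, pre_eq_iff]
    refine ⟨fun i hi => ?_, fun i hi => dirPt_other _ hs' (by omega) (by omega)⟩
    by_cases h1 : i = k
    · subst h1; rw [dirPt_fst _ hs, dirPt_fst _ hs', hz' _ (by omega), hz' _ (by omega)]
    · by_cases h2 : i = k + 1
      · subst h2; rw [dirPt_snd _ hs, dirPt_snd _ hs', hz' _ (by omega), hz' _ (by omega)]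
      · rw [dirPt_other _ hs h1 h2, dirPt_other _ hs' h1 h2, hz' _ (by omega)]
  have hE : ∀ M, ∀ f : Perm (S.V M), ∀ x : S.Bd, ∃ n, LT (ext M f) x n := by
    intro M f x
    exact ⟨M, fun z hz => ⟨by rw [pre_ext, pre_ext, hz], fun i hi => ext_ge _ _ hi⟩⟩
  induction hg using Subgroup.closure_induction with
  | mem g hg =>
    intro x hx
    rcases hg with ⟨h, rfl⟩ | hg
    · exact ⟨hD h x hx, by rw [← map_inv]; exact hD h⁻¹ x hx⟩
    · obtain ⟨M, f, rfl⟩ := Set.mem_iUnion.1 hg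
      exact ⟨hE M f x, by rw [← map_inv]; exact hE M f⁻¹ x⟩
  | one =>
    intro x _
    rw [inv_one]
    have : ∃ n, LT (1 : Perm S.Bd) x n := ⟨0, fun z _ => ⟨funext fun i => i.elim0, fun i _ => rfl⟩⟩
    exact ⟨this, this⟩
  | mul a b _ _ iha ihb =>
    intro x hx
    constructor
    · obtain ⟨n, hn⟩ := (ihb x hx).1
      obtain ⟨m, hm⟩ := (iha _ (LT_gen hn hx)).1
      exact ⟨_, LT_mul hn hm⟩
    · rw [mul_inv_rev]
      obtain ⟨n, hn⟩ := (iha x hx).2
      obtain ⟨m, hm⟩ := (ihb _ (LT_gen hn hx)).2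
      exact ⟨_, LT_mul hn hm⟩
  | inv a _ iha =>
    intro x hx
    rw [inv_inv]
    exact (iha x hx).symm

theorem exists_move {g : Perm S.Bd} (hg : g ∈ FF S) (hne : g ≠ 1) (hX : ∀ k, 9 ≤ Fintype.card (S.X k)) :
    ∃ (k : ℕ) (w w' : S.V k), w ≠ w' ∧ ∀ z : S.Bd, pre k z = w → pre k (g z) = w' ∧ ∀ i, k ≤ i → g z i = z i := by
  obtain ⟨x0, hx0⟩ : ∃ x0, g x0 ≠ x0 := by
    by_contra hcon
    push Not at hcon
    exact hne (Equiv.ext hcon)
  obtain ⟨i0, hi0⟩ : ∃ i, g x0 i ≠ x0 i := by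
    by_contra hcon
    push Not at hcon
    exact hx0 (funext hcon)
  have hno : ∀ k, ∃ y, y ≠ S.o k := by
    intro k
    obtain ⟨y, hy⟩ := fresh {S.o k} (by rw [Finset.card_singleton]; have := hX k; omega)
    exact ⟨y, by simpa using hy⟩
  choose ne hne' using hno
  obtain ⟨m, hm⟩ := (Cont_FF hg).1 x0 i0
  set x : S.Bd := fun i => if i < max m (i0+1) then x0 i else ne i with hx
  have hpx : pre m x = pre m x0 := by
    rw [pre_eq_iff]
    intro i hi
    rw [hx]; simp only
    rw [if_pos (by omega)]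
  have hxi : x i0 = x0 i0 := by
    rw [hx]; simp only
    rw [if_pos (by omega)]
  have hmv : g x i0 ≠ x i0 := by
    rw [hm x hpx, hxi]; exact hi0
  have hgen : Gen x := by
    intro n
    refine ⟨max n (max m (i0+1)), by omega, ?_⟩
    rw [hx]; simp only
    rw [if_neg (by omega)]
    exact hne' _
  obtain ⟨n, hn⟩ := (LT_FF hg x hgen).1
  have hn' := LT_mono hn (le_max_left n (i0+1))
  refine ⟨max n (i0+1), pre _ x, pre _ (g x), fun hc => ?_, fun z hz => hn' z hz⟩
  exact hmv (pre_eq_iff.1 hc i0 (by omega)).symm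

theorem card_V (hX : ∀ k, 9 ≤ Fintype.card (S.X k)) (n : ℕ) : 9 ≤ Fintype.card (S.V (n+1)) := by
  refine (hX 0).trans ?_
  refine Fintype.card_le_of_injective (fun y : S.X 0 => pre (n+1) (Function.update (oo (S := S)) 0 y)) ?_
  intro y y' h
  have := pre_eq_iff.1 h 0 (by omega)
  rwa [Function.update_self, Function.update_self] at this

/-- normal subgroups of the group -/
theorem normal_top (G : Subgroup (Perm S.Bd)) (hGF : G ≤ FF S) (hX : ∀ k, 9 ≤ Fintype.card (S.X k))
    (hA : ∀ n, ∀ f ∈ alternatingGroup (S.V (n+1)), ext (n+1) f ∈ G)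
    (hB : ∀ h, ∀ v v' : S.V 1, v ≠ v' → pp 1 v v' h ∈ G)
    {T : Set S.H} {u u' : S.V 1} (huu : u ≠ u')
    (hG : G ≤ Subgroup.closure ((ext 2 '' (alternatingGroup (S.V 2) : Set (Perm (S.V 2)))) ∪ (pp 1 u u' '' T)))
    (N : Subgroup (Perm S.Bd)) (hNG : N ≤ G) (hN : ∀ g ∈ G, ∀ n ∈ N, g * n * g⁻¹ ∈ N) (hne : ∃ n ∈ N, n ≠ 1) :
    G ≤ N := by
  obtain ⟨g, hgN, hg1⟩ := hne
  obtain ⟨k, w, w', hww, hgw⟩ := exists_move (hGF (hNG hgN)) hg1 hX
  obtain ⟨y1, _⟩ := fresh (∅ : Finset (S.X k)) (by rw [Finset.card_empty]; have := hX k; omega)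
  obtain ⟨y2, hy2⟩ := fresh {y1} (by rw [Finset.card_singleton]; have := hX k; omega)
  obtain ⟨y3, hy3⟩ := fresh {y1, y2} (lt_of_le_of_lt Finset.card_le_two (by have := hX k; omega))
  simp only [Finset.mem_insert, Finset.mem_singleton, not_or] at hy2 hy3
  have snne : ∀ {v : S.V k} {y y' : S.X k}, y ≠ y' → sn v y ≠ sn v y' := fun h hc => h (sn_inj hc).2
  set c : S.V k → Perm (S.V (k+1)) := fun v => c3 (sn v y1) (sn v y2) (sn v y3) with hc
  have hcA : ∀ v, c v ∈ alternatingGroup (S.V (k+1)) := fun v =>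
    c3_mem (snne (Ne.symm hy2)) (snne (Ne.symm hy3.2))
  -- action of the three-cycles
  have c_in : ∀ v y, c v (sn v y) = sn v (c3 y1 y2 y3 y) := by
    intro v y
    simp only [hc]
    by_cases h1 : y = y1
    · rw [h1, c3_1 (snne (Ne.symm hy2)) (snne (Ne.symm hy3.1)), c3_1 (Ne.symm hy2) (Ne.symm hy3.1)]
    · by_cases h2 : y = y2
      · rw [h2, c3_2 (snne (Ne.symm hy3.1)) (snne (Ne.symm hy3.2)), c3_2 (Ne.symm hy3.1) (Ne.symm hy3.2)]
      · by_cases h3 : y = y3
        · rw [h3, c3_3, c3_3]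
        · rw [c3_fix (snne h1) (snne h2) (snne h3), c3_fix h1 h2 h3]
  have c_out : ∀ v v' y, v' ≠ v → c v (sn v' y) = sn v' y := by
    intro v v' y hv
    exact c3_fix (fun hc => hv (sn_inj hc).1) (fun hc => hv (sn_inj hc).1) (fun hc => hv (sn_inj hc).1)
  have hnot : ∀ x : S.Bd, pre k x ≠ w → pre k (g x) ≠ w' := by
    intro x hx hc
    apply hx
    set x' : S.Bd := fun i => if hi : i < k then w ⟨i, hi⟩ else g x i with hx'
    have hpx' : pre k x' = w := by
      funext i
      show x' i = w i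
      rw [hx']; simp only
      rw [dif_pos i.2]
    obtain ⟨h1, h2⟩ := hgw x' hpx'
    have : g x' = g x := by
      refine eq_of_pre_of_ge (n := k) (by rw [h1, hc]) fun i hi => ?_
      rw [h2 i hi, hx']; simp only
      rw [dif_neg (by omega)]
    rw [← g.injective this, hpx']
  have hconj : g * ext (k+1) (c w) * g⁻¹ = ext (k+1) (c w') := by
    have : g * ext (k+1) (c w) = ext (k+1) (c w') * g := by
      ext x : 1
      rw [Perm.mul_apply, Perm.mul_apply]
      by_cases hx : pre k x = w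
      · have e1 : pre (k+1) (ext (k+1) (c w) x) = sn w (c3 y1 y2 y3 (x k)) := by
          rw [pre_ext, ← sn_pre, hx, c_in]
        have e2 : pre k (ext (k+1) (c w) x) = w := by
          rw [← res_pre, e1, sn_res]
        have e3 : (ext (k+1) (c w) x) k = c3 y1 y2 y3 (x k) := by
          have := congrFun e1 (Fin.last k)
          rw [sn_last] at this
          exact this
        obtain ⟨a1, a2⟩ := hgw x hx
        obtain ⟨b1, b2⟩ := hgw _ e2
        refine eq_of_pre_of_ge (n := k+1) ?_ fun i hi => ?_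
        · rw [pre_ext, ← sn_pre (g x), a1, a2 k le_rfl, c_in, ← sn_pre, b1, b2 k le_rfl, e3]
        · rw [b2 i (by omega), ext_ge _ _ hi, ext_ge _ _ hi, a2 i (by omega)]
      · have e1 : ext (k+1) (c w) x = x := by
          refine eq_of_pre_of_ge (n := k+1) ?_ fun i hi => ext_ge _ _ hi
          rw [pre_ext, ← sn_pre, c_out _ _ _ hx]
        have e2 : ext (k+1) (c w') (g x) = g x := by
          refine eq_of_pre_of_ge (n := k+1) ?_ fun i hi => ext_ge _ _ hi
          rw [pre_ext, ← sn_pre, c_out _ _ _ (hnot x hx)]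
        rw [e1, e2]
    rw [this, mul_assoc, mul_inv_cancel, mul_one]
  -- a finitary element in `N`
  have hfin : ext (k+1) (c w' * (c w)⁻¹) ∈ N := by
    have e : ext (k+1) (c w' * (c w)⁻¹) = g * (ext (k+1) (c w) * g⁻¹ * (ext (k+1) (c w))⁻¹) := by
      rw [map_mul, map_inv, ← hconj]; group
    rw [e]
    exact mul_mem hgN (hN _ (hA k _ (hcA w)) _ (inv_mem hgN))
  have hfin1 : c w' * (c w)⁻¹ ≠ 1 := by
    intro h
    have h1 : c w' = c w := by rwa [mul_inv_eq_one] at h
    have h2 : c w (sn w y1) = sn w y2 := by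
      simp only [hc]
      exact c3_1 (snne (Ne.symm hy2)) (snne (Ne.symm hy3.1))
    rw [← h1, c_out _ _ _ hww] at h2
    exact (snne (Ne.symm hy2)) h2
  -- all alternating groups lie in `N`
  have hlarge : ∀ m, k + 1 ≤ m → ∀ f ∈ alternatingGroup (S.V m), ext m f ∈ N := by
    intro m hm
    obtain ⟨m, rfl⟩ : ∃ j, m = j + 1 := ⟨m - 1, by omega⟩
    have hcard : 5 ≤ Nat.card (S.V (m+1)) := by
      rw [Nat.card_eq_fintype_card]
      exact (by norm_num : 5 ≤ 9).trans (card_V hX m)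
    have := alternatingGroup.isSimpleGroup (α := S.V (m+1)) hcard
    set M : Subgroup (alternatingGroup (S.V (m+1))) := (N.comap (ext (m+1))).subgroupOf (alternatingGroup (S.V (m+1))) with hM
    have hMn : M.Normal := by
      constructor
      intro n hn f
      rw [hM, Subgroup.mem_subgroupOf, Subgroup.mem_comap] at hn ⊢
      rw [Subgroup.coe_mul, Subgroup.coe_mul, map_mul, map_mul, Subgroup.coe_inv, map_inv]
      exact hN _ (hA m _ f.2) _ hn
    rcases hMn.eq_bot_or_eq_top with h | h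
    · exfalso
      obtain ⟨f, hf, hf'⟩ := alt_le hm (mul_mem (hcA w') (inv_mem (hcA w)))
      have h1 : (⟨f, hf⟩ : alternatingGroup (S.V (m+1))) ∈ M := by
        rw [hM, Subgroup.mem_subgroupOf, Subgroup.mem_comap, ← hf']
        exact hfin
      rw [h, Subgroup.mem_bot] at h1
      have h2 : f = 1 := congrArg Subtype.val h1
      rw [h2, map_one] at hf'
      apply hfin1
      apply ext_inj
      rw [hf', map_one]
    · intro f hf
      have h1 : (⟨f, hf⟩ : alternatingGroup (S.V (m+1))) ∈ M := by rw [h]; exact Subgroup.mem_top _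
      rw [hM, Subgroup.mem_subgroupOf, Subgroup.mem_comap] at h1
      exact h1
  have hall : ∀ m, ∀ f ∈ alternatingGroup (S.V m), ext m f ∈ N := by
    intro m f hf
    obtain ⟨f', hf', he⟩ := alt_le (le_max_left m (k+1)) hf
    rw [he]
    exact hlarge _ (le_max_right m (k+1)) f' hf'
  refine hG.trans ?_
  rw [Subgroup.closure_le]
  rintro _ (⟨f, hf, rfl⟩ | ⟨s, _, rfl⟩)
  · exact hall 2 f hf
  · have hc1 : 9 ≤ Fintype.card (S.V 1) := card_V hX 0
    obtain ⟨z, hz⟩ := fresh {u, u'} (lt_of_le_of_lt Finset.card_le_two (by omega))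
    obtain ⟨z', hz'⟩ := fresh {u, u', z} (lt_of_le_of_lt Finset.card_le_three (by omega))
    simp only [Finset.mem_insert, Finset.mem_singleton, not_or] at hz hz'
    set f : Perm (S.V 1) := c3 u u' z' with hf
    have hfN : ext 1 f ∈ N := hall 1 f (c3_mem huu (Ne.symm hz'.2.1))
    have hg1 : pp 1 u z s ∈ G := hB s u z (Ne.symm hz.1)
    have e1 : ext 1 f * pp 1 u z s * (ext 1 f)⁻¹ = pp 1 u' z s := by
      rw [pp_conj, hf, c3_1 huu (Ne.symm hz'.1), c3_fix hz.1 hz.2 (Ne.symm hz'.2.2)]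
    have e2 : pp 1 u u' s = pp 1 u z s * (pp 1 u' z s)⁻¹ := by
      unfold pp
      rw [← map_inv, ← map_mul]
      congr 1
      funext v
      simp only [ps, Pi.mul_apply, Pi.inv_apply]
      by_cases h1 : v = u
      · subst h1
        rw [if_pos rfl, if_pos rfl, if_neg huu, if_neg (Ne.symm hz.1), inv_one, mul_one]
      · by_cases h2 : v = u'
        · subst h2
          rw [if_neg h1, if_pos rfl, if_neg h1, if_neg (Ne.symm hz.2), if_pos rfl, one_mul]
        · by_cases h3 : v = z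
          · subst h3
            rw [if_neg h1, if_neg h2, if_neg h1, if_pos rfl, if_neg h2, mul_inv_cancel]
          · simp [h1, h2, h3]
    have e3 : pp 1 u u' s = (pp 1 u z s * ext 1 f * (pp 1 u z s)⁻¹) * (ext 1 f)⁻¹ := by
      rw [e2, ← e1]; group
    rw [e3]
    exact mul_mem (hN _ hg1 _ hfN) (inv_mem hfN)

end Pool.Agent.Helper889.Si
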