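import Mathlib
import Pool.Agent.Helper889.Si.Simple

set_option autoImplicit false
set_option linter.unusedSectionVars false
set_option linter.unusedVariables false

namespace Pool.Agent.Helper889.Si

open Equiv

variable {S : Sys}

/-- `g` has germ `h` at `x`, seen from level `n` on -/
def GermAt (g : Equiv.Perm S.Bd) (x : S.Bd) (h : S.H) (n : ℕ) : Prop :=
  (∀ i, n ≤ i → x i = S.o i) ∧ (∀ i, n ≤ i → g x i = S.o i) ∧
    ∀ z : S.Bd, (∀ i < n, z i = x i) → g z = fun i => if i < n then g x i else S.dirPt n h z i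

theorem GermAt_succ {g : Equiv.Perm S.Bd} {x : S.Bd} {h : S.H} {n : ℕ} (hg : GermAt g x h n) : GermAt g x h (n+1) := by
  obtain ⟨h1, h2, h3⟩ := hg
  refine ⟨fun i hi => h1 i (by omega), fun i hi => h2 i (by omega), fun z hz => ?_⟩
  rw [h3 z (fun i hi => hz i (by omega))]
  have hzn : z n = S.o n := by rw [hz n (by omega), h1 n le_rfl]
  funext i
  by_cases hi : i < n
  · rw [if_pos hi, if_pos (by omega)]
  · rw [if_neg hi]
    by_cases hi' : i < n + 1
    · have : i = n := by omega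
      subst this
      rw [if_pos hi', dirPt_shift h hzn, dirPt_lt h z (by omega), hzn, h2 _ le_rfl]
    · rw [if_neg hi', dirPt_shift h hzn]

theorem GermAt_mono {g : Equiv.Perm S.Bd} {x : S.Bd} {h : S.H} {n m : ℕ} (hg : GermAt g x h n) (hnm : n ≤ m) :
    GermAt g x h m := by
  induction m, hnm using Nat.le_induction with
  | base => exact hg
  | succ m _ ih => exact GermAt_succ ih

theorem Germ_unique (hf : ∀ h : S.H, h ≠ 1 → ∀ n, ∃ k, n ≤ k ∧ S.ρ k h ≠ 1) {g : Equiv.Perm S.Bd} {x : S.Bd}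
    {h h' : S.H} {n n' : ℕ} (hg : GermAt g x h n) (hg' : GermAt g x h' n') : h = h' := by
  by_contra hne
  have a1 := GermAt_mono hg (le_max_left n n')
  have a2 := GermAt_mono hg' (le_max_right n n')
  set m := max n n'
  obtain ⟨k, hk, hρ⟩ := hf (h⁻¹ * h') (fun hc => hne (inv_mul_eq_one.1 hc)) m
  obtain ⟨⟨a, b⟩, hy⟩ : ∃ y, S.ρ k (h⁻¹ * h') y ≠ y := by
    by_contra hcon
    push Not at hcon
    exact hρ (Equiv.ext hcon)
  have hao : a ≠ S.o k := by
    rintro rfl
    exact hy (S.ρo _ _ _)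
  set z : S.Bd := Function.update (Function.update (fun i => if i < m then x i else S.o i) k a) (k+1) b with hz
  have hzm : ∀ i < m, z i = x i := fun i hi => by
    rw [hz, Function.update_of_ne (by omega), Function.update_of_ne (by omega), if_pos hi]
  have z1 : z k = a := by rw [hz, Function.update_of_ne (by omega), Function.update_self]
  have z2 : z (k+1) = b := by rw [hz, Function.update_self]
  have hs : S.Sg m k z := by
    refine ⟨hk, by rw [z1]; exact hao, fun j hj hjk => ?_⟩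
    rw [hz, Function.update_of_ne (by omega), Function.update_of_ne (by omega), if_neg (by omega)]
  have e1 := a1.2.2 z hzm
  have e2 := a2.2.2 z hzm
  have f1 := congrFun (e1.symm.trans e2) k
  have f2 := congrFun (e1.symm.trans e2) (k+1)
  rw [if_neg (by omega), if_neg (by omega), dirPt_fst _ hs, dirPt_fst _ hs, z1, z2] at f1
  rw [if_neg (by omega), if_neg (by omega), dirPt_snd _ hs, dirPt_snd _ hs, z1, z2] at f2
  have f3 : S.ρ k h (a, b) = S.ρ k h' (a, b) := Prod.ext f1 f2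
  apply hy
  rw [map_mul, Equiv.Perm.mul_apply, ← f3, map_inv]
  exact (S.ρ k h).symm_apply_apply _

theorem Germ_mul {g g' : Equiv.Perm S.Bd} {x : S.Bd} {h h' : S.H} {n n' : ℕ} (hg : GermAt g x h n)
    (hg' : GermAt g' (g x) h' n') : GermAt (g' * g) x (h' * h) (max n n') := by
  obtain ⟨a1, a2, a3⟩ := GermAt_mono hg (le_max_left n n')
  obtain ⟨b1, b2, b3⟩ := GermAt_mono hg' (le_max_right n n')
  set m := max n n'
  refine ⟨a1, b2, fun z hz => ?_⟩
  have e1 := a3 z hz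
  rw [Equiv.Perm.mul_apply, b3 (g z) (fun i hi => by rw [e1]; simp only; rw [if_pos hi])]
  funext i
  by_cases hi : i < m
  · rw [if_pos hi, if_pos hi]; rfl
  · rw [if_neg hi, if_neg hi, ← dirPt_mul]
    refine dirPt_congr _ (fun j hj => ?_) (by omega)
    rw [e1]; simp only
    rw [if_neg (by omega)]

theorem Germ_one {x : S.Bd} {n : ℕ} (hx : ∀ i, n ≤ i → x i = S.o i) : GermAt (1 : Equiv.Perm S.Bd) x 1 n := by
  refine ⟨hx, hx, fun z hz => ?_⟩
  funext i
  rw [dirPt_one]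
  split_ifs with hi
  · exact hz i hi
  · rfl

theorem Germ_ext {M : ℕ} (f : Equiv.Perm (S.V M)) {x : S.Bd} {n : ℕ} (hn : M ≤ n) (hx : ∀ i, n ≤ i → x i = S.o i) :
    GermAt (ext M f) x 1 n := by
  refine ⟨hx, fun i hi => ?_, fun z hz => ?_⟩
  · rw [ext_ge _ _ (by omega), hx i hi]
  · funext i
    rw [dirPt_one]
    by_cases hi : i < n
    · rw [if_pos hi]
      have hp : pre M z = pre M x := by rw [pre_eq_iff]; exact fun j hj => hz j (by omega)
      by_cases hiM : i < M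
      · rw [ext_lt _ _ hiM, ext_lt _ _ hiM, hp]
      · rw [ext_ge _ _ (by omega), ext_ge _ _ (by omega), hz i hi]
    · rw [if_neg hi, ext_ge _ _ (by omega)]

/-- germs of elements of the base groups -/
theorem Germ_DD_eq (n : ℕ) (φ : S.V n → S.H) (v : S.V n) : GermAt (DD n φ) (up n v) (φ v) n := by
  have e : DD n φ (up n v) = up n v := by
    rw [DD_apply, pre_up]
    refine dirPt_none _ fun k hk => ?_
    exact hk.2.1 (up_ge v hk.1)
  refine ⟨fun i hi => up_ge v hi, fun i hi => by rw [e]; exact up_ge v hi, fun z hz => ?_⟩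
  have hp : pre n z = v := by
    rw [← pre_up n v, pre_eq_iff]; exact hz
  rw [e, DD_apply, hp]
  funext i
  by_cases hi : i < n
  · rw [if_pos hi, dirPt_lt _ _ hi]; exact hz i hi
  · rw [if_neg hi]

theorem Germ_DD_ne (n : ℕ) (φ : S.V n → S.H) {x : S.Bd} {N : ℕ} (hx : ∀ i, N ≤ i → x i = S.o i)
    (hne : x ≠ up n (pre n x)) : ∃ m, GermAt (DD n φ) x 1 m := by
  classical
  obtain ⟨K, hK, hK'⟩ : ∃ K, n ≤ K ∧ x K ≠ S.o K := by
    by_contra hcon
    push Not at hcon
    apply hne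
    funext i
    by_cases hi : i < n
    · rw [up_lt _ hi]; rfl
    · rw [up_ge _ (by omega)]; exact hcon i (by omega)
  have hex : ∃ k, n ≤ k ∧ x k ≠ S.o k := ⟨K, hK, hK'⟩
  set k := Nat.find hex
  have hs : S.Sg n k x := ⟨(Nat.find_spec hex).1, (Nat.find_spec hex).2, fun j h1 hj => by
    have := Nat.find_min hex hj
    push Not at this
    exact this h1⟩
  have hkn := hs.1
  set m := max N (k+2) with hm
  refine ⟨m, fun i hi => hx i (by omega), fun i hi => ?_, fun z hz => ?_⟩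
  · rw [DD_apply, dirPt_other _ hs (by omega) (by omega)]
    exact hx i (by omega)
  · have hp : pre n z = pre n x := by rw [pre_eq_iff]; exact fun i hi => hz i (by omega)
    have hs' : S.Sg n k z := (Sg_congr fun j _ hj => hz j (by omega)).2 hs
    funext i
    rw [dirPt_one, DD_apply, DD_apply, hp]
    by_cases hi : i < m
    · rw [if_pos hi]
      by_cases h1 : i = k
      · rw [h1, dirPt_fst _ hs, dirPt_fst _ hs', hz _ (by omega), hz _ (by omega)]
      · by_cases h2 : i = k + 1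
        · rw [h2, dirPt_snd _ hs, dirPt_snd _ hs', hz _ (by omega), hz _ (by omega)]
        · rw [dirPt_other _ hs h1 h2, dirPt_other _ hs' h1 h2, hz _ hi]
    · rw [if_neg hi, dirPt_other _ hs' (by omega) (by omega)]

theorem Germ_exists_aux {g : Equiv.Perm S.Bd} (hg : g ∈ FF S) : ∀ x : S.Bd, (∃ n, ∀ i, n ≤ i → x i = S.o i) →
    (∃ h n, GermAt g x h n) ∧ (∃ h n, GermAt g⁻¹ x h n) := by
  unfold FF at hg
  induction hg using Subgroup.closure_induction with
  | mem g hg =>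
    rintro x ⟨n, hx⟩
    have hD : ∀ h : S.H, ∃ h' n, GermAt (Dz h) x h' n := by
      intro h
      by_cases hxo : x = up 0 (pre 0 x)
      · rw [hxo]
        exact ⟨_, _, Germ_DD_eq 0 (fun _ => h) (pre 0 x)⟩
      · obtain ⟨m, hm⟩ := Germ_DD_ne 0 (fun _ => h) hx hxo
        exact ⟨1, m, hm⟩
    have hE : ∀ M, ∀ f : Equiv.Perm (S.V M), ∃ h' n, GermAt (ext M f) x h' n := fun M f =>
      ⟨1, max M n, Germ_ext f (le_max_left _ _) fun i hi => hx i (by omega)⟩
    rcases hg with ⟨h, rfl⟩ | hg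
    · exact ⟨hD h, by rw [← map_inv]; exact hD _⟩
    · obtain ⟨M, f, rfl⟩ := Set.mem_iUnion.1 hg
      exact ⟨hE M f, by rw [← map_inv]; exact hE M _⟩
  | one =>
    rintro x ⟨n, hx⟩
    rw [inv_one]
    exact ⟨⟨1, n, Germ_one hx⟩, ⟨1, n, Germ_one hx⟩⟩
  | mul a b _ _ iha ihb =>
    rintro x hx
    constructor
    · obtain ⟨h, n, h1⟩ := (ihb x hx).1
      obtain ⟨h', n', h2⟩ := (iha (b x) ⟨n, h1.2.1⟩).1
      exact ⟨h' * h, _, Germ_mul h1 h2⟩
    · rw [mul_inv_rev]
      obtain ⟨h, n, h1⟩ := (iha x hx).2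
      obtain ⟨h', n', h2⟩ := (ihb (a⁻¹ x) ⟨n, h1.2.1⟩).2
      exact ⟨h' * h, _, Germ_mul h1 h2⟩
  | inv a _ ih =>
    rintro x hx
    rw [inv_inv]
    exact (ih x hx).symm

section
variable (G : Subgroup (Equiv.Perm S.Bd)) (hGF : G ≤ FF S)

/-- the germ of `g⁻¹` at the base point -/
noncomputable def gam (g : G) : S.H :=
  (Germ_exists_aux (hGF g.2) oo ⟨0, fun _ _ => rfl⟩).2.choose

theorem gam_spec (g : G) : ∃ n, GermAt (g : Equiv.Perm S.Bd)⁻¹ oo (gam G hGF g) n :=
  (Germ_exists_aux (hGF g.2) oo ⟨0, fun _ _ => rfl⟩).2.choose_spec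

variable (hf : ∀ h : S.H, h ≠ 1 → ∀ n, ∃ k, n ≤ k ∧ S.ρ k h ≠ 1)
include hf

theorem gam_mul (g s : G) {h : S.H} {n : ℕ} (hs : GermAt (s : Equiv.Perm S.Bd)⁻¹ ((g : Equiv.Perm S.Bd)⁻¹ oo) h n) :
    gam G hGF (g * s) = h * gam G hGF g := by
  obtain ⟨m, hm⟩ := gam_spec G hGF g
  obtain ⟨m', hm'⟩ := gam_spec G hGF (g * s)
  have h1 := Germ_mul hm hs
  have e : ((g * s : G) : Equiv.Perm S.Bd)⁻¹ = (s : Equiv.Perm S.Bd)⁻¹ * (g : Equiv.Perm S.Bd)⁻¹ := by
    rw [Subgroup.coe_mul, mul_inv_rev]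
  rw [e] at hm'
  exact Germ_unique hf hm' h1

theorem gam_ext (g s : G) {M : ℕ} {f : Equiv.Perm (S.V M)} (hs : (s : Equiv.Perm S.Bd) = ext M f) :
    gam G hGF (g * s) = gam G hGF g := by
  obtain ⟨m, hm⟩ := gam_spec G hGF g
  have h1 : GermAt (s : Equiv.Perm S.Bd)⁻¹ ((g : Equiv.Perm S.Bd)⁻¹ oo) 1 (max M m) := by
    rw [hs, ← map_inv]
    exact Germ_ext f⁻¹ (le_max_left _ _) fun i hi => hm.2.1 i (by omega)
  rw [gam_mul G hGF hf g _ h1, one_mul]

theorem gam_DD_eq (g s : G) {n : ℕ} {φ : S.V n → S.H} (hs : (s : Equiv.Perm S.Bd) = DD n φ) {v : S.V n}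
    (hg : (g : Equiv.Perm S.Bd)⁻¹ oo = up n v) : gam G hGF (g * s) = (φ v)⁻¹ * gam G hGF g := by
  refine gam_mul G hGF hf g _ (n := n) ?_
  rw [hs, ← map_inv, hg]
  exact Germ_DD_eq n φ⁻¹ v

theorem gam_DD_ne (g s : G) {n : ℕ} {φ : S.V n → S.H} (hs : (s : Equiv.Perm S.Bd) = DD n φ)
    (hg : ∀ v, φ v ≠ 1 → (g : Equiv.Perm S.Bd)⁻¹ oo ≠ up n v) : gam G hGF (g * s) = gam G hGF g := by
  obtain ⟨m, hm⟩ := gam_spec G hGF g
  set x := (g : Equiv.Perm S.Bd)⁻¹ oo with hx
  by_cases hxu : x = up n (pre n x)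
  · rw [gam_DD_eq G hGF hf g s hs hxu]
    have : φ (pre n x) = 1 := by
      by_contra hcon
      exact hg _ hcon hxu
    rw [this, inv_one, one_mul]
  · obtain ⟨m', hm'⟩ := Germ_DD_ne n φ⁻¹ hm.2.1 hxu
    rw [map_inv, ← hs] at hm'
    rw [gam_mul G hGF hf g _ hm', one_mul]

theorem gam_one : gam G hGF 1 = 1 := by
  obtain ⟨m, hm⟩ := gam_spec G hGF (1 : G)
  have : GermAt ((1 : G) : Equiv.Perm S.Bd)⁻¹ oo (1 : S.H) 0 := by
    have e : ((1 : G) : Equiv.Perm S.Bd)⁻¹ = 1 := by simp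
    rw [e]
    exact Germ_one fun _ _ => rfl
  exact Germ_unique hf hm this

/-- values of the germ on pairs -/
theorem gam_pp (s : G) {n : ℕ} {v' : S.V n} {h : S.H} (hs : (s : Equiv.Perm S.Bd) = pp n (ow n) v' h) :
    (gam G hGF s)⁻¹ = h := by
  have h1 := gam_DD_eq G hGF hf (1 : G) s (φ := ps (ow n) v' h) hs (v := ow n) (by
    have e : ((1 : G) : Equiv.Perm S.Bd)⁻¹ = 1 := by simp
    rw [e]
    funext i
    show S.o i = up n (ow n) i
    unfold up
    split_ifs <;> rfl)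
  rw [one_mul, gam_one G hGF hf, mul_one] at h1
  rw [h1, inv_inv]
  simp [ps]

/-- lifting harmonic functions from the germ group -/
theorem lift_harmonic {A J : Type} [Fintype A] [Fintype J] (fA : A → G) {M : ℕ} (hfA : ∀ a, ∃ f, (fA a : Equiv.Perm S.Bd) = ext M f)
    (gen : J → S.H) (σ : Equiv.Perm J) (hσ : ∀ j, gen (σ j) = (gen j)⁻¹) {n : ℕ} {u u' : S.V n} (huu : u ≠ u')
    (gJ : J → G) (hgJ : ∀ j, (gJ j : Equiv.Perm S.Bd) = pp n u u' (gen j)) (F : S.H → ℝ)
    (hF : ∀ v, (∑ j, F (v * gen j)) = Fintype.card J * F v) (g : G) :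
    (∑ j : A ⊕ J, F (gam G hGF (g * Sum.elim fA gJ j))⁻¹) = Fintype.card (A ⊕ J) * F (gam G hGF g)⁻¹ := by
  rw [Fintype.sum_sum_type, Fintype.card_sum]
  simp only [Sum.elim_inl, Sum.elim_inr]
  have h1 : ∀ a, gam G hGF (g * fA a) = gam G hGF g := by
    intro a
    obtain ⟨f, hf'⟩ := hfA a
    exact gam_ext G hGF hf g _ hf'
  simp only [h1]
  rw [Finset.sum_const, nsmul_eq_mul, Finset.card_univ]
  push_cast
  rw [add_mul]
  congr 1
  by_cases hu : (g : Equiv.Perm S.Bd)⁻¹ oo = up n u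
  · have h2 : ∀ j, (gam G hGF (g * gJ j))⁻¹ = (gam G hGF g)⁻¹ * gen j := by
      intro j
      rw [gam_DD_eq G hGF hf g (gJ j) (hgJ j) hu]
      simp [ps]
    simp only [h2]
    exact hF _
  · by_cases hu' : (g : Equiv.Perm S.Bd)⁻¹ oo = up n u'
    · have h2 : ∀ j, (gam G hGF (g * gJ j))⁻¹ = (gam G hGF g)⁻¹ * gen (σ j) := by
        intro j
        rw [gam_DD_eq G hGF hf g (gJ j) (hgJ j) hu', hσ]
        simp only [ps]
        rw [if_neg (Ne.symm huu)]
        simp
      simp only [h2]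
      rw [Equiv.sum_comp σ (fun j => F ((gam G hGF g)⁻¹ * gen j))]
      exact hF _
    · have h2 : ∀ j, gam G hGF (g * gJ j) = gam G hGF g := by
        intro j
        refine gam_DD_ne G hGF hf g (gJ j) (hgJ j) fun v hv => ?_
        by_cases h1 : v = u
        · rw [h1]; exact hu
        · by_cases h3 : v = u'
          · rw [h3]; exact hu'
          · exfalso
            apply hv
            simp only [ps]
            rw [if_neg h1, if_neg h3]
      simp only [h2]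
      rw [Finset.sum_const, nsmul_eq_mul, Finset.card_univ]

end

end Pool.Agent.Helper889.Si
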