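import Mathlib
import Pool.Agent.Helper889.Br.Folner
import Pool.Agent.Helper889.Br.Harm
import Pool.Agent.Helper889.Si.Germ

set_option autoImplicit false
set_option linter.unusedSectionVars false
set_option linter.unusedVariables false

namespace Pool.Agent.Helper889.Si

open Finset Br

/-! ### the lamplighter group -/

/-- generators, up to inverses -/
def Tl : Set Lp := {la} ∪ (Set.range fun i : Fin 5 => lt (Pi.single i 1))

theorem Tl_top : Subgroup.closure Tl = ⊤ :=
  Lp_gen _ (Subgroup.subset_closure (Or.inl rfl)) fun i => Subgroup.subset_closure (Or.inr ⟨i, rfl⟩)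

/-- parametrisation of Foelner sets -/
noncomputable def ph' (x : B5 × (B5 →₀ ZMod 2)) : Lp := ⟨x.2.mapDomain (fun i => x.1 + i), x.1⟩

theorem ph'_inj : Function.Injective ph' := by
  rintro ⟨n, f⟩ ⟨n', f'⟩ h
  have h1 : n = n' := congrArg (fun z : Lp => z.n) h
  subst h1
  have h2 : f.mapDomain (fun i => n + i) = f'.mapDomain (fun i => n + i) := congrArg (fun z : Lp => z.f) h
  rw [Finsupp.mapDomain_injective (add_right_injective n) h2]

open Classical in
/-- Foelner sets -/
noncomputable def El (N : ℕ) : Finset Lp := (Bx N ×ˢ Us N).image ph'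

theorem Fol_Lp : Fol Lp Tl := by
  classical
  intro ε hε
  obtain ⟨N, hN⟩ := exists_nat_gt (1/ε)
  have hN0 : (0:ℝ) < N := lt_trans (by positivity) hN
  have hN1 : 1 ≤ N := by exact_mod_cast hN0
  have hεN : 1 ≤ ε * N := by
    rw [div_lt_iff₀ hε] at hN
    linarith
  have hne : (Bx N ×ˢ Us N).Nonempty := by
    refine ⟨((fun _ => 1), 0), ?_⟩
    simp only [mem_product]
    constructor
    · unfold Bx
      rw [Fintype.mem_piFinset]
      intro i
      rw [mem_Icc]
      exact ⟨le_rfl, by exact_mod_cast hN1⟩
    · rw [mem_Us]; simp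
  refine ⟨El N, hne.image _, ?_, ?_⟩
  · unfold El
    rw [mem_image]
    rintro ⟨⟨n, f⟩, hx, h⟩
    rw [mem_product] at hx
    have h1 : n = 0 := congrArg (fun z : Lp => z.n) h
    have h2 := hx.1
    subst h1
    unfold Bx at h2
    rw [Fintype.mem_piFinset] at h2
    have := h2 0
    rw [mem_Icc] at this
    simp at this
  · intro c hc
    obtain ⟨R, hR⟩ : ∃ R : ℕ, (Us N).card = R := ⟨_, rfl⟩
    have hcardE : (El N).card = (N ^ 5) * R := by
      unfold El
      rw [card_image_of_injective _ ph'_inj, card_product, hR, card_Bx]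
    rcases hc with hc | ⟨i, hc⟩
    · rw [Set.mem_singleton_iff] at hc
      subst hc
      have h : ∀ k ∈ El N, la⁻¹ * k ∈ El N := by
        intro k hk
        unfold El at hk ⊢
        rw [mem_image] at hk ⊢
        obtain ⟨⟨n, f⟩, hx, rfl⟩ := hk
        rw [mem_product] at hx
        refine ⟨(n, f + Finsupp.single (-n) 1), ?_, ?_⟩
        · rw [mem_product]
          refine ⟨hx.1, ?_⟩
          have h1 := hx.2
          rw [mem_Us] at h1 ⊢
          refine Finsupp.support_add.trans (union_subset h1 ?_)
          refine Finsupp.support_single_subset.trans ?_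
          rw [singleton_subset_iff]
          have h2 := hx.1
          unfold Bx at h2
          unfold Bn
          rw [Fintype.mem_piFinset] at h2 ⊢
          intro i
          have := h2 i
          rw [mem_Icc] at this ⊢
          have e : (-(n, f).1) i = - n i := rfl
          rw [e]
          have h3 : 1 ≤ n i := this.1
          have h4 : n i ≤ N := this.2
          constructor <;> omega
        · show ph' (n, f + Finsupp.single (-n) 1) = la⁻¹ * ph' (n, f)
          rw [la_inv]
          unfold ph'
          ext1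
          · rw [Lp.mul_f]
            show Finsupp.mapDomain (fun i => n + i) (f + Finsupp.single (-n) 1)
              = Finsupp.single 0 1 + Finsupp.mapDomain (fun i => (0 : B5) + i) (Finsupp.mapDomain (fun i => n + i) f)
            rw [Finsupp.mapDomain_add, Finsupp.mapDomain_single, add_neg_cancel, add_comm]
            simp only [zero_add]
            congr 1
            exact Finsupp.mapDomain_id.symm
          · rw [Lp.mul_n]
            show n = 0 + n
            rw [zero_add]
      have : {k : Lp | k ∈ El N ∧ la⁻¹ * k ∈ El N} = (El N : Set Lp) := by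
        ext k
        simp only [Set.mem_ofPred_eq, mem_coe, and_iff_left_iff_imp]
        exact h k
      rw [this, Set.ncard_coe_finset]
      have h2 : (0:ℝ) ≤ (El N).card := Nat.cast_nonneg _
      have h3 := mul_nonneg hε.le h2
      linarith
    · simp only at hc
      subst hc
      have hsub : (((Bi N i ×ˢ Us N).image ph' : Finset Lp) : Set Lp)
          ⊆ {k : Lp | k ∈ El N ∧ (lt (Pi.single i 1))⁻¹ * k ∈ El N} := by
        intro k hk
        rw [mem_coe, mem_image] at hk
        obtain ⟨⟨n, f⟩, hx, rfl⟩ := hk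
        rw [mem_product] at hx
        have h1 : ∀ j, n j ∈ if j = i then Icc (2:ℤ) N else Icc (1:ℤ) N := by
          have := hx.1
          unfold Bi at this
          rwa [Fintype.mem_piFinset] at this
        constructor
        · unfold El
          rw [mem_image]
          refine ⟨(n, f), ?_, rfl⟩
          rw [mem_product]
          refine ⟨?_, hx.2⟩
          unfold Bx
          rw [Fintype.mem_piFinset]
          intro j
          have := h1 j
          split_ifs at this
          · rw [mem_Icc] at this ⊢; exact ⟨by linarith [this.1], this.2⟩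
          · exact this
        · unfold El
          rw [mem_image]
          refine ⟨(n - Pi.single i 1, f), ?_, ?_⟩
          · rw [mem_product]
            refine ⟨?_, hx.2⟩
            unfold Bx
            rw [Fintype.mem_piFinset]
            intro j
            have := h1 j
            show (n - Pi.single i 1 : B5) j ∈ _
            rw [Pi.sub_apply]
            by_cases hj : j = i
            · subst hj
              rw [if_pos rfl] at this
              rw [Pi.single_eq_same]
              rw [mem_Icc] at this ⊢; exact ⟨by linarith [this.1], by linarith [this.2]⟩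
            · rw [if_neg hj] at this
              rw [Pi.single_eq_of_ne hj, sub_zero]
              exact this
          · rw [lt_inv]
            unfold ph'
            ext1
            · rw [Lp.mul_f]
              show Finsupp.mapDomain (fun i' => n - Pi.single i 1 + i') f
                = 0 + Finsupp.mapDomain (fun i' => (-Pi.single i 1 : B5) + i') (Finsupp.mapDomain (fun i => n + i) f)
              rw [zero_add, ← Finsupp.mapDomain_comp]
              congr 1
              funext i'
              simp only [Function.comp]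
              rw [← add_assoc, sub_eq_neg_add]
            · rw [Lp.mul_n]
              show n - Pi.single i 1 = -Pi.single i 1 + n
              rw [sub_eq_neg_add]
      have hfin : {k : Lp | k ∈ El N ∧ (lt (Pi.single i 1))⁻¹ * k ∈ El N}.Finite :=
        (El N).finite_toSet.subset fun k hk => hk.1
      have h2 := Set.ncard_le_ncard hsub hfin
      rw [Set.ncard_coe_finset, card_image_of_injective _ ph'_inj, card_product, hR, card_Bi] at h2
      refine le_trans ?_ (Nat.cast_le.2 h2)
      rw [hcardE]
      push_cast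
      have hR : (0:ℝ) ≤ R := Nat.cast_nonneg _
      rw [Nat.cast_sub hN1, Nat.cast_one, ← mul_assoc]
      refine mul_le_mul_of_nonneg_right ?_ hR
      have h4 : (0:ℝ) ≤ (N:ℝ)^4 := by positivity
      have h5 := mul_nonneg h4 (sub_nonneg.2 hεN)
      nlinarith

/-- index set of the generators -/
abbrev JL : Type := Unit ⊕ (Fin 5 × Bool)

/-- the generators -/
noncomputable def gL : JL → Lp
  | Sum.inl _ => la
  | Sum.inr s => lt (stp s)

/-- inversion of the generators -/
def invL : Equiv.Perm JL := Equiv.sumCongr (Equiv.refl _) (Equiv.prodCongr (Equiv.refl _) Equiv.boolNot)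

theorem stp_not (i : Fin 5) (b : Bool) : stp (i, !b) = - stp (i, b) := by
  unfold stp sg
  cases b
  · simp only [Bool.not_false, if_true, Bool.false_eq_true, if_false, Pi.single_neg, neg_neg]
  · simp only [Bool.not_true, if_true, Bool.false_eq_true, if_false, Pi.single_neg]

theorem invL_spec (j : JL) : gL (invL j) = (gL j)⁻¹ := by
  rcases j with _ | ⟨i, b⟩
  · show la = la⁻¹
    rw [la_inv]
  · show lt (stp (i, !b)) = (lt (stp (i, b)))⁻¹
    rw [lt_inv, stp_not]

theorem gL_top : Subgroup.closure (Set.range gL) = ⊤ := by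
  apply Lp_gen
  · exact Subgroup.subset_closure ⟨Sum.inl (), rfl⟩
  · intro i
    exact Subgroup.subset_closure ⟨Sum.inr (i, true), rfl⟩

/-- a bounded nonconstant harmonic function on the lamplighter group -/
theorem exists_harmL : ∃ F : Lp → ℝ, (∀ v, (∑ j, F (v * gL j)) = Fintype.card JL * F v) ∧ (∀ v, 0 ≤ F v ∧ F v ≤ 1) ∧
    F la ≠ F 1 := by
  classical
  have hcard : Fintype.card JL = 11 := by
    show Fintype.card (Unit ⊕ (Fin 5 × Bool)) = _
    rw [Fintype.card_sum]
    simp
  set χ : Lp → ℝ := fun v => if v.f 0 = 0 then 0 else 1 with hχ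
  set L : Lp → ℝ := fun v => (if v.n = 0 then 1 else 0) / 11 with hL
  set u : Lp → ℝ := fun v => (Q v.n)⁻¹ with hu
  have hTu : ∀ v, Av (fun j v => v * gL j) u v ≤ u v - 5 * L v := by
    intro v
    unfold Av
    rw [Fintype.sum_sum_type, hcard]
    have h1 : u (v * gL (Sum.inl ())) = u v := by
      show (Q (v * la).n)⁻¹ = (Q v.n)⁻¹
      rw [Lp.mul_n]
      show (Q (v.n + 0))⁻¹ = _
      rw [add_zero]
    have h3 : ∀ s, u (v * gL (Sum.inr s)) = (Q (v.n + stp s))⁻¹ := fun s => rfl
    simp only [h3, Finset.univ_unique, Finset.sum_singleton]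
    have h1' : u (v * gL (Sum.inl default)) = u v := h1
    rw [h1']
    have h4 := superharm v.n
    push_cast
    rw [div_le_iff₀ (by norm_num)]
    have h5 : (u v - 5 * L v) * 11 = 11 * u v - 5 * (if v.n = 0 then 1 else 0) := by
      simp only [hL]
      ring
    rw [h5]
    have h6 : (Q v.n)⁻¹ = u v := rfl
    rw [h6] at h4
    linarith
  have hTχ : ∀ v, |Av (fun j v => v * gL j) χ v - χ v| ≤ L v := by
    intro v
    unfold Av
    rw [Fintype.sum_sum_type, hcard]
    have h3 : ∀ s, χ (v * gL (Sum.inr s)) = χ v := by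
      intro s
      have : (v * lt (stp s)).f = v.f := by
        rw [Lp.mul_f]
        show v.f + Finsupp.mapDomain _ 0 = _
        rw [Finsupp.mapDomain_zero, add_zero]
      show (if (v * lt (stp s)).f 0 = 0 then (0:ℝ) else 1) = if v.f 0 = 0 then 0 else 1
      rw [this]
    simp only [h3, Finset.univ_unique, Finset.sum_singleton]
    rw [Finset.sum_const, nsmul_eq_mul, Finset.card_univ]
    have h5 : (χ (v * gL (Sum.inl default)) + ((Fintype.card (Fin 5 × Bool) : ℕ) : ℝ) * χ v) / ((11 : ℕ) : ℝ) - χ v
        = (χ (v * gL (Sum.inl default)) - χ v) / 11 := by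
      simp
      ring
    rw [h5, abs_div, abs_of_pos (show (0:ℝ) < 11 by norm_num)]
    simp only [hL]
    refine div_le_div_of_nonneg_right ?_ (by norm_num)
    have hf : (v * la).f 0 = v.f 0 + Finsupp.single v.n (1 : ZMod 2) 0 := by
      rw [Lp.mul_f]
      show (v.f + Finsupp.mapDomain (fun i => v.n + i) (Finsupp.single 0 1) : B5 →₀ ZMod 2) 0 = _
      rw [Finsupp.mapDomain_single, add_zero, Finsupp.add_apply]
    by_cases h0 : v.n = 0
    · rw [if_pos h0]
      have : ∀ w, 0 ≤ χ w ∧ χ w ≤ 1 := by
        intro w; simp only [hχ]; split_ifs <;> norm_num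
      rw [abs_le]
      constructor <;> linarith [(this v).1, (this v).2, (this (v * gL (Sum.inl default))).1, (this (v * gL (Sum.inl default))).2]
    · rw [if_neg h0]
      have : χ (v * gL (Sum.inl default)) = χ v := by
        show (if (v * la).f 0 = 0 then (0:ℝ) else 1) = if v.f 0 = 0 then 0 else 1
        rw [hf, Finsupp.single_eq_of_ne (Ne.symm h0), add_zero]
      rw [this]; simp
  obtain ⟨h, h1, h2, h3⟩ := exists_limit (fun j v => v * gL j) χ L u (c := 5) (by norm_num)
    (fun v => by simp only [hL]; split_ifs <;> positivity)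
    (fun v => by have := Q_pos v.n; simp only [hu]; positivity)
    (fun v => by simp only [hχ]; split_ifs <;> norm_num) hTχ hTu
  refine ⟨h, fun v => ?_, h2, ?_⟩
  · have := h1 v
    unfold Av at this
    rw [div_eq_iff (by rw [hcard]; norm_num)] at this
    rw [this, mul_comm]
  · have ha := h3 la
    have hb := h3 1
    have ea : χ la = 1 := by
      simp only [hχ]
      rw [if_neg]
      show ¬ (Finsupp.single (0 : B5) (1 : ZMod 2)) 0 = 0
      rw [Finsupp.single_eq_same]
      decide
    have eb : χ 1 = 0 := by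
      simp only [hχ]
      rw [if_pos]
      rfl
    have ua : u la = 1 := by
      show (Q (0 : B5))⁻¹ = 1
      rw [Q_zero, inv_one]
    have ub : u 1 = 1 := by
      show (Q (0 : B5))⁻¹ = 1
      rw [Q_zero, inv_one]
    rw [ea, ua, abs_le] at ha
    rw [eb, ub, abs_le] at hb
    intro hcon
    norm_num at ha hb
    linarith [ha.1, ha.2, hb.1, hb.2]

/-! ### the system -/

/-- sign change -/
def sc (m : ℕ) (e : ZMod 2) (x : Fin 5 → ZMod m) : Fin 5 → ZMod m := if e = 0 then x else -x

theorem sc_add (m : ℕ) (e e' : ZMod 2) (x : Fin 5 → ZMod m) : sc m (e + e') x = sc m e (sc m e' x) := by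
  have he : e = 0 ∨ e = 1 := by revert e; decide
  have he' : e' = 0 ∨ e' = 1 := by revert e'; decide
  unfold sc
  rcases he with rfl | rfl <;> rcases he' with rfl | rfl
  · simp
  · simp
  · simp
  · have h1 : (1 : ZMod 2) + 1 = 0 := by decide
    rw [if_pos h1, if_neg (by decide), if_neg (by decide), neg_neg]

/-- the special letter -/
def sp (m : ℕ) : Fin 5 → ZMod m := Pi.single 0 1

theorem sc_sp (m : ℕ) (e : ZMod 2) (x : Fin 5 → ZMod m) : (sc m e x = sp m ∨ sc m e x = - sp m) ↔ (x = sp m ∨ x = - sp m) := by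
  unfold sc
  split_ifs
  · rfl
  · rw [neg_eq_iff_eq_neg, neg_inj]
    exact or_comm

open Classical in
/-- the action on pairs of letters -/
noncomputable def rh (m : ℕ) : Lp →* Equiv.Perm ((Fin 5 → ZMod m) × (Fin 5 → ZMod (m+1))) where
  toFun := fun h =>
    { toFun := fun p => if p.1 = sp m ∨ p.1 = - sp m then
        (sc m (bar (m+1) h.f (pr (m+1) h.n + p.2)) p.1, pr (m+1) h.n + p.2) else p
      invFun := fun p => if p.1 = sp m ∨ p.1 = - sp m then
        (sc m (bar (m+1) h.f p.2) p.1, -pr (m+1) h.n + p.2) else p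
      left_inv := fun p => by
        obtain ⟨x, y⟩ := p
        by_cases hx : x = sp m ∨ x = - sp m
        · simp only [if_pos hx, if_pos ((sc_sp m _ x).2 hx), neg_add_cancel_left]
          rw [← sc_add, CharTwo.add_self_eq_zero]
          simp [sc]
        · simp only [if_neg hx]
      right_inv := fun p => by
        obtain ⟨x, y⟩ := p
        by_cases hx : x = sp m ∨ x = - sp m
        · simp only [if_pos hx, if_pos ((sc_sp m _ x).2 hx), add_neg_cancel_left]
          rw [← sc_add, CharTwo.add_self_eq_zero]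
          simp [sc]
        · simp only [if_neg hx] }
  map_one' := by
    ext1 p
    obtain ⟨x, y⟩ := p
    show (if x = sp m ∨ x = - sp m then
        (sc m (bar (m+1) (1 : Lp).f (pr (m+1) (1 : Lp).n + y)) x, pr (m+1) (1 : Lp).n + y) else (x, y)) = (x, y)
    rw [Lp.one_n, Lp.one_f, pr_zero, zero_add]
    simp [bar, sc]
  map_mul' := fun h h' => by
    ext1 p
    obtain ⟨x, y⟩ := p
    rw [Equiv.Perm.mul_apply]
    by_cases hx : x = sp m ∨ x = - sp m
    · show (if x = sp m ∨ x = - sp m then
        (sc m (bar (m+1) (h * h').f (pr (m+1) (h * h').n + y)) x, pr (m+1) (h * h').n + y) else (x, y)) =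
        if (if x = sp m ∨ x = - sp m then
            (sc m (bar (m+1) h'.f (pr (m+1) h'.n + y)) x, pr (m+1) h'.n + y) else (x, y)).1 = sp m ∨
          (if x = sp m ∨ x = - sp m then
            (sc m (bar (m+1) h'.f (pr (m+1) h'.n + y)) x, pr (m+1) h'.n + y) else (x, y)).1 = - sp m then
          (sc m (bar (m+1) h.f (pr (m+1) h.n + (if x = sp m ∨ x = - sp m then
            (sc m (bar (m+1) h'.f (pr (m+1) h'.n + y)) x, pr (m+1) h'.n + y) else (x, y)).2))
            (if x = sp m ∨ x = - sp m then
            (sc m (bar (m+1) h'.f (pr (m+1) h'.n + y)) x, pr (m+1) h'.n + y) else (x, y)).1,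
          pr (m+1) h.n + (if x = sp m ∨ x = - sp m then
            (sc m (bar (m+1) h'.f (pr (m+1) h'.n + y)) x, pr (m+1) h'.n + y) else (x, y)).2)
        else (if x = sp m ∨ x = - sp m then
            (sc m (bar (m+1) h'.f (pr (m+1) h'.n + y)) x, pr (m+1) h'.n + y) else (x, y))
      simp only [if_pos hx, if_pos ((sc_sp m _ x).2 hx)]
      rw [Lp.mul_n, Lp.mul_f, pr_add, add_assoc (pr (m+1) h.n), ← sc_add]
      have : bar (m+1) (h.f + h'.f.mapDomain (fun i => h.n + i)) (pr (m+1) h.n + (pr (m+1) h'.n + y))
          = bar (m+1) h.f (pr (m+1) h.n + (pr (m+1) h'.n + y)) + bar (m+1) h'.f (pr (m+1) h'.n + y) := by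
        have h1 : bar (m+1) (h.f + h'.f.mapDomain (fun i => h.n + i))
            = bar (m+1) h.f + bar (m+1) (h'.f.mapDomain (fun i => h.n + i)) := Finsupp.mapDomain_add
        rw [h1, Finsupp.add_apply, bar_shift]
      rw [this]
    · show (if x = sp m ∨ x = - sp m then _ else (x, y)) = if (if x = sp m ∨ x = - sp m then _ else (x, y)).1 = sp m ∨
          (if x = sp m ∨ x = - sp m then _ else (x, y)).1 = - sp m then _ else (if x = sp m ∨ x = - sp m then _ else (x, y))
      simp only [if_neg hx]

theorem rh_pos {m : ℕ} (h : Lp) {x : Fin 5 → ZMod m} (hx : x = sp m ∨ x = - sp m) (y : Fin 5 → ZMod (m+1)) :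
    rh m h (x, y) = (sc m (bar (m+1) h.f (pr (m+1) h.n + y)) x, pr (m+1) h.n + y) := if_pos hx

theorem rh_neg {m : ℕ} (h : Lp) {x : Fin 5 → ZMod m} (hx : ¬ (x = sp m ∨ x = - sp m)) (y : Fin 5 → ZMod (m+1)) :
    rh m h (x, y) = (x, y) := if_neg hx

theorem sp_ne {m : ℕ} (hm : 3 ≤ m) : sp m ≠ 0 ∧ - sp m ≠ 0 ∧ sp m ≠ - sp m := by
  have h1 : (1 : ZMod m) ≠ 0 := by
    have : Fact (1 < m) := ⟨by omega⟩
    exact one_ne_zero
  have h2 : (1 : ZMod m) ≠ -1 := by
    intro h
    have h3 : ((2 : ℕ) : ZMod m) = 0 := by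
      push_cast
      rw [← one_add_one_eq_two]
      nth_rewrite 2 [h]
      rw [add_neg_cancel]
    rw [ZMod.natCast_eq_zero_iff] at h3
    have := Nat.le_of_dvd (by norm_num) h3
    omega
  refine ⟨fun h => ?_, fun h => ?_, fun h => ?_⟩
  · have := congrFun h 0
    simp [sp] at this
    exact h1 this
  · have := congrFun h 0
    simp [sp] at this
    exact h1 this
  · have := congrFun h 0
    simp [sp] at this
    exact h2 this

/-- the system -/
@[reducible] noncomputable def S1 : Sys where
  X := fun k => Fin 5 → ZMod (k+3)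
  fin := fun k => inferInstance
  dec := fun k => inferInstance
  o := fun _ => 0
  H := Lp
  grp := inferInstance
  ρ := fun k => rh (k+3)
  ρo := fun k h y => rh_neg h (by
    have := sp_ne (show 3 ≤ k + 3 by omega)
    rintro (h | h)
    · exact this.1 h.symm
    · exact this.2.1 h.symm) y

theorem S1_faithful (h : S1.H) (hh : h ≠ 1) (n : ℕ) : ∃ k, n ≤ k ∧ S1.ρ k h ≠ 1 := by
  by_contra hcon
  push Not at hcon
  apply hh
  obtain ⟨M1, hM1⟩ := pr_inj {h.n, 0}
  obtain ⟨M2, hM2⟩ := pr_inj h.f.support
  have hk := hcon (n + M1 + M2) (by omega)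
  set k := n + M1 + M2 with hkd
  have key : ∀ y, rh (k+3) h (sp (k+3), y) = (sp (k+3), y) := fun y => by
    have : S1.ρ k h (sp (k+3), y) = (sp (k+3), y) := by rw [hk]; rfl
    exact this
  have hn : h.n = 0 := by
    have h1 := congrArg Prod.snd (key 0)
    rw [rh_pos _ (Or.inl rfl)] at h1
    simp only [add_zero] at h1
    exact hM1 (k+3+1) (by omega) (by simp) (by simp) (by rw [h1, pr_zero])
  have hf : h.f = 0 := by
    ext b
    rw [Finsupp.zero_apply]
    by_contra hb
    have h1 := congrArg Prod.fst (key (pr (k+3+1) b))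
    rw [rh_pos _ (Or.inl rfl)] at h1
    simp only [hn, pr_zero, zero_add] at h1
    apply hb
    have h2 : bar (k+3+1) h.f (pr (k+3+1) b) = h.f b := by
      unfold bar
      rw [Finsupp.mapDomain_apply' (h.f.support : Set B5) _ (subset_refl _) (hM2 _ (by omega))]
      exact_mod_cast Finsupp.mem_support_iff.2 hb
    rw [← h2]
    by_contra hne
    unfold sc at h1
    rw [if_neg hne] at h1
    exact (sp_ne (show 3 ≤ k + 3 by omega)).2.2 h1.symm
  exact Lp.ext hf hn

theorem S1_C1 (k : ℕ) (y y' : S1.X (k+1)) : ∃ h, ∃ π : Equiv.Perm (S1.X (k+1)), π y = y' ∧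
    ∀ x z, S1.ρ k h (x, z) = if x = sp (k+3) ∨ x = - sp (k+3) then (x, π z) else (x, z) := by
  have hsurj : ∃ n : B5, pr (k+3+1) n = y' - y := by
    choose n hn using fun j => ZMod.intCast_surjective ((y' - y) j)
    exact ⟨n, funext hn⟩
  obtain ⟨n, hn⟩ := hsurj
  refine ⟨lt n, Equiv.addLeft (y' - y), by simp, fun x z => ?_⟩
  show rh (k+3) (lt n) (x, z) = _
  by_cases hx : x = sp (k+3) ∨ x = - sp (k+3)
  · rw [rh_pos _ hx, if_pos hx]
    show (sc (k+3) (bar (k+3+1) (0 : B5 →₀ ZMod 2) (pr (k+3+1) n + z)) x, pr (k+3+1) n + z) = (x, (y' - y) + z)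
    rw [hn]
    simp [bar, sc]
  · rw [rh_neg _ hx, if_neg hx]

theorem S1_C2 (k : ℕ) : ∃ h, ∃ a : S1.X (k+1), S1.ρ k h = Equiv.swap (sp (k+3), a) (- sp (k+3), a) := by
  refine ⟨la, 0, ?_⟩
  ext1 p
  obtain ⟨x, z⟩ := p
  show rh (k+3) la (x, z) = _
  have hbar : bar (k+3+1) la.f = Finsupp.single 0 1 := by
    show Finsupp.mapDomain (pr (k+3+1)) (Finsupp.single 0 1) = _
    rw [Finsupp.mapDomain_single, pr_zero]
  have hn : la.n = 0 := rfl
  have hne := (sp_ne (show 3 ≤ k + 3 by omega)).2.2
  by_cases hx : x = sp (k+3) ∨ x = - sp (k+3)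
  · rw [rh_pos _ hx, hbar, hn, pr_zero, zero_add]
    by_cases hz : z = 0
    · subst hz
      rw [Finsupp.single_eq_same]
      have e1 : ∀ x, sc (k+3) 1 x = -x := fun x => by unfold sc; rw [if_neg (by decide)]
      rw [e1]
      rcases hx with rfl | rfl
      · rw [Equiv.swap_apply_left]
      · rw [Equiv.swap_apply_right, neg_neg]
    · rw [Finsupp.single_eq_of_ne hz, Equiv.swap_apply_of_ne_of_ne]
      · unfold sc; rw [if_pos rfl]
      · intro h; exact hz (congrArg Prod.snd h)
      · intro h; exact hz (congrArg Prod.snd h)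
  · rw [rh_neg _ hx, Equiv.swap_apply_of_ne_of_ne]
    · intro h; exact hx (Or.inl (congrArg Prod.fst h))
    · intro h; exact hx (Or.inr (congrArg Prod.fst h))

theorem S1_card (k : ℕ) : 9 ≤ Fintype.card (S1.X k) := by
  show 9 ≤ Fintype.card (Fin 5 → ZMod (k+3))
  rw [Fintype.card_fun, ZMod.card, Fintype.card_fin]
  calc 9 ≤ 3 ^ 5 := by norm_num
    _ ≤ (k+3) ^ 5 := Nat.pow_le_pow_left (by omega) 5

theorem S1_T : ∃ TT : ∀ k, Finset (S1.X k), (∀ k, (TT k).card ≤ 2) ∧
    ∀ k h x y, x ∉ TT k → S1.ρ k h (x, y) = (x, y) := by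
  refine ⟨fun k => {sp (k+3), - sp (k+3)}, fun k => Finset.card_le_two, fun k h x y hx => ?_⟩
  rw [Finset.mem_insert, Finset.mem_singleton] at hx
  exact rh_neg h hx y

end Pool.Agent.Helper889.Si
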