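import Mathlib
import Pool.Agent.Helper889.Si.Amen
import Pool.Agent.Helper889.Si.Gen
import Pool.Agent.Helper889.Si.Simple
import Pool.Agent.Helper889.Si.Germ

set_option autoImplicit false
set_option linter.unusedSectionVars false
set_option linter.unusedVariables false

namespace Pool.Agent.Helper889.Si

open Equiv Equiv.Perm

section generic
variable {G : Type} {J : Type} [Fintype J]

/-- uniform measure on a finite family -/
noncomputable def um (s : J → G) : G →₀ ℝ := ∑ j, Finsupp.single (s j) (1 / (Fintype.card J : ℝ))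

theorem um_sum (s : J → G) (f : G → ℝ) :
    ((um s).sum fun h a => a * f h) = (∑ j, f (s j)) / Fintype.card J := by
  unfold um
  rw [← Finsupp.sum_finsetSum_index (fun _ => by rw [zero_mul]) (fun _ _ _ => by rw [add_mul]), Finset.sum_div]
  refine Finset.sum_congr rfl fun j _ => ?_
  rw [Finsupp.sum_single_index (by rw [zero_mul])]
  ring

theorem um_apply [DecidableEq G] (s : J → G) (g : G) :
    um s g = ∑ j, if s j = g then 1 / (Fintype.card J : ℝ) else 0 := by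
  unfold um
  rw [Finsupp.finsetSum_apply]
  exact Finset.sum_congr rfl fun j _ => Finsupp.single_apply

theorem um_nonneg (s : J → G) (g : G) : 0 ≤ um s g := by
  classical
  rw [um_apply]
  exact Finset.sum_nonneg fun j _ => by split_ifs <;> positivity

theorem um_support [Nonempty J] (s : J → G) : ((um s).support : Set G) = Set.range s := by
  classical
  ext g
  rw [Finset.mem_coe, Finsupp.mem_support_iff, Set.mem_range]
  constructor
  · intro h
    by_contra hcon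
    push Not at hcon
    apply h
    rw [um_apply]
    exact Finset.sum_eq_zero fun j _ => if_neg (hcon j)
  · rintro ⟨j, rfl⟩
    have hc : (0:ℝ) < Fintype.card J := by exact_mod_cast Fintype.card_pos
    have h1 : (if s j = s j then 1 / (Fintype.card J : ℝ) else 0) ≤ um s (s j) := by
      rw [um_apply]
      exact Finset.single_le_sum (f := fun i => if s i = s j then 1 / (Fintype.card J : ℝ) else 0)
        (fun i _ => by split_ifs <;> positivity) (Finset.mem_univ j)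
    rw [if_pos rfl] at h1
    have h2 : 0 < 1 / (Fintype.card J : ℝ) := by positivity
    linarith

theorem um_symm [Group G] (s : J → G) (σ : Equiv.Perm J) (hσ : ∀ j, s (σ j) = (s j)⁻¹) (g : G) : um s g⁻¹ = um s g := by
  classical
  rw [um_apply, um_apply, ← Equiv.sum_comp σ]
  refine Finset.sum_congr rfl fun j _ => ?_
  rw [hσ]
  by_cases h : s j = g
  · rw [if_pos h, if_pos (by rw [h])]
  · rw [if_neg h, if_neg (fun hc => h (inv_injective hc))]

end generic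

section
variable {S : Sys} {J : Type} [Fintype J]

/-- the group -/
def GS (u u' : S.V 1) (gen : J → S.H) : Subgroup (Perm S.Bd) :=
  Subgroup.closure ((ext 2 '' (alternatingGroup (S.V 2) : Set (Perm (S.V 2)))) ∪ (pp 1 u u' '' Set.range gen))

omit [Fintype J] in
theorem ext2_mem (u u' : S.V 1) (gen : J → S.H) {f : Perm (S.V 2)} (hf : f ∈ alternatingGroup (S.V 2)) :
    ext 2 f ∈ GS u u' gen := Subgroup.subset_closure (Or.inl ⟨f, hf, rfl⟩)

omit [Fintype J] in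
theorem pp1_mem (u u' : S.V 1) (gen : J → S.H) (j : J) : pp 1 u u' (gen j) ∈ GS u u' gen :=
  Subgroup.subset_closure (Or.inr ⟨gen j, ⟨j, rfl⟩, rfl⟩)

theorem ms_mem {n : ℕ} (v : S.V n) (h : S.H) : DD n (Pi.mulSingle v h) ∈ FF S := by
  have h0 : DD n (Pi.mulSingle (ow n) h) ∈ FF S := by
    have e : DD n (Pi.mulSingle (ow n) h) = (Tn n h)⁻¹ * Dz h := by
      rw [Dz_split n h, ← mul_assoc, inv_mul_cancel, one_mul]
    rw [e]
    obtain ⟨f, hf⟩ := Tn_ext n h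
    refine mul_mem (inv_mem ?_) (Dz_mem h)
    rw [hf]
    exact ext_mem _ _
  have e : DD n (Pi.mulSingle v h) = ext n (swap (ow n) v) * DD n (Pi.mulSingle (ow n) h) * (ext n (swap (ow n) v))⁻¹ := by
    rw [ext_DD, mul_assoc, mul_inv_cancel, mul_one]
    congr 1
    funext w
    simp only [Function.comp, symm_swap]
    by_cases hw : w = v
    · subst hw
      rw [swap_apply_right, Pi.mulSingle_eq_same, Pi.mulSingle_eq_same]
    · rw [Pi.mulSingle_eq_of_ne hw, Pi.mulSingle_eq_of_ne]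
      intro hc
      exact hw ((swap (ow n) v).injective (hc.trans (swap_apply_right (ow n) v).symm))
  rw [e]
  exact mul_mem (mul_mem (ext_mem _ _) h0) (inv_mem (ext_mem _ _))

theorem pp_mem {n : ℕ} {v v' : S.V n} (hv : v ≠ v') (h : S.H) : pp n v v' h ∈ FF S := by
  have e : ps v v' h = Pi.mulSingle v h * Pi.mulSingle v' h⁻¹ := by
    funext w
    rw [Pi.mul_apply]
    unfold ps
    by_cases h1 : w = v
    · subst h1
      rw [if_pos rfl, Pi.mulSingle_eq_same, Pi.mulSingle_eq_of_ne hv, mul_one]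
    · rw [if_neg h1, Pi.mulSingle_eq_of_ne h1, one_mul]
      by_cases h2 : w = v'
      · subst h2
        rw [if_pos rfl, Pi.mulSingle_eq_same]
      · rw [if_neg h2, Pi.mulSingle_eq_of_ne h2]
  unfold pp
  rw [e, map_mul]
  exact mul_mem (ms_mem v h) (ms_mem v' _)

omit [Fintype J] in
theorem GS_le {u u' : S.V 1} (huu : u ≠ u') (gen : J → S.H) : GS u u' gen ≤ FF S := by
  unfold GS
  rw [Subgroup.closure_le]
  rintro _ (⟨f, _, rfl⟩ | ⟨h, _, rfl⟩)
  · exact ext_mem _ _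
  · exact pp_mem huu h

omit [Fintype J] in
theorem GS_full (t0 t1 : ∀ k, S.X k) (ht01 : ∀ k, t0 k ≠ t1 k)
    (hC1 : ∀ k (y y' : S.X (k+1)), ∃ h, ∃ π : Perm (S.X (k+1)), π y = y' ∧
      ∀ x z, S.ρ k h (x, z) = if x = t0 k ∨ x = t1 k then (x, π z) else (x, z))
    (hC2 : ∀ k, ∃ h, ∃ a : S.X (k+1), S.ρ k h = swap (t0 k, a) (t1 k, a))
    (hX : ∀ k, 9 ≤ Fintype.card (S.X k)) {u u' : S.V 1} (huu : u ≠ u') (gen : J → S.H)
    (hgen : Subgroup.closure (Set.range gen) = ⊤) :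
    (∀ n, ∀ f ∈ alternatingGroup (S.V (n+1)), ext (n+1) f ∈ GS u u' gen) ∧
    (∀ h, ∀ v v' : S.V 1, v ≠ v' → pp 1 v v' h ∈ GS u u' gen) := by
  have h2 : ∀ f ∈ alternatingGroup (S.V 2), ext 2 f ∈ GS u u' gen := fun f hf => ext2_mem u u' gen hf
  have h1 : ∀ f ∈ alternatingGroup (S.V 1), ext 1 f ∈ GS u u' gen := fun f hf => by
    obtain ⟨g, hg, hg'⟩ := alt_le (show 1 ≤ 2 by omega) hf
    rw [hg']
    exact h2 g hg
  have h3 : ∀ s ∈ Set.range gen, pp 1 u u' s ∈ GS u u' gen := by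
    rintro _ ⟨j, rfl⟩
    exact pp1_mem u u' gen j
  have key := gen_all t0 t1 ht01 hC1 hC2 hX (card_V hX) (Set.range gen) hgen huu h1 h2 h3
  refine ⟨fun n => ?_, (key 0).2⟩
  cases n with
  | zero => exact h1
  | succ n => exact (key n).1

omit [Fintype J] in
theorem inf_GS (hf : ∀ h : S.H, h ≠ 1 → ∀ n, ∃ k, n ≤ k ∧ S.ρ k h ≠ 1) [Infinite S.H] {u' : S.V 1} (huu : ow 1 ≠ u') (gen : J → S.H)
    (hB : ∀ h, ∀ v v' : S.V 1, v ≠ v' → pp 1 v v' h ∈ GS (ow 1) u' gen) : Infinite (GS (ow 1) u' gen) := by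
  refine Infinite.of_injective (fun h : S.H => (⟨pp 1 (ow 1) u' h, hB h _ _ huu⟩ : GS (ow 1) u' gen)) ?_
  intro h h' e
  have h1 := gam_pp (GS (ow 1) u' gen) (GS_le huu gen) hf (⟨pp 1 (ow 1) u' h, hB h _ _ huu⟩ : GS (ow 1) u' gen) rfl
  have h2 := gam_pp (GS (ow 1) u' gen) (GS_le huu gen) hf (⟨pp 1 (ow 1) u' h', hB h' _ _ huu⟩ : GS (ow 1) u' gen) rfl
  rw [← h1, ← h2]
  have e' : (⟨pp 1 (ow 1) u' h, hB h _ _ huu⟩ : GS (ow 1) u' gen) = ⟨pp 1 (ow 1) u' h', hB h' _ _ huu⟩ := e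
  rw [e']

omit [Fintype J] in
theorem simple_GS (hX : ∀ k, 9 ≤ Fintype.card (S.X k)) {u u' : S.V 1} (huu : u ≠ u') (gen : J → S.H)
    (hA : ∀ n, ∀ f ∈ alternatingGroup (S.V (n+1)), ext (n+1) f ∈ GS u u' gen)
    (hB : ∀ h, ∀ v v' : S.V 1, v ≠ v' → pp 1 v v' h ∈ GS u u' gen) (hN : Nontrivial (GS u u' gen)) : IsSimpleGroup (GS u u' gen) where
  exists_pair_ne := hN.exists_pair_ne
  eq_bot_or_eq_top_of_normal := by
    intro N hNn
    by_cases hb : N = ⊥
    · exact Or.inl hb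
    · right
      have key : GS u u' gen ≤ N.map (Subgroup.subtype _) := by
        refine normal_top (GS u u' gen) (GS_le huu gen) hX hA hB huu (T := Set.range gen) le_rfl _ ?_ ?_ ?_
        · rintro _ ⟨y, _, rfl⟩
          exact y.2
        · rintro g hg _ ⟨y, hy, rfl⟩
          exact ⟨⟨g, hg⟩ * y * ⟨g, hg⟩⁻¹, hNn.conj_mem y hy ⟨g, hg⟩, rfl⟩
        · obtain ⟨y, hy⟩ := (Subgroup.ne_bot_iff_exists_ne_one).1 hb
          exact ⟨((y : GS u u' gen) : Perm S.Bd), ⟨_, y.2, rfl⟩, fun hc => hy (Subtype.ext (Subtype.ext hc))⟩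
      rw [eq_top_iff]
      intro x _
      obtain ⟨y, hy, hyx⟩ := key x.2
      have : y = x := Subtype.ext hyx
      rw [← this]
      exact hy

/-- the generators -/
noncomputable def sG (u u' : S.V 1) (gen : J → S.H) : (alternatingGroup (S.V 2)) ⊕ J → GS u u' gen :=
  Sum.elim (fun a => ⟨ext 2 (a : Perm (S.V 2)), ext2_mem u u' gen a.2⟩) (fun j => ⟨pp 1 u u' (gen j), pp1_mem u u' gen j⟩)

omit [Fintype J] in
theorem sG_top (u u' : S.V 1) (gen : J → S.H) : Subgroup.closure (Set.range (sG u u' gen)) = ⊤ := by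
  set K : Subgroup (GS u u' gen) := Subgroup.closure (Set.range (sG u u' gen)) with hK
  have h2 : GS u u' gen ≤ K.map (Subgroup.subtype _) := by
    conv_lhs => unfold GS
    rw [Subgroup.closure_le]
    rintro _ (⟨f, hf, rfl⟩ | ⟨_, ⟨j, rfl⟩, rfl⟩)
    · exact ⟨sG u u' gen (Sum.inl ⟨f, hf⟩), Subgroup.subset_closure ⟨_, rfl⟩, rfl⟩
    · exact ⟨sG u u' gen (Sum.inr j), Subgroup.subset_closure ⟨_, rfl⟩, rfl⟩
  rw [eq_top_iff]
  intro x _
  obtain ⟨y, hy, hyx⟩ := h2 x.2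
  have : y = x := Subtype.ext hyx
  rw [← this]
  exact hy

theorem fg_GS (u u' : S.V 1) (gen : J → S.H) : Group.FG (GS u u' gen) :=
  Group.fg_iff.2 ⟨_, sG_top u u' gen, Set.finite_range _⟩

theorem meas_GS (hf : ∀ h : S.H, h ≠ 1 → ∀ n, ∃ k, n ≤ k ∧ S.ρ k h ≠ 1) {gen : J → S.H} {u' : S.V 1} (huu : ow 1 ≠ u')
    (hB : ∀ h, ∀ v v' : S.V 1, v ≠ v' → pp 1 v v' h ∈ GS (ow 1) u' gen)
    (σ : Equiv.Perm J) (hσ : ∀ j, gen (σ j) = (gen j)⁻¹)
    (F : S.H → ℝ) (hF1 : ∀ v, (∑ j, F (v * gen j)) = Fintype.card J * F v) (hF2 : ∀ v, 0 ≤ F v ∧ F v ≤ 1)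
    {a b : S.H} (hab : F a ≠ F b) :
    ∃ μ : GS (ow 1) u' gen →₀ ℝ, (∀ g, 0 ≤ μ g) ∧ Finsupp.sum μ (fun _ w => w) = 1 ∧
        (∀ g, μ g⁻¹ = μ g) ∧ Subgroup.closure (↑μ.support : Set (GS (ow 1) u' gen)) = ⊤ ∧
        ∃ f : GS (ow 1) u' gen → ℝ, (∃ C : ℝ, ∀ g, |f g| ≤ C) ∧
          (∀ g, f g = Finsupp.sum μ (fun s w => w * f (g * s))) ∧
          ∃ a b, f a ≠ f b := by
  set u : S.V 1 := ow 1 with hu
  set τ : Equiv.Perm ((alternatingGroup (S.V 2)) ⊕ J) := Equiv.sumCongr (Equiv.inv _) σ with hτ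
  have hτ' : ∀ j, sG u u' gen (τ j) = (sG u u' gen j)⁻¹ := by
    rintro (q | j)
    · apply Subtype.ext
      show ext 2 ((q⁻¹ : alternatingGroup (S.V 2)) : Perm (S.V 2)) = (ext 2 (q : Perm (S.V 2)))⁻¹
      rw [← map_inv, Subgroup.coe_inv]
    · apply Subtype.ext
      show pp 1 u u' (gen (σ j)) = (pp 1 u u' (gen j))⁻¹
      rw [hσ, pp_inv huu]
  have hcard : (0:ℝ) < Fintype.card ((alternatingGroup (S.V 2)) ⊕ J) := by exact_mod_cast Fintype.card_pos
  have hlift := lift_harmonic (GS u u' gen) (GS_le huu gen) hf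
    (fun a : alternatingGroup (S.V 2) => (⟨ext 2 (a : Perm (S.V 2)), ext2_mem u u' gen a.2⟩ : GS u u' gen)) (M := 2)
    (fun a => ⟨a, rfl⟩) gen σ hσ huu (fun j => (⟨pp 1 u u' (gen j), pp1_mem u u' gen j⟩ : GS u u' gen)) (fun j => rfl) F hF1
  refine ⟨um (sG u u' gen), um_nonneg _, ?_, um_symm _ τ hτ', ?_,
    fun g => F (gam (GS u u' gen) (GS_le huu gen) g)⁻¹, ⟨1, fun g => ?_⟩, fun g => ?_, ?_⟩
  · have := um_sum (sG u u' gen) (fun _ => 1)
    simp only [mul_one] at this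
    rw [this, Finset.sum_const, nsmul_eq_mul, mul_one, Finset.card_univ]
    exact div_self hcard.ne'
  · rw [um_support]
    exact sG_top u u' gen
  · rw [abs_of_nonneg (hF2 _).1]; exact (hF2 _).2
  · rw [um_sum (sG u u' gen) (fun h => F (gam (GS u u' gen) (GS_le huu gen) (g * h))⁻¹), eq_div_iff hcard.ne', mul_comm]
    exact (hlift g).symm
  · refine ⟨⟨pp 1 u u' a, hB a _ _ huu⟩, ⟨pp 1 u u' b, hB b _ _ huu⟩, ?_⟩
    have h1 := gam_pp (GS u u' gen) (GS_le huu gen) hf (⟨pp 1 u u' a, hB a _ _ huu⟩ : GS u u' gen) rfl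
    have h2 := gam_pp (GS u u' gen) (GS_le huu gen) hf (⟨pp 1 u u' b, hB b _ _ huu⟩ : GS u u' gen) rfl
    show F (gam (GS u u' gen) (GS_le huu gen) _)⁻¹ ≠ F (gam (GS u u' gen) (GS_le huu gen) _)⁻¹
    rw [h1, h2]
    exact hab

/-- amenability in terms of images -/
theorem amen_image {G : Type} [Group G] (h : Br.Amenable G) : ∃ m : Set G → ℝ, m Set.univ = 1 ∧ (∀ A : Set G, 0 ≤ m A) ∧
        (∀ A B : Set G, Disjoint A B → m (A ∪ B) = m A + m B) ∧
        (∀ (g : G) (A : Set G), m ((fun x => g * x) '' A) = m A) := by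
  obtain ⟨m, h0, h1, h2, h3⟩ := h
  refine ⟨m, h1, h0, h2, fun g A => ?_⟩
  rw [← h3 g⁻¹ A]
  congr 1
  ext x
  constructor
  · rintro ⟨y, hy, rfl⟩
    show g⁻¹ * (g * y) ∈ A
    rwa [inv_mul_cancel_left]
  · intro hx
    exact ⟨g⁻¹ * x, hx, mul_inv_cancel_left g x⟩

end

end Pool.Agent.Helper889.Si
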